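import Pool.Agent.Q293.RT.Stm

/-! Common facts used in several jobs of project RT. -/

namespace Pool.Agent.Q293.RT.Bas
open Pool.Agent.Q293.RT
open Set

theorem vs_mem : vs ∈ VV := ⟨LinearEquiv.refl ℝ M, IsSym.refl, rfl⟩

theorem ell_vs (x : E) : ell vs x = ph := by
  have hp : (0:ℝ) < ph := Real.goldenRatio_pos
  unfold ell vs
  simp only [PiLp.zero_apply, mul_zero, Finset.sum_const_zero, add_zero, mul_one]
  rw [sq, mul_div_assoc, div_self hp.ne', mul_one]

theorem cube_mem (cti : S_CTI) : cube ∈ Tl := ⟨vs, vs_mem, cti.symm⟩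

theorem cface_inj (cfl : S_CFL) {s s' : Fin 3 → SignType} (h : cface s = cface s') : s = s' := by
  have h1 := (cfl.1 s s').1 h.subset
  have h2 := (cfl.1 s' s).1 h.symm.subset
  funext i
  by_cases h3 : s' i = 0
  · by_contra hcon
    exact hcon (h2 i (fun h4 => hcon (h4.trans h3.symm))).symm
  · exact h1 i h3

theorem cface_mem (cti : S_CTI) (cuf : S_CUF) (s : Fin 3 → SignType) :
    cface s ∈ Faces (d := 3) Tl :=
  Or.inr (Or.inr ⟨cube, cube_mem cti, (cuf _).2 (Or.inr ⟨s, rfl⟩)⟩)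

/-- the face of the tiling -/
noncomputable def cF (cti : S_CTI) (cuf : S_CUF) (s : Fin 3 → SignType) : FaceLat (d := 3) Tl :=
  ⟨cface s, cface_mem cti cuf s⟩

theorem below_cube (lfc : S_LFC) (cti : S_CTI) (fit : S_FIT) (cuf : S_CUF)
    (F : FaceLat (d := 3) Tl) (h : F.1 ⊆ cube) : F.1 = ∅ ∨ ∃ s, F.1 = cface s :=
  (cuf _).1 ((fit Tl lfc cube (cube_mem cti) F.1 F.2).1 h)

end Pool.Agent.Q293.RT.Bas
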