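import Mathlib

/-!
# Combinatorially regular LFC tilings (MP_389659_co): definitions
-/

namespace Pool.Agent.Q293.RT

/-- Euclidean `d`-space. -/
abbrev Eu (d : ℕ) : Type := EuclideanSpace ℝ (Fin d)

/-- `F` is a face of the convex set `P` (the empty set and `P` are faces): `F` is a convex subset
of `P` such that whenever an open segment with end points in `P` meets `F`, its end points lie
in `F`. -/
def IsFace {d : ℕ} (P F : Set (Eu d)) : Prop :=
  Convex ℝ F ∧ IsExtreme ℝ P F

/-- LFC tilings of Euclidean `d`-space: locally finite face-to-face tilings by convex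
`d`-polytopes. -/
structure IsLFCTiling {d : ℕ} (T : Set (Set (Eu d))) : Prop where
  /-- every tile is a polytope, the convex hull of finitely many points -/
  polytope : ∀ P ∈ T, ∃ s : Finset (Eu d), P = convexHull ℝ (s : Set (Eu d))
  /-- every tile is `d`-dimensional -/
  solid : ∀ P ∈ T, (interior P).Nonempty
  /-- the tiles cover the space -/
  cover : ⋃₀ T = Set.univ
  /-- different tiles have disjoint interiors -/
  disjoint : ∀ P ∈ T, ∀ Q ∈ T, P ≠ Q → Disjoint (interior P) (interior Q)
  /-- the intersection of two tiles is a face of both -/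
  face_to_face : ∀ P ∈ T, ∀ Q ∈ T, IsFace P (P ∩ Q) ∧ IsFace Q (P ∩ Q)
  /-- every ball meets only finitely many tiles -/
  locally_finite : ∀ (x : Eu d) (r : ℝ),
    {P | P ∈ T ∧ (P ∩ Metric.closedBall x r).Nonempty}.Finite

/-- The faces of a tiling: the empty face, the whole space, and the faces of the tiles. -/
def Faces {d : ℕ} (T : Set (Set (Eu d))) : Set (Set (Eu d)) :=
  {F | F = ∅ ∨ F = Set.univ ∨ ∃ P ∈ T, IsFace P F}

/-- The face lattice of a tiling, ordered by inclusion. -/
abbrev FaceLat {d : ℕ} (T : Set (Set (Eu d))) : Type := {F : Set (Eu d) // F ∈ Faces T}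

/-- The tiling is combinatorially regular: the automorphism group of its face lattice acts
transitively on the flags (maximal chains). -/
def CombRegular {d : ℕ} (T : Set (Set (Eu d))) : Prop :=
  ∀ Φ Ψ : Flag (FaceLat T), ∃ g : FaceLat T ≃o FaceLat T, ∀ F : FaceLat T, F ∈ Φ ↔ g F ∈ Ψ

/-- The tiling is regular: the group of isometries mapping the tiling onto itself acts
transitively on the flags of its face lattice. -/
def MetricRegular {d : ℕ} (T : Set (Set (Eu d))) : Prop :=
  ∀ Φ Ψ : Flag (FaceLat T), ∃ h : Eu d ≃ᵢ Eu d, (∀ P : Set (Eu d), P ∈ T ↔ h '' P ∈ T) ∧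
    ∀ F : FaceLat T, F ∈ Φ ↔ ∃ G ∈ Ψ, (G : Set (Eu d)) = h '' (F : Set (Eu d))

end Pool.Agent.Q293.RT
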