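import Pool.Agent.Q293.RT.Stm

namespace Pool.Agent.Q293.RT.JABV
open Pool.Agent.Q293.RT
open Set

theorem fut_vs : Fut vs := by
  have hp : (0:ℝ) < ph := Real.goldenRatio_pos
  refine ⟨one_pos, ?_⟩
  unfold B vs
  simp
  positivity

theorem B_vs (y : M) : B y vs = -(ph * y.1) := by
  unfold B vs
  simp

theorem main : S_ABV_job := by
  intro f2 x
  have hp : (0:ℝ) < ph := Real.goldenRatio_pos
  have hsp : 0 < √ph := Real.sqrt_pos.2 hp
  have hsq : √ph * √ph = ph := Real.mul_self_sqrt hp.le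
  by_cases hx : x = 0
  · refine ⟨vs, ⟨LinearEquiv.refl ℝ M, IsSym.refl, rfl⟩, ?_⟩
    subst hx
    unfold ell vs
    simp
    positivity
  · have hxn : 0 < ‖x‖ := norm_pos_iff.2 hx
    set y : M := (‖x‖ / √ph, x) with hy
    have hy0 : 0 < y.1 := by rw [hy]; positivity
    have hB : B y y = 0 := by
      unfold B
      have : ∑ i, y.2 i * y.2 i = ‖x‖ ^ 2 := by
        rw [← real_inner_self_eq_norm_sq, PiLp.inner_apply]
        apply Finset.sum_congr rfl
        intro i _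
        simp [hy]
        ring
      rw [this]
      show -(ph * (‖x‖ / √ph) * (‖x‖ / √ph)) + ‖x‖ ^ 2 = 0
      have e : ph * (‖x‖ / √ph) * (‖x‖ / √ph) = ph * ‖x‖ ^ 2 / (√ph * √ph) := by
        field_simp
      rw [e, hsq, mul_div_assoc, mul_div_cancel₀]
      · ring
      · exact hp.ne'
    obtain ⟨γ, hγ, hlt⟩ := f2 y hy0 hB ph hp
    refine ⟨γ.symm vs, ⟨γ.symm, hγ.symm, rfl⟩, ?_⟩
    have hfut : Fut (γ.symm vs) := hγ.symm.1.fut _ fut_vs
    have hv0 : 0 < (γ.symm vs).1 := hfut.1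
    have hBy : B y (γ.symm vs) = -(ph * (γ y).1) := by
      rw [← B_vs, ← hγ.1.form, LinearEquiv.apply_symm_apply]
    have h1 : - ph ^ 2 < B y (γ.symm vs) := by
      rw [hBy]; nlinarith
    unfold B at h1
    unfold ell
    rw [lt_div_iff₀ (by positivity)]
    show ‖x‖ / √ph * (ph * (γ.symm vs).1) < ph ^ 2 + ∑ i, x i * (γ.symm vs).2 i
    have h2 : y.1 = ‖x‖ / √ph := rfl
    have h3 : y.2 = x := rfl
    rw [h2, h3] at h1
    linarith

end Pool.Agent.Q293.RT.JABV
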