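import Pool.Agent.Q293.RT.Stm

namespace Pool.Agent.Q293.RT.JACT
open Pool.Agent.Q293.RT
open Set

theorem B_lift (t : ℝ) (x : E) (u : M) : B (t, x) u = -(ph * t * u.1) + ∑ i, x i * u.2 i := rfl

theorem B_ell {u : M} (hu : 0 < u.1) (x : E) : B (ell u x, x) u = - ph ^ 2 := by
  have hp : (0:ℝ) < ph := Real.goldenRatio_pos
  rw [B_lift]
  unfold ell
  have : ph * ((ph ^ 2 + ∑ i, x i * u.2 i) / (ph * u.1)) * u.1 = ph ^ 2 + ∑ i, x i * u.2 i := by
    field_simp
  rw [this]; ring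

theorem B_le_iff {u : M} (hu : 0 < u.1) (t : ℝ) (x : E) : B (t, x) u ≤ - ph ^ 2 ↔ ell u x ≤ t := by
  have hp : (0:ℝ) < ph := Real.goldenRatio_pos
  rw [B_lift]
  unfold ell
  rw [div_le_iff₀ (by positivity)]
  constructor <;> intro h <;> nlinarith

theorem B_eq_iff {u : M} (hu : 0 < u.1) (t : ℝ) (x : E) : B (t, x) u = - ph ^ 2 ↔ ell u x = t := by
  have hp : (0:ℝ) < ph := Real.goldenRatio_pos
  rw [B_lift]
  unfold ell
  rw [div_eq_iff (by positivity)]
  constructor <;> intro h <;> nlinarith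

/-- the envelope -/
def Sig (D : Set M) (y : M) : Prop := (∀ u ∈ D, B y u ≤ - ph ^ 2) ∧ ∃ u ∈ D, B y u = - ph ^ 2

theorem sig_unique {D : Set M} (hD : ∀ u ∈ D, 0 < u.1) {t t' : ℝ} {x : E} (h : Sig D (t, x))
    (h' : Sig D (t', x)) : t = t' := by
  obtain ⟨h1, u, hu, hu2⟩ := h
  obtain ⟨h1', u', hu', hu2'⟩ := h'
  apply le_antisymm
  · have := h1' u hu
    rw [B_le_iff (hD u hu)] at this
    rw [B_eq_iff (hD u hu)] at hu2
    linarith
  · have := h1 u' hu'
    rw [B_le_iff (hD u' hu')] at this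
    rw [B_eq_iff (hD u' hu')] at hu2'
    linarith

theorem sig_of_mem {D : Set M} (hD : ∀ u ∈ D, 0 < u.1) {u : M} (hu : u ∈ D) {x : E}
    (hx : x ∈ tile D u) : Sig D (ell u x, x) := by
  refine ⟨fun u' hu' => ?_, u, hu, B_ell (hD u hu) x⟩
  rw [B_le_iff (hD u' hu')]
  exact hx u' hu'

theorem mem_of_sig {D : Set M} (hD : ∀ u ∈ D, 0 < u.1) {u : M} (hu : u ∈ D) {t : ℝ} {x : E}
    (h : Sig D (t, x)) (hB : B (t, x) u = - ph ^ 2) : x ∈ tile D u := by
  intro u' hu'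
  have := h.1 u' hu'
  rw [B_le_iff (hD u' hu')] at this
  rw [B_eq_iff (hD u hu)] at hB
  linarith

theorem sig_map {D : Set M} {γ : M ≃ₗ[ℝ] M} (hB : ∀ y z, B (γ y) (γ z) = B y z)
    (hγ : ∀ u, u ∈ D ↔ γ u ∈ D) {y : M} (h : Sig D y) : Sig D (γ y) := by
  obtain ⟨h1, u, hu, hu2⟩ := h
  refine ⟨fun w hw => ?_, γ u, (hγ u).1 hu, by rw [hB]; exact hu2⟩
  have : w = γ (γ.symm w) := (γ.apply_symm_apply w).symm
  rw [this, hB]
  apply h1
  rw [hγ, γ.apply_symm_apply]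
  exact hw

theorem main : S_ACT := by
  intro D hD hcov γ hB hγ
  classical
  -- the lift
  choose v hv hxv using hcov
  set L : E → M := fun x => (ell (v x) x, x) with hL
  have hLs : ∀ x, Sig D (L x) := fun x => sig_of_mem hD (hv x) (hxv x)
  have hLu : ∀ y : M, Sig D y → L y.2 = y := by
    intro y hy
    have h1 : Sig D (L y.2) := hLs y.2
    have h2 : Sig D (y.1, y.2) := hy
    have : ell (v y.2) y.2 = y.1 := sig_unique hD h1 h2
    show (ell (v y.2) y.2, y.2) = y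
    rw [this]
  have hLell : ∀ u ∈ D, ∀ x ∈ tile D u, L x = (ell u x, x) := by
    intro u hu x hx
    have := hLu (ell u x, x) (sig_of_mem hD hu hx)
    exact this
  have hB' : ∀ y z, B (γ.symm y) (γ.symm z) = B y z := by
    intro y z
    rw [← hB, γ.apply_symm_apply, γ.apply_symm_apply]
  have hγ' : ∀ u, u ∈ D ↔ γ.symm u ∈ D := by
    intro u
    rw [hγ (γ.symm u), γ.apply_symm_apply]
  let g : E ≃ E :=
    { toFun := fun x => (γ (L x)).2
      invFun := fun x => (γ.symm (L x)).2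
      left_inv := by
        intro x
        show (γ.symm (L (γ (L x)).2)).2 = x
        rw [hLu _ (sig_map hB hγ (hLs x)), γ.symm_apply_apply]
      right_inv := by
        intro x
        show (γ (L (γ.symm (L x)).2)).2 = x
        rw [hLu _ (sig_map hB' hγ' (hLs x)), γ.apply_symm_apply] }
  have hg : ∀ x, g x = (γ (L x)).2 := fun _ => rfl
  have hgs : ∀ x, g.symm x = (γ.symm (L x)).2 := fun _ => rfl
  have key : ∀ (δ : M ≃ₗ[ℝ] M), (∀ y z, B (δ y) (δ z) = B y z) → (∀ u, u ∈ D ↔ δ u ∈ D) →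
      ∀ u ∈ D, ∀ x ∈ tile D u, (δ (L x)).2 ∈ tile D (δ u) := by
    intro δ h1 h2 u hu x hx
    have hs : Sig D (δ (L x)) := sig_map h1 h2 (hLs x)
    have hb : B (L x) u = - ph ^ 2 := by
      rw [hLell u hu x hx]; exact B_ell (hD u hu) x
    have hb' : B (δ (L x)) (δ u) = - ph ^ 2 := by rw [h1]; exact hb
    exact mem_of_sig hD ((h2 u).1 hu) (t := (δ (L x)).1) (x := (δ (L x)).2) hs hb'
  refine ⟨g, ?_, ?_, ?_⟩
  · intro u hu
    apply Subset.antisymm
    · rintro _ ⟨x, hx, rfl⟩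
      rw [hg]
      exact key γ hB hγ u hu x hx
    · intro y hy
      refine ⟨g.symm y, ?_, g.apply_symm_apply y⟩
      rw [hgs]
      have := key γ.symm hB' hγ' (γ u) ((hγ u).1 hu) y hy
      rwa [γ.symm_apply_apply] at this
  · intro u hu x hx
    rw [hg, hLell u hu x hx]
  · intro u hu x hx
    rw [hgs, hLell u hu x hx]

end Pool.Agent.Q293.RT.JACT
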