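import Pool.Agent.Q293.RT.Stm

namespace Pool.Agent.Q293.RT.JAFL
open Pool.Agent.Q293.RT
open Set

theorem main : S_AFL := by
  intro γ u
  -- the linear part of ell
  let l : E →ₗ[ℝ] ℝ :=
    { toFun := fun x => (∑ i, x i * u.2 i) / (ph * u.1)
      map_add' := by
        intro x y
        simp only [PiLp.add_apply]
        rw [← add_div, ← Finset.sum_add_distrib]
        congr 1
        apply Finset.sum_congr rfl
        intro i _
        ring
      map_smul' := by
        intro c x
        simp only [PiLp.smul_apply, smul_eq_mul, RingHom.id_apply]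
        rw [← mul_div_assoc, Finset.mul_sum]
        congr 1
        apply Finset.sum_congr rfl
        intro i _
        ring }
  let lin : E →ₗ[ℝ] E := (LinearMap.snd ℝ ℝ E).comp
    ((γ : M →ₗ[ℝ] M).comp (l.prod LinearMap.id))
  refine ⟨⟨fun x => (γ (ell u x, x)).2, lin, ?_⟩, fun x => rfl⟩
  intro p v
  show (γ (ell u (v + p), v + p)).2 = (γ (l v, v)).2 + (γ (ell u p, p)).2
  have h1 : ell u (v + p) = l v + ell u p := by
    show (ph ^ 2 + ∑ i, (v + p) i * u.2 i) / (ph * u.1) = (∑ i, v i * u.2 i) / (ph * u.1) +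
      (ph ^ 2 + ∑ i, p i * u.2 i) / (ph * u.1)
    rw [← add_div]
    congr 1
    simp only [PiLp.add_apply, add_mul, Finset.sum_add_distrib]
    ring
  have h2 : (ell u (v + p), v + p) = ((l v, v) : M) + (ell u p, p) := by
    rw [h1]; rfl
  rw [h2, map_add]
  rfl

end Pool.Agent.Q293.RT.JAFL
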