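import Pool.Agent.Q293.RT.Stm

namespace Pool.Agent.Q293.RT.JATM
open Pool.Agent.Q293.RT
open Set

theorem main : S_ATM_job := by
  intro pol T hT F hne hmin
  have huniv : F.1 ≠ univ := by
    intro h
    obtain ⟨P, hP, h0⟩ : ∃ P ∈ T, (0 : E) ∈ P := by
      have : (0 : E) ∈ ⋃₀ T := by rw [hT.cover]; trivial
      exact this
    obtain ⟨s, hs⟩ := hT.polytope P hP
    have hPf : P ∈ Faces (d := 3) T := by
      right; right
      refine ⟨P, hP, ?_, IsExtreme.refl _ _⟩
      rw [hs]; exact convex_convexHull ℝ _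
    have := hmin ⟨P, hPf⟩ ⟨0, h0⟩ (by show P ⊆ F.1; rw [h]; exact Set.subset_univ _)
    have h2 : P = univ := by rw [← h]; exact congrArg Subtype.val this
    have hc : IsCompact P := by rw [hs]; exact Set.Finite.isCompact_convexHull ℝ s.finite_toSet
    rw [h2] at hc
    exact noncompact_univ E hc
  rcases F.2 with h | h | ⟨P, hP, hFP⟩
  · rw [h] at hne; exact absurd hne Set.not_nonempty_empty
  · exact absurd h huniv
  · obtain ⟨s, rfl⟩ := hT.polytope P hP
    have hc : IsCompact F.1 := by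
      rw [pol s F.1 hFP]
      exact Set.Finite.isCompact_convexHull ℝ (s.finite_toSet.inter_of_left _)
    obtain ⟨x, hx⟩ := hc.extremePoints_nonempty hne
    have hxe : IsExtreme ℝ (convexHull ℝ (s : Set E)) {x} :=
      hFP.2.trans (isExtreme_singleton.2 hx)
    have := hmin ⟨{x}, Or.inr (Or.inr ⟨_, hP, convex_singleton x, hxe⟩)⟩ ⟨x, rfl⟩
      (by show ({x} : Set E) ⊆ F.1; exact Set.singleton_subset_iff.2 hx.1)
    exact ⟨x, (congrArg Subtype.val this).symm⟩

end Pool.Agent.Q293.RT.JATM
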