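import Pool.Agent.Q293.RT.Stm

namespace Pool.Agent.Q293.RT.JAUG
open Pool.Agent.Q293.RT
open Set

theorem VV_inv {γ : M ≃ₗ[ℝ] M} (h : IsSym γ) : ∀ u, u ∈ VV ↔ γ u ∈ VV := by
  intro u
  constructor
  · rintro ⟨δ, hδ, rfl⟩
    exact ⟨δ.trans γ, hδ.trans h, rfl⟩
  · rintro ⟨δ, hδ, h2⟩
    refine ⟨δ.trans γ.symm, hδ.trans h.symm, ?_⟩
    show γ.symm (δ vs) = u
    rw [h2, γ.symm_apply_apply]

theorem main : S_AUG_job := by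
  intro gdv hmax act afl aut γ hγ
  have hpos : ∀ u ∈ VV, 0 < u.1 := fun u hu => (gdv.2.1 u hu).1
  obtain ⟨g, h1, h2, h3⟩ := act VV hpos (hmax VV gdv) γ hγ.1.form (VV_inv hγ)
  have hsymm : ∀ v ∈ VV, g.symm '' tile VV v = tile VV (γ.symm v) := by
    intro v hv
    have hv' : γ.symm v ∈ VV := (VV_inv hγ.symm v).1 hv
    have := h1 _ hv'
    rw [γ.apply_symm_apply] at this
    rw [← this, ← Set.image_comp]
    simp
  obtain ⟨G, hG⟩ := aut Tl g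
    (by
      rintro P ⟨v, hv, rfl⟩
      refine ⟨⟨γ v, (VV_inv hγ v).1 hv, h1 v hv⟩, ⟨γ.symm v, (VV_inv hγ.symm v).1 hv, hsymm v hv⟩⟩)
    (by
      rintro P ⟨v, hv, rfl⟩
      obtain ⟨A, hA⟩ := afl γ v
      obtain ⟨A', hA'⟩ := afl γ.symm v
      exact ⟨⟨A, fun x hx => by rw [h2 v hv x hx, hA]⟩, ⟨A', fun x hx => by rw [h3 v hv x hx, hA']⟩⟩)
  exact ⟨G, g, hG, h1, h2⟩

end Pool.Agent.Q293.RT.JAUG
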