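import Pool.Agent.Q293.RT.Stm

namespace Pool.Agent.Q293.RT.JAUT
open Pool.Agent.Q293.RT
open Set

theorem face_image {P F : Set E} {g : E ≃ E} (hA : Aff g P) (hA' : Aff g.symm (g '' P))
    (h : IsFace (d := 3) P F) : IsFace (d := 3) (g '' P) (g '' F) := by
  obtain ⟨A, hA⟩ := hA
  obtain ⟨A', hA'⟩ := hA'
  obtain ⟨hc, hsub, hext⟩ := h
  have himg : g '' F = A '' F := Set.image_congr fun x hx => hA x (hsub hx)
  refine ⟨?_, Set.image_mono hsub, ?_⟩
  · rw [himg]; exact hc.affine_image A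
  · rintro x hx y hy z hz hzo
    have h1 : g.symm z ∈ openSegment ℝ (g.symm x) (g.symm y) := by
      rw [hA' z (Set.image_mono hsub hz), hA' x hx, hA' y hy]
      have := Set.mem_image_of_mem A' hzo
      rwa [image_openSegment] at this
    obtain ⟨x', hx', rfl⟩ := hx
    obtain ⟨y', hy', rfl⟩ := hy
    obtain ⟨z', hz', rfl⟩ := hz
    simp only [Equiv.symm_apply_apply] at h1
    exact ⟨x', hext hx' hy' hz' h1, rfl⟩

theorem faces_image {T : Set (Set E)} {g : E ≃ E}
    (h1 : ∀ P ∈ T, g '' P ∈ T ∧ g.symm '' P ∈ T) (h2 : ∀ P ∈ T, Aff g P ∧ Aff g.symm P)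
    {F : Set E} (hF : F ∈ Faces (d := 3) T) : g '' F ∈ Faces (d := 3) T := by
  rcases hF with rfl | rfl | ⟨P, hP, hF⟩
  · left; exact Set.image_empty _
  · right; left; exact Set.image_univ_of_surjective g.surjective
  · right; right
    exact ⟨g '' P, (h1 P hP).1, face_image (h2 P hP).1 (h2 _ (h1 P hP).1).2 hF⟩

theorem main : S_AUT := by
  intro T g h1 h2
  have h1' : ∀ P ∈ T, g.symm '' P ∈ T ∧ g.symm.symm '' P ∈ T := fun P hP => ⟨(h1 P hP).2, (h1 P hP).1⟩
  have h2' : ∀ P ∈ T, Aff g.symm P ∧ Aff g.symm.symm P := fun P hP => ⟨(h2 P hP).2, (h2 P hP).1⟩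
  let G : FaceLat (d := 3) T ≃o FaceLat (d := 3) T :=
    { toFun := fun F => ⟨g '' F.1, faces_image h1 h2 F.2⟩
      invFun := fun F => ⟨g.symm '' F.1, faces_image h1' h2' F.2⟩
      left_inv := by
        intro F
        apply Subtype.ext
        show g.symm '' (g '' F.1) = F.1
        rw [← Set.image_comp]; simp
      right_inv := by
        intro F
        apply Subtype.ext
        show g '' (g.symm '' F.1) = F.1
        rw [← Set.image_comp]; simp
      map_rel_iff' := by
        intro F F'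
        show g '' F.1 ⊆ g '' F'.1 ↔ F.1 ⊆ F'.1
        exact Set.image_subset_image_iff g.injective }
  exact ⟨G, fun F => rfl⟩

end Pool.Agent.Q293.RT.JAUT
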