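import Pool.Agent.Q293.RT.Stm

namespace Pool.Agent.Q293.RT.JBEL
open Pool.Agent.Q293.RT
open Set

theorem sum_eq_inner (x y : E) : ∑ i, x i * y i = inner ℝ x y := by
  simp only [PiLp.inner_apply, RCLike.inner_apply, conj_trivial]
  apply Finset.sum_congr rfl
  intro i _
  ring

theorem alg (p q u n : ℝ) (h : p = q * q) (hq : q ≠ 0) (hu : u ≠ 0) :
    (p / u + n / q) * (p * u) = p ^ 2 + n * (q * u) := by
  subst h
  field_simp

theorem main : S_BEL := by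
  intro u hu x
  obtain ⟨h0, hB⟩ := hu
  have hp : (0:ℝ) < ph := Real.goldenRatio_pos
  have hsp : 0 < √ph := Real.sqrt_pos.2 hp
  have hsq : √ph * √ph = ph := Real.mul_self_sqrt hp.le
  have h1 : ‖u.2‖ ≤ √ph * u.1 := by
    have h2 : ‖u.2‖ ^ 2 ≤ (√ph * u.1) ^ 2 := by
      unfold B at hB
      rw [sum_eq_inner, real_inner_self_eq_norm_sq] at hB
      have : (√ph * u.1) ^ 2 = ph * u.1 * u.1 := by
        rw [mul_pow, sq, hsq]; ring
      rw [this]; linarith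
    exact (sq_le_sq₀ (norm_nonneg _) (by positivity)).1 h2
  have h3 : ∑ i, x i * u.2 i ≤ ‖x‖ * (√ph * u.1) := by
    rw [sum_eq_inner]
    calc inner ℝ x u.2 ≤ ‖x‖ * ‖u.2‖ := real_inner_le_norm _ _
      _ ≤ _ := mul_le_mul_of_nonneg_left h1 (norm_nonneg _)
  unfold ell
  rw [div_le_iff₀ (by positivity)]
  have e : (ph / u.1 + ‖x‖ / √ph) * (ph * u.1) = ph ^ 2 + ‖x‖ * (√ph * u.1) :=
    alg ph (√ph) u.1 ‖x‖ hsq.symm hsp.ne' h0.ne'
  rw [e]
  linarith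

end Pool.Agent.Q293.RT.JBEL
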