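import Pool.Agent.Q293.RT.Stm

namespace Pool.Agent.Q293.RT.JCFL
open Pool.Agent.Q293.RT
open Set

/-- centre of a face -/
noncomputable def ctr (s : Fin 3 → SignType) : E := WithLp.toLp 2 fun i => (s i : ℝ)

theorem abs_sign (s : SignType) : |(s : ℝ)| ≤ 1 := by cases s <;> simp

theorem ctr_mem (s : Fin 3 → SignType) : ctr s ∈ cface s :=
  ⟨fun i => abs_sign (s i), fun _ _ => rfl⟩

theorem sign_inj {s t : SignType} (h : (s : ℝ) = (t : ℝ)) : s = t := by
  cases s <;> cases t <;> simp at h ⊢ <;> linarith

theorem main : S_CFL := by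
  refine ⟨?_, fun s => ⟨_, ctr_mem s⟩, ?_, ?_⟩
  · intro s s'
    constructor
    · intro h i hi
      exact sign_inj ((h (ctr_mem s)).2 i hi)
    · intro h x hx
      refine ⟨hx.1, fun i hi => ?_⟩
      rw [← h i hi]
      exact hx.2 i (by rw [h i hi]; exact hi)
  · ext x
    constructor
    · intro h; exact h.1
    · intro h; exact ⟨h, fun i hi => absurd rfl hi⟩
  · intro s hs
    apply Subset.antisymm
    · intro x hx
      rw [Set.mem_singleton_iff]
      ext i
      rw [hx.2 i (hs i)]
      fin_cases i <;> rfl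
    · rintro x rfl
      refine ⟨fun i => ?_, fun i _ => ?_⟩
      · fin_cases i
        · exact abs_sign (s 0)
        · exact abs_sign (s 1)
        · exact abs_sign (s 2)
      · fin_cases i <;> rfl

end Pool.Agent.Q293.RT.JCFL
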