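import Pool.Agent.Q293.RT.Stm

namespace Pool.Agent.Q293.RT.JCHU
open Pool.Agent.Q293.RT
open Set

/-- the eight vertices as functions -/
def V8 : Set (Fin 3 → ℝ) := Set.univ.pi fun _ => ({-1, 1} : Set ℝ)

theorem V8_finite : V8.Finite := Set.Finite.pi fun _ => by simp

theorem hull_two : convexHull ℝ ({-1, 1} : Set ℝ) = Set.Icc (-1) 1 := by
  rw [convexHull_pair, segment_eq_Icc (by norm_num)]

theorem hull_V8 : convexHull ℝ V8 = {x | ∀ i, |x i| ≤ 1} := by
  unfold V8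
  rw [convexHull_pi]
  ext x
  simp only [hull_two, Set.mem_pi, Set.mem_univ, forall_true_left, Set.mem_Icc, Set.mem_setOf_eq,
    abs_le]

theorem main : S_CHU := by
  refine ⟨?_, ?_⟩
  · let L : (Fin 3 → ℝ) →ₗ[ℝ] E := ((WithLp.linearEquiv 2 ℝ (Fin 3 → ℝ)).symm : (Fin 3 → ℝ) →ₗ[ℝ] E)
    have hL : ∀ x i, (L x) i = x i := fun _ _ => rfl
    have hfin : (L '' V8).Finite := V8_finite.image _
    refine ⟨hfin.toFinset, ?_⟩
    rw [Set.Finite.coe_toFinset, ← LinearMap.image_convexHull, hull_V8]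
    apply Subset.antisymm
    · intro x hx
      exact ⟨fun i => x i, hx, rfl⟩
    · rintro _ ⟨x, hx, rfl⟩ i
      exact hx i
  · refine ⟨0, ?_⟩
    rw [mem_interior_iff_mem_nhds, Metric.mem_nhds_iff]
    refine ⟨1, one_pos, ?_⟩
    intro x hx i
    rw [mem_ball_zero_iff] at hx
    calc |x i| = ‖x i‖ := rfl
      _ ≤ ‖x‖ := PiLp.norm_apply_le x i
      _ ≤ 1 := hx.le

end Pool.Agent.Q293.RT.JCHU
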