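import Pool.Agent.Q293.RT.Stm

namespace Pool.Agent.Q293.RT.JCMB
open Pool.Agent.Q293.RT
open Set

theorem chain3 (Zs : Set (Finset (Fin 3))) (hch : ∀ A ∈ Zs, ∀ B ∈ Zs, A ⊆ B ∨ B ⊆ A)
    (hmax : ∀ A, (∀ B ∈ Zs, A ⊆ B ∨ B ⊆ A) → A ∈ Zs) :
    ∃ i j, i ≠ j ∧ ∀ A, A ∈ Zs ↔ A = ∅ ∨ A = {i} ∨ A = {i, j} ∨ A = Finset.univ := by
  classical
  have hE : (∅ : Finset (Fin 3)) ∈ Zs := hmax _ fun B _ => Or.inl (Finset.empty_subset _)
  have hU : (Finset.univ : Finset (Fin 3)) ∈ Zs := hmax _ fun B _ => Or.inr (Finset.subset_univ _)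
  obtain ⟨Z, ⟨hZ, hZn⟩, hZmin⟩ := Set.exists_min_image {Z | Z ∈ Zs ∧ Z.Nonempty}
    (fun Z => Z.card) (Set.toFinite _) ⟨Finset.univ, hU, Finset.univ_nonempty⟩
  obtain ⟨i, hi⟩ := hZn
  have hsub1 : ∀ A ∈ Zs, A.Nonempty → i ∈ A := by
    intro A hA hAn
    rcases hch Z hZ A hA with h | h
    · exact h hi
    · have : A = Z := Finset.eq_of_subset_of_card_le h (hZmin A ⟨hA, hAn⟩)
      rw [this]; exact hi
  have hI : ({i} : Finset (Fin 3)) ∈ Zs := by
    apply hmax
    intro B hB
    by_cases hBn : B.Nonempty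
    · left; exact Finset.singleton_subset_iff.2 (hsub1 B hB hBn)
    · right; rw [Finset.not_nonempty_iff_eq_empty.1 hBn]; exact Finset.empty_subset _
  obtain ⟨W, ⟨hW, hWc⟩, hWmin⟩ := Set.exists_min_image {Z | Z ∈ Zs ∧ 2 ≤ Z.card}
    (fun Z => Z.card) (Set.toFinite _) ⟨Finset.univ, hU, by simp⟩
  have hiW : i ∈ W := hsub1 W hW (Finset.card_pos.1 (by omega))
  obtain ⟨j, hjW, hji⟩ : ∃ j ∈ W, j ≠ i := by
    by_contra hcon
    push Not at hcon
    have : W ⊆ {i} := fun k hk => Finset.mem_singleton.2 (hcon k hk)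
    have := Finset.card_le_card this
    simp at this
    omega
  have hsub2 : ∀ A ∈ Zs, 2 ≤ A.card → j ∈ A := by
    intro A hA hAc
    rcases hch W hW A hA with h | h
    · exact h hjW
    · have : A = W := Finset.eq_of_subset_of_card_le h (hWmin A ⟨hA, hAc⟩)
      rw [this]; exact hjW
  have hsmall : ∀ A ∈ Zs, A.card < 2 → A = ∅ ∨ A = {i} := by
    intro A hA hAc
    by_cases hAn : A.Nonempty
    · right
      have h1 := hsub1 A hA hAn
      symm
      apply Finset.eq_of_subset_of_card_le (Finset.singleton_subset_iff.2 h1)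
      simp; omega
    · left; exact Finset.not_nonempty_iff_eq_empty.1 hAn
  have hIJ : ({i, j} : Finset (Fin 3)) ∈ Zs := by
    apply hmax
    intro B hB
    by_cases hBc : 2 ≤ B.card
    · left
      intro k hk
      rw [Finset.mem_insert, Finset.mem_singleton] at hk
      rcases hk with rfl | rfl
      · exact hsub1 B hB (Finset.card_pos.1 (by omega))
      · exact hsub2 B hB hBc
    · right
      rcases hsmall B hB (by omega) with h | h
      · rw [h]; exact Finset.empty_subset _
      · rw [h]; intro k hk; rw [Finset.mem_singleton] at hk; rw [hk]; exact Finset.mem_insert_self _ _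
  refine ⟨i, j, hji.symm, fun A => ⟨fun hA => ?_, ?_⟩⟩
  · by_cases hAc : 2 ≤ A.card
    · right; right
      have h3 : A.card ≤ 3 := by simpa using Finset.card_le_univ A
      have hij : ({i, j} : Finset (Fin 3)) ⊆ A := by
        intro k hk
        rw [Finset.mem_insert, Finset.mem_singleton] at hk
        rcases hk with rfl | rfl
        · exact hsub1 A hA (Finset.card_pos.1 (by omega))
        · exact hsub2 A hA hAc
      have hc2 : ({i, j} : Finset (Fin 3)).card = 2 := Finset.card_pair hji.symm
      by_cases h2 : A.card = 2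
      · left
        exact (Finset.eq_of_subset_of_card_le hij (by omega)).symm
      · right
        exact Finset.eq_univ_of_card A (by simp; omega)
    · rcases hsmall A hA (by omega) with h | h
      · exact Or.inl h
      · exact Or.inr (Or.inl h)
  · rintro (rfl | rfl | rfl | rfl)
    · exact hE
    · exact hI
    · exact hIJ
    · exact hU

theorem perm_exists : ∀ i j : Fin 3, i ≠ j → ∃ σ : Equiv.Perm (Fin 3), σ 1 = i ∧ σ 0 = j := by
  decide

theorem main : S_CMB := by
  intro K hch hmax
  classical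
  -- a vertex of the chain
  have h0 : (0 : Fin 3 → SignType) ∈ K := hmax _ fun s' _ => Or.inr fun i hi => absurd rfl hi
  obtain ⟨m, hm, hmin⟩ := Set.exists_min_image K (fun s => (Finset.univ.filter fun i => s i = 0).card)
    (Set.toFinite _) ⟨0, h0⟩
  have hle : ∀ s ∈ K, ∀ i, s i ≠ 0 → m i = s i := by
    intro s hs
    rcases hch m hm s hs with h | h
    · exact h
    · -- s ≼ m : zeros of s are zeros of m
      have hsub : (Finset.univ.filter fun i => s i = 0) ⊆ (Finset.univ.filter fun i => m i = 0) := by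
        intro i hi
        rw [Finset.mem_filter] at hi ⊢
        refine ⟨hi.1, ?_⟩
        by_contra hcon
        exact hcon ((h i hcon).symm.trans hi.2)
      have heq := Finset.eq_of_subset_of_card_le hsub (hmin s hs)
      intro i hi
      by_contra hcon
      by_cases h3 : m i = 0
      · have : i ∈ (Finset.univ.filter fun i => m i = 0) := by simp [h3]
        rw [← heq, Finset.mem_filter] at this
        exact hi this.2
      · exact hcon (h i h3).symm
  have hm0 : ∀ i, m i ≠ 0 := by
    intro i hi
    have hin : Function.update m i 1 ∈ K := by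
      apply hmax
      intro s' hs'
      left
      intro k hk
      by_cases hki : k = i
      · subst hki
        exfalso
        exact hk ((hle s' hs' k hk).symm.trans hi)
      · rw [Function.update_of_ne hki]
        exact hle s' hs' k hk
    have := hmin _ hin
    have hlt : (Finset.univ.filter fun k => Function.update m i 1 k = 0) ⊂
        (Finset.univ.filter fun k => m k = 0) := by
      rw [Finset.ssubset_iff_of_subset]
      · refine ⟨i, by simp [hi], by simp⟩
      · intro k hk
        rw [Finset.mem_filter] at hk ⊢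
        refine ⟨hk.1, ?_⟩
        by_cases hki : k = i
        · subst hki; exact hi
        · rw [Function.update_of_ne hki] at hk; exact hk.2
    have := Finset.card_lt_card hlt
    omega
  -- the sets of zeros
  let sZ : Finset (Fin 3) → (Fin 3 → SignType) := fun Z i => if i ∈ Z then 0 else m i
  have hsZ : ∀ s ∈ K, s = sZ (Finset.univ.filter fun i => s i = 0) := by
    intro s hs
    funext i
    by_cases h : s i = 0
    · simp [sZ, h]
    · simp [sZ, h, hle s hs i h]
  have hsub_iff : ∀ Z Z' : Finset (Fin 3), (∀ i, sZ Z' i ≠ 0 → sZ Z i = sZ Z' i) ↔ Z ⊆ Z' := by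
    intro Z Z'
    constructor
    · intro h i hi
      by_contra hcon
      have h1 : sZ Z' i = m i := if_neg hcon
      have h2 := h i (by rw [h1]; exact hm0 i)
      have h3 : sZ Z i = 0 := if_pos hi
      rw [h1, h3] at h2
      exact hm0 i h2.symm
    · intro h i hi
      have h1 : i ∉ Z' := fun h' => hi (if_pos h')
      have h2 : i ∉ Z := fun h' => h1 (h h')
      show (if i ∈ Z then 0 else m i) = (if i ∈ Z' then 0 else m i)
      rw [if_neg h1, if_neg h2]
  obtain ⟨i, j, hij, hZs⟩ := chain3 {Z | sZ Z ∈ K}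
    (by
      intro A hA B hB
      rcases hch _ hA _ hB with h | h
      · left; exact (hsub_iff A B).1 h
      · right; exact (hsub_iff B A).1 h)
    (by
      intro A hA
      apply hmax
      intro s' hs'
      have hs2 := hsZ s' hs'
      rcases hA (Finset.univ.filter fun i => s' i = 0) (by
        show sZ _ ∈ K
        rw [← hs2]; exact hs') with h | h
      · left
        have := (hsub_iff _ _).2 h
        rwa [← hs2] at this
      · right
        have := (hsub_iff _ _).2 h
        rwa [← hs2] at this)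
  obtain ⟨σ, hσ1, hσ0⟩ := perm_exists i j hij
  have hσ2 : σ 2 ≠ i ∧ σ 2 ≠ j := by
    rw [← hσ1, ← hσ0]
    exact ⟨fun h => absurd (σ.injective h) (by decide), fun h => absurd (σ.injective h) (by decide)⟩
  refine ⟨σ, fun k => m (σ k), fun k => hm0 _, ?_⟩
  have hmm : ∀ k, m k * m k = 1 := by
    intro k
    have := hm0 k
    revert this
    generalize m k = c
    revert c
    decide
  let Tm : (Fin 3 → SignType) → (Fin 3 → SignType) := fun s k => m (σ k) * s (σ k)
  have hTinj : Function.Injective Tm := by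
    intro s s' h
    funext k
    have h1 := congrFun h (σ.symm k)
    simp only [Tm, Equiv.apply_symm_apply] at h1
    have h2 : m k * (m k * s k) = m k * (m k * s' k) := by rw [h1]
    rwa [← mul_assoc, ← mul_assoc, hmm, one_mul, one_mul] at h2
  have hT : ∀ Z, Tm (sZ Z) = fun k => if σ k ∈ Z then 0 else 1 := by
    intro Z
    funext k
    show m (σ k) * (if σ k ∈ Z then 0 else m (σ k)) = _
    by_cases h : σ k ∈ Z
    · simp [h]
    · simp [h, hmm]
  have t1 : Tm (sZ ∅) = ![1, 1, 1] := by
    rw [hT]; funext k; fin_cases k <;> simp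
  have t2 : Tm (sZ {i}) = ![1, 0, 1] := by
    rw [hT]; funext k; fin_cases k
    · simp [hσ0, hij.symm]
    · simp [hσ1]
    · simp [hσ2.1]
  have t3 : Tm (sZ {i, j}) = ![0, 0, 1] := by
    rw [hT]; funext k; fin_cases k
    · simp [hσ0]
    · simp [hσ1]
    · simp [hσ2.1, hσ2.2]
  have t4 : Tm (sZ Finset.univ) = ![0, 0, 0] := by
    rw [hT]; funext k; fin_cases k <;> simp
  intro s
  show s ∈ K ↔ Tm s ∈ _
  have hK : s ∈ K ↔ s = sZ ∅ ∨ s = sZ {i} ∨ s = sZ {i, j} ∨ s = sZ Finset.univ := by
    constructor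
    · intro hs
      have h1 := hsZ s hs
      have h2 : (Finset.univ.filter fun i => s i = 0) ∈ {Z | sZ Z ∈ K} := by
        show sZ _ ∈ K
        rw [← h1]; exact hs
      rcases (hZs _).1 h2 with h | h | h | h
      · rw [h] at h1; exact Or.inl h1
      · rw [h] at h1; exact Or.inr (Or.inl h1)
      · rw [h] at h1; exact Or.inr (Or.inr (Or.inl h1))
      · rw [h] at h1; exact Or.inr (Or.inr (Or.inr h1))
    · rintro (rfl | rfl | rfl | rfl)
      · exact (hZs _).2 (Or.inl rfl)
      · exact (hZs _).2 (Or.inr (Or.inl rfl))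
      · exact (hZs _).2 (Or.inr (Or.inr (Or.inl rfl)))
      · exact (hZs _).2 (Or.inr (Or.inr (Or.inr rfl)))
  rw [hK]
  simp only [Set.mem_insert_iff, Set.mem_singleton_iff]
  rw [← t1, ← t2, ← t3, ← t4, hTinj.eq_iff, hTinj.eq_iff, hTinj.eq_iff, hTinj.eq_iff]

end Pool.Agent.Q293.RT.JCMB
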