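import Pool.Agent.Q293.RT.Stm

namespace Pool.Agent.Q293.RT.JCOP
open Pool.Agent.Q293.RT
open Set

theorem main : S_COP_job := by
  intro dim fit T hT F P hlt hP hF
  have hsub : F.1 ⊆ P.1 := hlt.le
  rcases P.2 with h | h | ⟨Q, hQ, hPQ⟩
  · rw [h] at hsub
    obtain ⟨x, hx⟩ := hF
    exact (hsub hx).elim
  · exact absurd h hP
  · have h1 : IsFace (d := 3) Q F.1 := (fit T hT Q hQ F.1 F.2).1 (hsub.trans hPQ.2.1)
    have h2 : IsFace (d := 3) P.1 F.1 := ⟨h1.1, h1.2.mono hPQ.2.1 hsub⟩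
    have h3 := dim P.1 F.1 hPQ.1 h2 (fun h => hlt.ne (Subtype.ext h)) hF
    have h4 : Module.finrank ℝ (vectorSpan ℝ P.1) ≤ 3 := by
      calc _ ≤ Module.finrank ℝ E := Submodule.finrank_le _
        _ = 3 := by simp
    exact Nat.lt_succ_iff.1 (lt_of_lt_of_le h3 h4)

end Pool.Agent.Q293.RT.JCOP
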