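import Pool.Agent.Q293.RT.Bas

namespace Pool.Agent.Q293.RT.JCRE
open Pool.Agent.Q293.RT
open Set

theorem std (lfc : S_LFC) (til : S_TIL) (cti : S_CTI) (aug : S_AUG) (mov : S_MOV)
    (Φ : Flag (FaceLat (d := 3) Tl)) :
    ∃ G : FaceLat (d := 3) Tl ≃o FaceLat (d := 3) Tl, ∀ F, F ∈ Φ ↔ (G F).1 ∈ C0 := by
  obtain ⟨F, hF, v, hv, hFv⟩ := til Tl lfc Φ
  obtain ⟨γ, hγ, hγv⟩ := hv
  obtain ⟨G₁, g, hG₁, h1, -⟩ := aug γ.symm hγ.symm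
  have hcube : (G₁ F).1 = cube := by
    rw [hG₁, hFv, h1 v ⟨γ, hγ, hγv⟩, ← hγv, γ.symm_apply_apply]
    exact cti
  obtain ⟨G₂, hG₂⟩ := mov (Flag.map G₁ Φ) ⟨G₁ F, ⟨F, hF, rfl⟩, hcube⟩
  refine ⟨G₁.trans G₂, fun F' => ?_⟩
  rw [OrderIso.trans_apply, ← hG₂ (G₁ F')]
  constructor
  · intro h; exact ⟨F', h, rfl⟩
  · rintro ⟨F'', h, h'⟩
    rwa [← G₁.injective h']

theorem main : S_CRE_job := by
  intro lfc til cti aug mov Φ Ψ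
  obtain ⟨G, hG⟩ := std lfc til cti aug mov Φ
  obtain ⟨G', hG'⟩ := std lfc til cti aug mov Ψ
  refine ⟨G.trans G'.symm, fun F => ?_⟩
  rw [hG F, OrderIso.trans_apply, hG' (G'.symm (G F)), OrderIso.apply_symm_apply]

end Pool.Agent.Q293.RT.JCRE
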