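import Pool.Agent.Q293.RT.Stm

namespace Pool.Agent.Q293.RT.JCTI
open Pool.Agent.Q293.RT
open Set

theorem fut_vs : Fut vs := by
  have hp : (0:ℝ) < ph := Real.goldenRatio_pos
  refine ⟨one_pos, ?_⟩
  unfold B vs
  simp
  positivity

theorem B_vs (y : M) : B y vs = -(ph * y.1) := by
  unfold B vs
  simp

theorem ell_vs (x : E) : ell vs x = ph := by
  have hp : (0:ℝ) < ph := Real.goldenRatio_pos
  unfold ell vs
  simp only [PiLp.zero_apply, mul_zero, Finset.sum_const_zero, add_zero, mul_one]
  rw [sq, mul_div_assoc, div_self hp.ne', mul_one]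

theorem vs_mem : vs ∈ VV := ⟨LinearEquiv.refl ℝ M, IsSym.refl, rfl⟩

theorem nb (gs : S_GS) (gp : S_GP) (i : Fin 3) (c : SignType) (hc : c ≠ 0) :
    ∃ v ∈ VV, v.1 = ph ∧ ∀ j, v.2 j = if j = i then (c : ℝ) * ph else 0 := by
  obtain ⟨γ₁, h1, h1'⟩ := gp (Equiv.swap 0 i) (fun j => if j = i then c else 1)
    (by
      intro j
      by_cases hj : j = i
      · simp [hj, hc]
      · simp [hj])
  obtain ⟨γ₂, h2, h2'⟩ := gs
  obtain ⟨k0, k1, k2, k3⟩ := h2' vs
  have w0 : (γ₂ vs).1 = ph := by rw [k0]; simp [vs]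
  have w1 : (γ₂ vs).2 0 = ph := by rw [k1]; simp [vs]
  have w2 : (γ₂ vs).2 1 = 0 := by rw [k2]; simp [vs]
  have w3 : (γ₂ vs).2 2 = 0 := by rw [k3]; simp [vs]
  have w : ∀ j : Fin 3, j ≠ 0 → (γ₂ vs).2 j = 0 := by
    intro j hj
    fin_cases j
    · exact absurd rfl hj
    · exact w2
    · exact w3
  refine ⟨(γ₂.trans γ₁) vs, ⟨_, h2.trans h1, rfl⟩, ?_, ?_⟩
  · show (γ₁ (γ₂ vs)).1 = ph
    rw [(h1' _).1, w0]
  · intro j
    show (γ₁ (γ₂ vs)).2 j = _
    rw [(h1' _).2 j]
    by_cases hj : j = i
    · subst hj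
      simp only [if_true, Equiv.swap_apply_right]
      rw [w1]
    · simp only [hj, if_false]
      rw [w, mul_zero]
      intro h
      apply hj
      have := congrArg (Equiv.swap 0 i) h
      rw [Equiv.swap_apply_self, Equiv.swap_apply_left] at this
      exact this

theorem main : S_CTI_job := by
  intro f1 gs gp
  have hp : (1:ℝ) < ph := Real.one_lt_goldenRatio
  have hsq : ph ^ 2 = ph + 1 := Real.goldenRatio_sq
  apply Subset.antisymm
  · intro x hx i
    have key : ∀ c : SignType, c ≠ 0 → (c : ℝ) * x i ≤ 1 := by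
      intro c hc
      obtain ⟨v, hv, hv1, hv2⟩ := nb gs gp i c hc
      have := hx v hv
      rw [ell_vs] at this
      unfold ell at this
      have hs : ∑ j, x j * v.2 j = x i * ((c : ℝ) * ph) := by
        simp only [hv2, mul_ite, mul_zero]
        rw [Finset.sum_ite_eq' Finset.univ i]
        simp
      rw [hs, hv1, div_le_iff₀ (by positivity)] at this
      have h3 : ph * (x i * (c : ℝ)) ≤ ph * 1 := by
        have e1 : ph * (ph * ph) = ph ^ 2 + ph * 1 := by
          have : ph * (ph * ph) = ph * ph ^ 2 := by ring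
          rw [this, hsq]
          have : ph * (ph + 1) = ph ^ 2 + ph := by ring
          rw [this, hsq]; ring
        linarith
      have := le_of_mul_le_mul_left h3 (by linarith)
      linarith
    rw [abs_le]
    have h1 := key 1 (by decide)
    have h2 := key (-1) (by decide)
    simp only [SignType.coe_one, SignType.coe_neg_one] at h1 h2
    constructor <;> linarith
  · rintro x hx v ⟨γ, hγ, rfl⟩
    rw [ell_vs]
    set v : M := γ vs with hv
    have hv0 : 0 < v.1 := (hγ.1.fut _ fut_vs).1
    -- the vertex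
    set e : Fin 3 → ℤ := fun j => if 0 ≤ v.2 j then 1 else -1 with he
    have he1 : ∀ j, e j = 1 ∨ e j = -1 := by
      intro j
      by_cases h : 0 ≤ v.2 j
      · left; simp [he, h]
      · right; simp [he, h]
    have he2 : ∀ j, (e j : ℝ) * v.2 j = |v.2 j| := by
      intro j
      by_cases h : 0 ≤ v.2 j
      · simp only [he, h, if_true, abs_of_nonneg h]; simp
      · simp only [he, h, if_false]; push Not at h; rw [abs_of_neg h]; simp
    have hee : ∀ j, (e j : ℝ) * (e j : ℝ) = 1 := by
      intro j; rcases he1 j with h | h <;> rw [h] <;> norm_num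
    let w : M := (ph, WithLp.toLp 2 fun j => (e j : ℝ))
    have hwB : B w w ≤ 0 := by
      show -(ph * ph * ph) + ∑ j, (e j : ℝ) * (e j : ℝ) ≤ 0
      simp only [hee]
      simp only [Finset.sum_const, Finset.card_univ, Fintype.card_fin]
      have : ph * ph * ph = 2 * ph + 1 := by
        have : ph * ph * ph = ph * ph ^ 2 := by ring
        rw [this, hsq]
        have : ph * (ph + 1) = ph ^ 2 + ph := by ring
        rw [this, hsq]; ring
      rw [this]
      norm_num
      linarith
    have hwF : Fut w := ⟨by show 0 < ph; linarith, hwB⟩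
    have hwP : PW w := by
      refine ⟨0, 1, e, 0, ⟨?_, ?_⟩, ?_, ?_, ?_, ?_⟩
      · show ph = ((0 : ℤ) : ℝ) + ((1 : ℤ) : ℝ) * ph
        push_cast; ring
      · intro j
        show (e j : ℝ) = (e j : ℝ) + ((0 : ℤ) : ℝ) * ph
        push_cast; ring
      · unfold cform
        have hps : ps ^ 2 = ps + 1 := Real.goldenConj_sq
        have h3 : ∑ i, ((e i : ℝ) + ((0 : Fin 3 → ℤ) i : ℤ) * ps) ^ 2 = 3 := by
          have : ∀ i, ((e i : ℝ) + ((0 : Fin 3 → ℤ) i : ℤ) * ps) ^ 2 = 1 := by
            intro i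
            simp only [Pi.zero_apply, Int.cast_zero, zero_mul, add_zero]
            rw [sq]; exact hee i
          simp only [this]
          simp
        rw [h3]
        push_cast
        have : ps * (0 + 1 * ps) ^ 2 = 2 * ps + 1 := by
          have : ps * (0 + 1 * ps) ^ 2 = ps * ps ^ 2 := by ring
          rw [this, hps]
          have : ps * (ps + 1) = ps ^ 2 + ps := by ring
          rw [this, hps]; ring
        rw [this]; ring
      · exact ⟨0, rfl⟩
      · exact ⟨0, rfl⟩
      · intro j
        refine ⟨?_, ⟨0, rfl⟩⟩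
        rcases he1 j with h | h <;> rw [h] <;> decide
    have h1 : ph ≤ (γ.symm w).1 := f1 _ (hγ.symm.1.fut _ hwF) (hγ.symm.1.pw _ hwP)
    have h2 : B w v ≤ - ph ^ 2 := by
      have : B w v = B (γ.symm w) vs := by
        rw [hv, ← hγ.1.form (γ.symm w) vs, LinearEquiv.apply_symm_apply]
      rw [this, B_vs]
      nlinarith
    have h3 : -(ph * ph * v.1) + ∑ j, |v.2 j| ≤ - ph ^ 2 := by
      have : B w v = -(ph * ph * v.1) + ∑ j, |v.2 j| := by
        show -(ph * ph * v.1) + ∑ j, (e j : ℝ) * v.2 j = _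
        simp only [he2]
      rwa [← this]
    have h4 : ∑ j, x j * v.2 j ≤ ∑ j, |v.2 j| := by
      apply Finset.sum_le_sum
      intro j _
      calc x j * v.2 j ≤ |x j * v.2 j| := le_abs_self _
        _ = |x j| * |v.2 j| := abs_mul _ _
        _ ≤ 1 * |v.2 j| := mul_le_mul_of_nonneg_right (hx j) (abs_nonneg _)
        _ = |v.2 j| := one_mul _
    unfold ell
    rw [div_le_iff₀ (by positivity)]
    have : ph * (ph * v.1) = ph * ph * v.1 := by ring
    linarith

end Pool.Agent.Q293.RT.JCTI
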