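import Pool.Agent.Q293.RT.Stm

namespace Pool.Agent.Q293.RT.JCUF
open Pool.Agent.Q293.RT
open Set

theorem abs_sign (s : SignType) : |(s : ℝ)| ≤ 1 := by cases s <;> simp

theorem extreme_coord {a b x y : ℝ} {c : SignType} (hc : c ≠ 0) (ha : 0 < a) (hb : 0 < b)
    (hab : a + b = 1) (hx : |x| ≤ 1) (hy : |y| ≤ 1) (h : a * x + b * y = (c : ℝ)) : x = c := by
  rw [abs_le] at hx hy
  cases c
  · exact absurd rfl hc
  · -- -1
    simp at h ⊢
    apply le_antisymm _ hx.1
    by_contra hcon
    push Not at hcon
    nlinarith [mul_le_mul_of_nonneg_left hy.1 hb.le]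
  · simp at h ⊢
    apply le_antisymm hx.2
    by_contra hcon
    push Not at hcon
    nlinarith [mul_le_mul_of_nonneg_left hy.2 hb.le]

theorem isFace_cface (s : Fin 3 → SignType) : IsFace (d := 3) cube (cface s) := by
  refine ⟨?_, fun x hx => hx.1, ?_⟩
  · intro x hx y hy a b ha hb hab
    refine ⟨fun i => ?_, fun i hi => ?_⟩
    · show |a * x i + b * y i| ≤ 1
      calc |a * x i + b * y i| ≤ |a * x i| + |b * y i| := abs_add_le _ _
        _ = a * |x i| + b * |y i| := by rw [abs_mul, abs_mul, abs_of_nonneg ha, abs_of_nonneg hb]
        _ ≤ a * 1 + b * 1 := add_le_add (mul_le_mul_of_nonneg_left (hx.1 i) ha)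
            (mul_le_mul_of_nonneg_left (hy.1 i) hb)
        _ = 1 := by rw [mul_one, mul_one, hab]
    · show a * x i + b * y i = (s i : ℝ)
      rw [hx.2 i hi, hy.2 i hi, ← add_mul, hab, one_mul]
  · rintro x hx y hy z hz ⟨a, b, ha, hb, hab, rfl⟩
    refine ⟨hx, fun i hi => ?_⟩
    exact extreme_coord hi ha hb hab (hx i) (hy i) (hz.2 i hi)

theorem main : S_CUF := by
  intro F
  constructor
  · intro hF
    by_cases hne : F = ∅
    · left; exact hne
    · right
      obtain ⟨hc, hsub, hext⟩ := hF
      obtain ⟨x₀, hx₀⟩ := Set.nonempty_iff_ne_empty.2 hne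
      classical
      let s : Fin 3 → SignType := fun i =>
        if ∀ x ∈ F, x i = 1 then 1 else if ∀ x ∈ F, x i = -1 then -1 else 0
      have hs : ∀ i, s i ≠ 0 → ∀ x ∈ F, x i = (s i : ℝ) := by
        intro i hi x hx
        by_cases h1 : ∀ x ∈ F, x i = 1
        · have : s i = 1 := if_pos h1
          rw [this, h1 x hx]; simp
        · by_cases h2 : ∀ x ∈ F, x i = -1
          · have : s i = -1 := by
              show (if ∀ x ∈ F, x i = 1 then (1 : SignType) else
                if ∀ x ∈ F, x i = -1 then -1 else 0) = -1
              rw [if_neg h1, if_pos h2]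
            rw [this, h2 x hx]; simp
          · exfalso
            apply hi
            show (if ∀ x ∈ F, x i = 1 then (1 : SignType) else
                if ∀ x ∈ F, x i = -1 then -1 else 0) = 0
            rw [if_neg h1, if_neg h2]
      have hpt : ∀ i, ∃ x ∈ F, s i = 0 → |x i| < 1 := by
        intro i
        by_cases h1 : ∀ x ∈ F, x i = 1
        · refine ⟨x₀, hx₀, fun h => ?_⟩
          have : s i = 1 := if_pos h1
          rw [this] at h; exact absurd h (by decide)
        · by_cases h2 : ∀ x ∈ F, x i = -1
          · refine ⟨x₀, hx₀, fun h => ?_⟩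
            have : s i = -1 := by
              show (if ∀ x ∈ F, x i = 1 then (1 : SignType) else
                if ∀ x ∈ F, x i = -1 then -1 else 0) = -1
              rw [if_neg h1, if_pos h2]
            rw [this] at h; exact absurd h (by decide)
          · push Not at h1 h2
            obtain ⟨y, hy, hy1⟩ := h1
            obtain ⟨z, hz, hz1⟩ := h2
            have hyc := abs_le.1 (hsub hy i)
            have hzc := abs_le.1 (hsub hz i)
            have hylt : y i < 1 := lt_of_le_of_ne hyc.2 hy1
            have hzlt : -1 < z i := lt_of_le_of_ne hzc.1 (Ne.symm hz1)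
            refine ⟨(1/2 : ℝ) • y + (1/2 : ℝ) • z, hc hy hz (by norm_num) (by norm_num)
              (by norm_num), fun _ => ?_⟩
            show |(1/2 : ℝ) * y i + (1/2 : ℝ) * z i| < 1
            rw [abs_lt]
            constructor <;> linarith
      choose p hpF hp using hpt
      -- the average
      set x : E := (1/3 : ℝ) • p 0 + (2/3 : ℝ) • ((1/2 : ℝ) • p 1 + (1/2 : ℝ) • p 2) with hxdef
      have hxF : x ∈ F := hc (hpF 0) (hc (hpF 1) (hpF 2) (by norm_num) (by norm_num) (by norm_num))
        (by norm_num) (by norm_num) (by norm_num)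
      have hxi : ∀ i, s i = 0 → |x i| < 1 := by
        intro i hi
        have hx' : x i = (1/3 : ℝ) * p 0 i + (2/3 : ℝ) * ((1/2 : ℝ) * p 1 i + (1/2 : ℝ) * p 2 i) :=
          rfl
        have q0 := abs_le.1 (hsub (hpF 0) i)
        have q1 := abs_le.1 (hsub (hpF 1) i)
        have q2 := abs_le.1 (hsub (hpF 2) i)
        rw [hx', abs_lt]
        fin_cases i
        · have := abs_lt.1 (hp 0 hi)
          constructor <;> simp at * <;> linarith
        · have := abs_lt.1 (hp 1 hi)
          constructor <;> simp at * <;> linarith
        · have := abs_lt.1 (hp 2 hi)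
          constructor <;> simp at * <;> linarith
      refine ⟨s, Subset.antisymm ?_ ?_⟩
      · intro y hy
        exact ⟨hsub hy, fun i hi => hs i hi y hy⟩
      · intro q hq
        have hqc : q ∈ cube := hq.1
        -- q' = x + t (x - q)
        have hev : ∀ᶠ t : ℝ in nhdsWithin 0 (Set.Ioi 0), ∀ i, |(x + t • (x - q)) i| ≤ 1 := by
          rw [Filter.eventually_all]
          intro i
          by_cases hi : s i = 0
          · have hcont : Continuous fun t : ℝ => |(x + t • (x - q)) i| := by
              have : (fun t : ℝ => |(x + t • (x - q)) i|) = fun t : ℝ => |x i + t * (x i - q i)| := rfl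
              rw [this]
              fun_prop
            have : ∀ᶠ t : ℝ in nhds 0, |(x + t • (x - q)) i| < 1 := by
              apply hcont.continuousAt.eventually (p := fun r => r < 1)
              apply isOpen_Iio.mem_nhds
              show |(x + (0:ℝ) • (x - q)) i| < 1
              rw [zero_smul, add_zero]
              exact hxi i hi
            exact (this.filter_mono nhdsWithin_le_nhds).mono fun t ht => ht.le
          · apply Filter.Eventually.of_forall
            intro t
            show |x i + t * (x i - q i)| ≤ 1
            rw [hs i hi x hxF, hq.2 i hi, sub_self, mul_zero, add_zero]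
            exact abs_sign _
        obtain ⟨t, ht, htpos⟩ := (hev.and self_mem_nhdsWithin).exists
        have htp : (0:ℝ) < t := htpos
        have h1 : (1 + t) ≠ 0 := by positivity
        refine hext hqc ht hxF ⟨t / (1 + t), 1 / (1 + t), by positivity, by positivity, ?_, ?_⟩
        · field_simp
          ring
        · ext i
          show t / (1 + t) * q i + 1 / (1 + t) * (x i + t * (x i - q i)) = x i
          field_simp
          ring
  · rintro (rfl | ⟨s, rfl⟩)
    · exact ⟨convex_empty, empty_subset _, fun x _ y _ z hz => hz.elim⟩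
    · exact isFace_cface s

end Pool.Agent.Q293.RT.JCUF
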