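import Pool.Agent.Q293.RT.Stm

namespace Pool.Agent.Q293.RT.JDIM
open Pool.Agent.Q293.RT
open Set

theorem main : S_DIM := by
  intro P F hP hF hne hnon
  have hsub : F ⊆ P := hF.2.1
  have hle : vectorSpan ℝ F ≤ vectorSpan ℝ P := vectorSpan_mono ℝ hsub
  have hfin := Submodule.finrank_mono hle
  rcases hfin.lt_or_eq with h | h
  · exact h
  · exfalso
    have heq : vectorSpan ℝ F = vectorSpan ℝ P := Submodule.eq_of_le_of_finrank_eq hle h
    obtain ⟨x, hx⟩ := Set.Nonempty.intrinsicInterior hF.1 hnon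
    rw [mem_intrinsicInterior] at hx
    obtain ⟨x', hx', rfl⟩ := hx
    have hxF : (x' : E) ∈ F := interior_subset (s := ((↑) ⁻¹' F : Set (affineSpan ℝ F))) hx'
    apply hne
    apply Subset.antisymm hsub
    intro y hy
    have hyv : (x' : E) - y ∈ vectorSpan ℝ F := by
      rw [heq]
      exact vsub_mem_vectorSpan ℝ (hsub hxF) hy
    have hmem : ∀ t : ℝ, (x' : E) + t • ((x' : E) - y) ∈ affineSpan ℝ F := by
      intro t
      have := AffineSubspace.vadd_mem_of_mem_direction (s := affineSpan ℝ F)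
        (v := t • ((x' : E) - y)) (by
          rw [direction_affineSpan]; exact Submodule.smul_mem _ _ hyv) x'.2
      rwa [vadd_eq_add, add_comm] at this
    let c : ℝ → affineSpan ℝ F := fun t => ⟨(x' : E) + t • ((x' : E) - y), hmem t⟩
    have hc : Continuous c := by
      apply Continuous.subtype_mk
      fun_prop
    have hc0 : c 0 = x' := by
      apply Subtype.ext
      show (x' : E) + (0:ℝ) • ((x' : E) - y) = x'
      simp
    have hnb : ∀ᶠ t : ℝ in nhds 0, c t ∈ interior ((↑) ⁻¹' F : Set (affineSpan ℝ F)) := by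
      apply hc.continuousAt.eventually
      rw [hc0]
      exact isOpen_interior.mem_nhds hx'
    have hnb2 : ∀ᶠ t : ℝ in nhdsWithin 0 (Set.Ioi 0),
        c t ∈ interior ((↑) ⁻¹' F : Set (affineSpan ℝ F)) := hnb.filter_mono nhdsWithin_le_nhds
    obtain ⟨t, ht, htpos⟩ := (hnb2.and self_mem_nhdsWithin).exists
    have htp : (0:ℝ) < t := htpos
    have hz : (x' : E) + t • ((x' : E) - y) ∈ F :=
      interior_subset (s := ((↑) ⁻¹' F : Set (affineSpan ℝ F))) ht
    refine hF.2.2 hy (hsub hz) hxF ⟨t / (1 + t), 1 / (1 + t), by positivity, by positivity, ?_, ?_⟩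
    · field_simp
      ring
    · have h1 : (1 + t) ≠ 0 := by positivity
      rw [smul_add, smul_smul, smul_sub]
      have e1 : (1 / (1 + t)) * t = t / (1 + t) := by ring
      rw [e1]
      have e2 : (x' : E) = (1 / (1 + t)) • (x' : E) + (t / (1 + t)) • (x' : E) := by
        rw [← add_smul, ← add_div, div_self h1, one_smul]
      nth_rewrite 3 [e2]
      abel

end Pool.Agent.Q293.RT.JDIM
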