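import Pool.Agent.Q293.RT.Stm

namespace Pool.Agent.Q293.RT.JF1
open Pool.Agent.Q293.RT
open Set

theorem main : S_F1 := by
  intro w hw hP
  obtain ⟨a₀, b₀, a, b, ⟨h0, -⟩, hf, hE, hO, -⟩ := hP
  have hw0 : 0 < w.1 := hw.1
  rw [h0] at hw0 ⊢
  have s5 : √5 ^ 2 = 5 := Real.sq_sqrt (by norm_num)
  have s5p : (2.236 : ℝ) < √5 := by
    rw [show (2.236 : ℝ) = √(2.236 ^ 2) from (Real.sqrt_sq (by norm_num)).symm]
    exact Real.sqrt_lt_sqrt (by norm_num) (by norm_num)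
  have s5q : √5 < (2.237 : ℝ) := by
    rw [show (2.237 : ℝ) = √(2.237 ^ 2) from (Real.sqrt_sq (by norm_num)).symm]
    exact Real.sqrt_lt_sqrt (by norm_num) (by norm_num)
  have hph : ph = (1 + √5) / 2 := rfl
  have hps : ps = (1 - √5) / 2 := rfl
  -- bound on the conjugate
  set c : ℝ := (a₀ : ℝ) + b₀ * ps with hc
  have hc1 : -(ps * c ^ 2) ≤ 2 - 2 * ps := by
    rw [← hf]
    unfold cform
    have : (0:ℝ) ≤ ∑ i, ((a i : ℝ) + b i * ps) ^ 2 := Finset.sum_nonneg fun i _ => sq_nonneg _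
    linarith
  have hc2 : c ^ 2 < 2.3 ^ 2 := by
    rw [hps] at hc1
    nlinarith [sq_nonneg c]
  have hc3 : |c| < 2.3 := by
    rw [← abs_of_pos (show (0:ℝ) < 2.3 by norm_num)]
    exact sq_lt_sq.1 hc2
  obtain ⟨hc4, hc5⟩ := abs_lt.1 hc3
  have hdiff : ((a₀ : ℝ) + b₀ * ph) - c = b₀ * √5 := by
    rw [hc, hph, hps]; ring
  by_contra hlt
  push Not at hlt
  have hb1 : (b₀ : ℝ) < 2 := by
    by_contra hcon
    push Not at hcon
    have : 2 * √5 ≤ b₀ * √5 := by nlinarith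
    rw [← hdiff] at this
    rw [hph] at hlt
    rw [hph] at this
    linarith
  have hb2 : (-2 : ℝ) < b₀ := by
    by_contra hcon
    push Not at hcon
    have : (b₀ : ℝ) * √5 ≤ -2 * √5 := by nlinarith
    rw [← hdiff] at this
    linarith
  have hb1' : b₀ < 2 := by exact_mod_cast hb1
  have hb2' : -2 < b₀ := by exact_mod_cast hb2
  have hb : b₀ = -1 ∨ b₀ = 1 := by
    obtain ⟨k, hk⟩ := hO
    omega
  rcases hb with hb | hb
  · subst hb
    have ha : (1:ℝ) < a₀ := by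
      rw [hph] at hw0; push_cast at hw0; linarith
    have ha' : 1 < a₀ := by exact_mod_cast ha
    have ha2 : 2 ≤ a₀ := by omega
    have ha3 : (2:ℝ) ≤ a₀ := by exact_mod_cast ha2
    rw [hc, hps] at hc5
    push_cast at hc5
    linarith
  · subst hb
    have ha : (-2:ℝ) < a₀ := by
      rw [hph] at hw0; push_cast at hw0; linarith
    have ha' : -2 < a₀ := by exact_mod_cast ha
    obtain ⟨k, hk⟩ := hE
    have ha2 : 0 ≤ a₀ := by omega
    have ha3 : (0:ℝ) ≤ a₀ := by exact_mod_cast ha2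
    push_cast at hlt
    linarith

end Pool.Agent.Q293.RT.JF1
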