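import Pool.Agent.Q293.RT.Stm

namespace Pool.Agent.Q293.RT.JF2
open Pool.Agent.Q293.RT
open Set

theorem step (gs : S_GS) (gp : S_GP) (y : M) (h0 : 0 < y.1) (hB : B y y = 0) :
    ∃ γ : M ≃ₗ[ℝ] M, IsSym γ ∧ (γ y).1 ≤ 0.9 * y.1 ∧ 0 < (γ y).1 ∧ B (γ y) (γ y) = 0 := by
  have hph : ph = (1 + √5) / 2 := rfl
  have s5p : (2.2 : ℝ) < √5 := by
    rw [show (2.2 : ℝ) = √(2.2 ^ 2) from (Real.sqrt_sq (by norm_num)).symm]
    exact Real.sqrt_lt_sqrt (by norm_num) (by norm_num)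
  have s5q : √5 < (2.24 : ℝ) := by
    rw [show (2.24 : ℝ) = √(2.24 ^ 2) from (Real.sqrt_sq (by norm_num)).symm]
    exact Real.sqrt_lt_sqrt (by norm_num) (by norm_num)
  have hph1 : (1.6 : ℝ) < ph := by rw [hph]; linarith
  have hph2 : ph < (1.62 : ℝ) := by rw [hph]; linarith
  obtain ⟨i, hi⟩ := Finite.exists_max (fun i : Fin 3 => (y.2 i) ^ 2)
  have hsum : ∑ j, y.2 j * y.2 j = ph * y.1 * y.1 := by
    unfold B at hB; linarith
  have hle : ph * y.1 * y.1 ≤ 3 * (y.2 i) ^ 2 := by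
    rw [← hsum, Fin.sum_univ_three]
    have a0 := hi 0
    have a1 := hi 1
    have a2 := hi 2
    simp only at a0 a1 a2
    nlinarith
  have hyy : 0 < y.1 * y.1 := by positivity
  have hge : (0.72 * y.1) ^ 2 ≤ (y.2 i) ^ 2 := by nlinarith
  have habs : 0.72 * y.1 ≤ |y.2 i| := by
    have := sq_le_sq.1 hge
    rwa [abs_of_pos (by positivity)] at this
  have hne : y.2 i ≠ 0 := by
    intro h
    rw [h, abs_zero] at habs
    nlinarith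
  obtain ⟨γ₁, h1, h1'⟩ := gp (Equiv.swap 0 i) (fun j => if j = 0 then SignType.sign (y.2 i) else 1)
    (by
      intro j
      by_cases hj : j = 0
      · simp [hj, hne]
      · simp [hj])
  obtain ⟨γ₂, h2, h2'⟩ := gs
  refine ⟨γ₁.trans γ₂, h1.trans h2, ?_⟩
  have hFut : Fut ((γ₁.trans γ₂) y) := (h1.trans h2).1.fut y ⟨h0, hB.le⟩
  have e0 : (γ₁ y).2 0 = |y.2 i| := by
    rw [(h1' y).2 0]
    simp only [if_true, Equiv.swap_apply_left]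
    exact sign_mul_self _
  refine ⟨?_, hFut.1, ?_⟩
  · show (γ₂ (γ₁ y)).1 ≤ 0.9 * y.1
    rw [(h2' (γ₁ y)).1, (h1' y).1, e0]
    nlinarith
  · rw [(h1.trans h2).1.form]; exact hB

theorem main : S_F2_job := by
  intro gs gp y h0 hB ε hε
  have key : ∀ n : ℕ, ∃ γ : M ≃ₗ[ℝ] M, IsSym γ ∧ (γ y).1 ≤ 0.9 ^ n * y.1 ∧ 0 < (γ y).1 ∧
      B (γ y) (γ y) = 0 := by
    intro n
    induction n with
    | zero => exact ⟨LinearEquiv.refl ℝ M, IsSym.refl, by simp, h0, hB⟩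
    | succ n ih =>
      obtain ⟨γ, hγ, h1, h2, h3⟩ := ih
      obtain ⟨δ, hδ, k1, k2, k3⟩ := step gs gp (γ y) h2 h3
      refine ⟨γ.trans δ, hγ.trans hδ, ?_, k2, k3⟩
      show (δ (γ y)).1 ≤ _
      calc (δ (γ y)).1 ≤ 0.9 * (γ y).1 := k1
        _ ≤ 0.9 * (0.9 ^ n * y.1) := by linarith
        _ = 0.9 ^ (n + 1) * y.1 := by ring
  obtain ⟨n, hn⟩ := exists_pow_lt_of_lt_one (div_pos hε h0) (show (0.9 : ℝ) < 1 by norm_num)
  obtain ⟨γ, hγ, h1, -, -⟩ := key n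
  refine ⟨γ, hγ, h1.trans_lt ?_⟩
  rwa [lt_div_iff₀ h0] at hn

end Pool.Agent.Q293.RT.JF2
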