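import Pool.Agent.Q293.RT.Stm

namespace Pool.Agent.Q293.RT.JFIT
open Pool.Agent.Q293.RT
open Set

theorem convex_tile {T : Set (Set E)} (hT : IsLFCTiling (d := 3) T) {P : Set E} (hP : P ∈ T) :
    Convex ℝ P := by
  obtain ⟨s, rfl⟩ := hT.polytope P hP
  exact convex_convexHull ℝ _

theorem main : S_FIT := by
  intro T hT P hP F hF
  refine ⟨fun hFP => ?_, fun hPF => ?_⟩
  · rcases hF with rfl | rfl | ⟨Q, hQ, hc, hext⟩
    · exact ⟨convex_empty, empty_subset _, fun x _ y _ z hz => hz.elim⟩
    · have : P = univ := Set.eq_univ_of_univ_subset hFP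
      subst this
      exact ⟨convex_univ, IsExtreme.refl _ _⟩
    · refine ⟨hc, ?_⟩
      have h1 : IsExtreme ℝ (Q ∩ P) F :=
        hext.mono Set.inter_subset_left (Set.subset_inter hext.subset hFP)
      have h2 : IsExtreme ℝ P (Q ∩ P) := (hT.face_to_face Q hQ P hP).2.2
      exact h2.trans h1
  · rcases hF with rfl | rfl | ⟨Q, hQ, hc, hext⟩
    · exfalso
      obtain ⟨x, hx⟩ := hT.solid P hP
      exact hPF (interior_subset hx)
    · right; rfl
    · left
      by_cases h : P = Q
      · subst h
        exact Subset.antisymm hext.subset hPF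
      · exfalso
        obtain ⟨x, hx⟩ := hT.solid P hP
        have h1 : P ⊆ Q := hPF.trans hext.subset
        exact Set.disjoint_left.1 (hT.disjoint P hP Q hQ h) hx (interior_mono h1 hx)

end Pool.Agent.Q293.RT.JFIT
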