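import Pool.Agent.Q293.RT.Stm

namespace Pool.Agent.Q293.RT.JFIX
open Pool.Agent.Q293.RT
open Set

theorem not_lt {X : Type} [PartialOrder X] (α : X ≃o X) (x : X) (hfin : (Set.Iic x).Finite) :
    ¬ α x < x := by
  intro hlt
  have hanti : StrictAnti fun n : ℕ => (α ^ n) x := by
    apply strictAnti_nat_of_succ_lt
    intro n
    show (α ^ (n + 1)) x < (α ^ n) x
    rw [pow_succ]
    show (α ^ n) (α x) < (α ^ n) x
    exact (α ^ n).lt_iff_lt.2 hlt
  have hmem : ∀ n : ℕ, (α ^ n) x ∈ Set.Iic x := by
    intro n
    have := hanti.antitone (Nat.zero_le n)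
    simpa using this
  exact (Set.infinite_of_injective_forall_mem hanti.injective hmem) hfin

theorem main : S_FIX := by
  intro X _ C hC α hα x hx hfin
  rcases hC.total hx ((hα x).1 hx) with h | h
  · -- x ≤ α x
    rcases h.lt_or_eq with h | h
    · exfalso
      have h2 : α.symm x < x := by
        have := α.symm.lt_iff_lt.2 h
        rwa [α.symm_apply_apply] at this
      exact not_lt α.symm x hfin h2
    · exact h.symm
  · rcases h.lt_or_eq with h | h
    · exact absurd h (not_lt α x hfin)
    · exact h

end Pool.Agent.Q293.RT.JFIX
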