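import Pool.Agent.Q293.RT.Stm

namespace Pool.Agent.Q293.RT.JFNB
open Pool.Agent.Q293.RT
open Set

theorem faces_finite (pol : S_POL) {T : Set (Set E)} (hT : IsLFCTiling (d := 3) T) {P : Set E}
    (hP : P ∈ T) : {G : Set E | IsFace (d := 3) P G}.Finite := by
  obtain ⟨s, rfl⟩ := hT.polytope P hP
  have hfin : {t : Set E | t ⊆ (s : Set E)}.Finite := s.finite_toSet.finite_subsets
  refine (hfin.image fun t : Set E => convexHull ℝ t).subset ?_
  intro G hG
  exact ⟨(s : Set E) ∩ G, Set.inter_subset_left, (pol s G hG).symm⟩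

theorem tile_ne_univ {T : Set (Set E)} (hT : IsLFCTiling (d := 3) T) {P : Set E}
    (hP : P ∈ T) : P ≠ univ := by
  obtain ⟨s, rfl⟩ := hT.polytope P hP
  intro h
  have hc : IsCompact (convexHull ℝ (s : Set E)) := Set.Finite.isCompact_convexHull ℝ s.finite_toSet
  rw [h] at hc
  exact noncompact_univ E hc

theorem main : S_FNB_job := by
  intro pol fit T hT
  refine ⟨?_, ?_, fun P hP => tile_ne_univ hT hP⟩
  · intro F hF
    rcases F.2 with h | h | ⟨P, hP, hFP⟩
    · have : {G : FaceLat (d := 3) T | G ≤ F} ⊆ {F} := by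
        intro G hG
        have h1 : G.1 ⊆ F.1 := hG
        rw [h] at h1
        apply Subtype.ext
        rw [h]
        exact Set.subset_empty_iff.1 h1
      exact (Set.finite_singleton F).subset this
    · exact absurd h hF
    · have h1 : ({G : Set E | IsFace (d := 3) P G}).Finite := faces_finite pol hT hP
      refine (h1.preimage (f := fun G : FaceLat (d := 3) T => G.1)
        Subtype.val_injective.injOn).subset ?_
      intro G hG
      exact (fit T hT P hP G.1 G.2).1 ((show G.1 ⊆ F.1 from hG).trans hFP.2.1)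
  · intro F hF
    obtain ⟨x, hx⟩ := hF
    have h1 := hT.locally_finite x 1
    have h2 : (⋃ P ∈ {P | P ∈ T ∧ (P ∩ Metric.closedBall x 1).Nonempty},
        {G : Set E | IsFace (d := 3) P G}).Finite :=
      h1.biUnion fun P hP => faces_finite pol hT hP.1
    refine (h2.preimage (f := fun G : FaceLat (d := 3) T => G.1)
        Subtype.val_injective.injOn).subset ?_
    rintro G ⟨hFG, hG⟩
    have hxG : x ∈ G.1 := (show F.1 ⊆ G.1 from hFG) hx
    rcases G.2 with h | h | ⟨P, hP, hGP⟩
    · rw [h] at hxG; exact hxG.elim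
    · exact absurd h hG
    · exact Set.mem_iUnion₂.2 ⟨P, ⟨hP, x, hGP.2.1 hxG, Metric.mem_closedBall_self zero_le_one⟩, hGP⟩

end Pool.Agent.Q293.RT.JFNB
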