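import Pool.Agent.Q293.RT.Stm

namespace Pool.Agent.Q293.RT.JFVE
open Pool.Agent.Q293.RT
open Set Module

/-- Two vectors of the same length orthogonal to two orthogonal nonzero vectors of `E` are equal or
opposite. -/
theorem pm {u n v w : E} (hu : u ≠ 0) (hn : n ≠ 0) (hun : inner ℝ u n = 0) (huv : inner ℝ u v = 0)
    (huw : inner ℝ u w = 0) (hnv : inner ℝ n v = 0) (hnw : inner ℝ n w = 0) (hvw : ‖v‖ = ‖w‖) :
    w = v ∨ w = -v := by
  by_cases hv0 : v = 0
  · left
    rw [hv0, norm_zero] at hvw
    rw [hv0]; exact norm_eq_zero.1 hvw.symm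
  have hdep : ¬ LinearIndependent ℝ ![u, n, v, w] := by
    intro h
    have := h.fintype_card_le_finrank
    simp at this
  rw [Fintype.not_linearIndependent_iff] at hdep
  obtain ⟨g, hg, i, hi⟩ := hdep
  have hsum : g 0 • u + g 1 • n + g 2 • v + g 3 • w = 0 := by
    simpa [Fin.sum_univ_four] using hg
  have huu : inner ℝ u u ≠ (0:ℝ) := by rw [inner_self_ne_zero]; exact hu
  have hnn : inner ℝ n n ≠ (0:ℝ) := by rw [inner_self_ne_zero]; exact hn
  have hg0 : g 0 = 0 := by
    have h1 : inner ℝ u (g 0 • u + g 1 • n + g 2 • v + g 3 • w) = 0 := by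
      rw [hsum, inner_zero_right]
    rw [inner_add_right, inner_add_right, inner_add_right, real_inner_smul_right,
      real_inner_smul_right, real_inner_smul_right, real_inner_smul_right, hun, huv, huw, mul_zero,
      mul_zero, mul_zero, add_zero, add_zero, add_zero] at h1
    exact (mul_eq_zero.1 h1).resolve_right huu
  have hg1 : g 1 = 0 := by
    have h1 : inner ℝ n (g 0 • u + g 1 • n + g 2 • v + g 3 • w) = 0 := by
      rw [hsum, inner_zero_right]
    rw [inner_add_right, inner_add_right, inner_add_right, real_inner_smul_right,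
      real_inner_smul_right, real_inner_smul_right, real_inner_smul_right, real_inner_comm, hun,
      hnv, hnw, mul_zero, mul_zero, mul_zero, add_zero, add_zero, zero_add] at h1
    exact (mul_eq_zero.1 h1).resolve_right hnn
  rw [hg0, hg1, zero_smul, zero_smul, zero_add, zero_add] at hsum
  have h2 : g 3 ≠ 0 := by
    intro h2
    rw [h2, zero_smul, add_zero] at hsum
    have h1 : g 2 = 0 := (smul_eq_zero.1 hsum).resolve_right hv0
    fin_cases i
    · exact hi hg0
    · exact hi hg1
    · exact hi h1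
    · exact hi h2
  have hwv : w = (-(g 2) / g 3) • v := by
    have : g 3 • w = -(g 2 • v) := by
      rw [eq_neg_iff_add_eq_zero, add_comm]; exact hsum
    calc w = (g 3)⁻¹ • (g 3 • w) := by rw [smul_smul, inv_mul_cancel₀ h2, one_smul]
      _ = (g 3)⁻¹ • -(g 2 • v) := by rw [this]
      _ = _ := by rw [smul_neg, smul_smul, ← neg_smul]; congr 1; ring
  set c := -(g 2) / g 3 with hc
  have hcn : |c| = 1 := by
    rw [hwv, norm_smul, Real.norm_eq_abs] at hvw
    have hvn : ‖v‖ ≠ 0 := norm_ne_zero_iff.2 hv0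
    have : |c| * ‖v‖ = 1 * ‖v‖ := by rw [one_mul]; exact hvw.symm
    exact mul_right_cancel₀ hvn this
  rcases (abs_eq (by norm_num : (0:ℝ) ≤ 1)).1 hcn with h | h
  · left; rw [hwv, h, one_smul]
  · right; rw [hwv, h, neg_smul, one_smul]

theorem main : S_FVE := by
  intro u n1 n2 n3 n4 n5 r hr hu l1 l2 l3 l4 l5 u1 u2 u3 u4 u5 h12 h23 h34 h45 h13 h35 h15
  have hn2 : n2 ≠ 0 := by
    intro h; rw [h, norm_zero] at l2; exact hr.ne l2
  have hn4 : n4 ≠ 0 := by
    intro h; rw [h, norm_zero] at l4; exact hr.ne l4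
  have e3 : n3 = -n1 := by
    rcases pm hu hn2 u2 u1 u3 (by rw [real_inner_comm]; exact h12) h23 (l1.trans l3.symm) with h | h
    · exact absurd h.symm h13
    · exact h
  have e5 : n5 = -n3 := by
    rcases pm hu hn4 u4 u3 u5 (by rw [real_inner_comm]; exact h34) h45 (l3.trans l5.symm) with h | h
    · exact absurd h.symm h35
    · exact h
  apply h15
  rw [e5, e3, neg_neg]

end Pool.Agent.Q293.RT.JFVE
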