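import Pool.Agent.Q293.RT.Stm

namespace Pool.Agent.Q293.RT.JGDV
open Pool.Agent.Q293.RT
open Set

theorem fut_vs : Fut vs := by
  have hp : (0:ℝ) < ph := Real.goldenRatio_pos
  refine ⟨one_pos, ?_⟩
  unfold B vs
  simp
  positivity

theorem pv_vs : PV vs := by
  refine ⟨1, 0, 0, 0, ⟨?_, ?_⟩, ?_⟩
  · simp [vs]
  · intro i; simp [vs]
  · simp [cform]

theorem main : S_GDV_job := by
  intro f3
  have h1 : ∀ v ∈ VV, Fut v := by
    rintro v ⟨γ, hγ, rfl⟩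
    exact hγ.1.fut _ fut_vs
  refine ⟨Subset.rfl, h1, fun R => (f3 R).subset ?_⟩
  rintro v ⟨hv, hR⟩
  refine ⟨?_, h1 v hv, hR⟩
  obtain ⟨γ, hγ, rfl⟩ := hv
  exact hγ.1.pv _ pv_vs

end Pool.Agent.Q293.RT.JGDV
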