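import Pool.Agent.Q293.RT.Stm

namespace Pool.Agent.Q293.RT.JGP
open Pool.Agent.Q293.RT
open Set

/-- the signed permutation as a linear map -/
noncomputable def pl (σ : Equiv.Perm (Fin 3)) (e : Fin 3 → SignType) : M →ₗ[ℝ] M where
  toFun y := (y.1, WithLp.toLp 2 fun i => (e i : ℝ) * y.2 (σ i))
  map_add' := by
    intro y z
    ext i
    · rfl
    · simp; ring
  map_smul' := by
    intro c y
    ext i
    · rfl
    · simp; ring

theorem pl_apply (σ : Equiv.Perm (Fin 3)) (e : Fin 3 → SignType) (y : M) :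
    (pl σ e y).1 = y.1 ∧ ∀ i, (pl σ e y).2 i = (e i : ℝ) * y.2 (σ i) :=
  ⟨rfl, fun _ => rfl⟩

theorem sq_one {s : SignType} (h : s ≠ 0) : (s : ℝ) * (s : ℝ) = 1 := by
  cases s <;> simp_all

theorem pl_comp (σ : Equiv.Perm (Fin 3)) (e : Fin 3 → SignType) (he : ∀ i, e i ≠ 0) (y : M) :
    pl σ e (pl σ.symm (fun i => e (σ.symm i)) y) = y := by
  ext i
  · rfl
  · show (e i : ℝ) * ((e (σ.symm (σ i)) : ℝ) * y.2 (σ.symm (σ i))) = y.2 i
    rw [σ.symm_apply_apply, ← mul_assoc, sq_one (he i), one_mul]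

theorem pl_comp' (σ : Equiv.Perm (Fin 3)) (e : Fin 3 → SignType) (he : ∀ i, e i ≠ 0) (y : M) :
    pl σ.symm (fun i => e (σ.symm i)) (pl σ e y) = y := by
  ext i
  · rfl
  · show (e (σ.symm i) : ℝ) * ((e (σ.symm i) : ℝ) * y.2 (σ (σ.symm i))) = y.2 i
    rw [σ.apply_symm_apply, ← mul_assoc, sq_one (he _), one_mul]

theorem form_pl (σ : Equiv.Perm (Fin 3)) (e : Fin 3 → SignType) (he : ∀ i, e i ≠ 0) (y z : M) :
    B (pl σ e y) (pl σ e z) = B y z := by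
  unfold B
  rw [(pl_apply σ e y).1, (pl_apply σ e z).1]
  congr 1
  rw [← Equiv.sum_comp σ (fun i => y.2 i * z.2 i)]
  apply Finset.sum_congr rfl
  intro i _
  rw [(pl_apply σ e y).2, (pl_apply σ e z).2]
  have := sq_one (he i)
  linear_combination (y.2 (σ i) * z.2 (σ i)) * this

theorem fut_pl (σ : Equiv.Perm (Fin 3)) (e : Fin 3 → SignType) (he : ∀ i, e i ≠ 0) (y : M)
    (h : Fut y) : Fut (pl σ e y) :=
  ⟨h.1, by rw [form_pl σ e he]; exact h.2⟩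

theorem cast_sign (s : SignType) : (((s : ℤ)) : ℝ) = (s : ℝ) := by
  cases s <;> simp

theorem coord_pl (σ : Equiv.Perm (Fin 3)) (e : Fin 3 → SignType) {y : M} {a₀ b₀ : ℤ}
    {a b : Fin 3 → ℤ} (h : Coord y a₀ b₀ a b) :
    Coord (pl σ e y) a₀ b₀ (fun i => (e i : ℤ) * a (σ i)) (fun i => (e i : ℤ) * b (σ i)) := by
  refine ⟨h.1, fun i => ?_⟩
  rw [(pl_apply σ e y).2, h.2]
  push_cast
  ring

theorem cform_pl (σ : Equiv.Perm (Fin 3)) (e : Fin 3 → SignType) (he : ∀ i, e i ≠ 0)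
    (a₀ b₀ : ℤ) (a b : Fin 3 → ℤ) :
    cform a₀ b₀ (fun i => (e i : ℤ) * a (σ i)) (fun i => (e i : ℤ) * b (σ i)) =
      cform a₀ b₀ a b := by
  unfold cform
  congr 1
  rw [← Equiv.sum_comp σ (fun i => ((a i : ℝ) + b i * ps) ^ 2)]
  apply Finset.sum_congr rfl
  intro i _
  push_cast
  have := sq_one (he i)
  linear_combination (((a (σ i) : ℝ) + b (σ i) * ps) ^ 2) * this

theorem odd_sign {s : SignType} (h : s ≠ 0) : Odd (s : ℤ) := by
  cases s <;> simp_all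

theorem pre_pl (σ : Equiv.Perm (Fin 3)) (e : Fin 3 → SignType) (he : ∀ i, e i ≠ 0)
    {γ : M ≃ₗ[ℝ] M} (h : ∀ y, γ y = pl σ e y) : Pre γ := by
  refine ⟨?_, ?_, ?_, ?_⟩
  · intro y z; rw [h, h]; exact form_pl σ e he y z
  · intro y hy; rw [h]; exact fut_pl σ e he y hy
  · rintro y ⟨a₀, b₀, a, b, hc, hf⟩
    rw [h]
    exact ⟨_, _, _, _, coord_pl σ e hc, by rw [cform_pl σ e he]; exact hf⟩
  · rintro y ⟨a₀, b₀, a, b, hc, hf, hE, hO, hab⟩
    rw [h]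
    refine ⟨_, _, _, _, coord_pl σ e hc, by rw [cform_pl σ e he]; exact hf, hE, hO, ?_⟩
    intro i
    exact ⟨(odd_sign (he i)).mul (hab _).1, (hab _).2.mul_left _⟩

theorem main : S_GP := by
  intro σ e he
  let γ : M ≃ₗ[ℝ] M := LinearEquiv.ofLinearMap (pl σ e) (pl σ.symm (fun i => e (σ.symm i)))
    (LinearMap.ext fun y => pl_comp σ e he y) (LinearMap.ext fun y => pl_comp' σ e he y)
  have h : ∀ y, γ y = pl σ e y := fun _ => rfl
  have h' : ∀ y, γ.symm y = pl σ.symm (fun i => e (σ.symm i)) y := fun _ => rfl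
  refine ⟨γ, ⟨pre_pl σ e he h, pre_pl _ _ (fun i => he _) h'⟩, ?_⟩
  intro y
  rw [h]
  exact pl_apply σ e y

end Pool.Agent.Q293.RT.JGP
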