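import Pool.Agent.Q293.RT.Stm

namespace Pool.Agent.Q293.RT.JGS
open Pool.Agent.Q293.RT
open Set

theorem phsq : ph ^ 2 = ph + 1 := Real.goldenRatio_sq
theorem pssq : ps ^ 2 = ps + 1 := Real.goldenConj_sq

/-- the reflection as a linear map -/
noncomputable def sl : M →ₗ[ℝ] M where
  toFun y := (ph * y.1 - y.2 0, !₂[ph * y.1 - ph * y.2 0, y.2 1, y.2 2])
  map_add' := by
    intro y z
    ext i
    · simp; ring
    · fin_cases i <;> simp <;> ring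
  map_smul' := by
    intro c y
    ext i
    · simp; ring
    · fin_cases i <;> simp <;> ring

theorem sl_apply (y : M) : (sl y).1 = ph * y.1 - y.2 0 ∧
  (sl y).2 0 = ph * y.1 - ph * y.2 0 ∧ (sl y).2 1 = y.2 1 ∧ (sl y).2 2 = y.2 2 := by
  refine ⟨rfl, ?_, ?_, ?_⟩ <;> simp [sl]

theorem sl_inv : Function.Involutive sl := by
  intro y
  obtain ⟨h0, h1, h2, h3⟩ := sl_apply (sl y)
  obtain ⟨k0, k1, k2, k3⟩ := sl_apply y
  ext i
  · rw [h0, k0, k1]; linear_combination y.1 * phsq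
  · fin_cases i
    · show (sl (sl y)).2 0 = y.2 0
      rw [h1, k0, k1]; linear_combination (y.2 0) * phsq
    · show (sl (sl y)).2 1 = y.2 1
      rw [h2, k2]
    · show (sl (sl y)).2 2 = y.2 2
      rw [h3, k3]

theorem form_sl (y z : M) : B (sl y) (sl z) = B y z := by
  obtain ⟨h0, h1, h2, h3⟩ := sl_apply y
  obtain ⟨k0, k1, k2, k3⟩ := sl_apply z
  unfold B
  rw [Fin.sum_univ_three, Fin.sum_univ_three, h0, h1, h2, h3, k0, k1, k2, k3]
  have := phsq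
  linear_combination (-ph * y.1 * z.1 + y.2 0 * z.2 0) * this

theorem fut_sl (y : M) (h : Fut y) : Fut (sl y) := by
  obtain ⟨h0, hB⟩ := h
  refine ⟨?_, by rw [form_sl]; exact hB⟩
  rw [(sl_apply y).1]
  have hp : (1:ℝ) < ph := Real.one_lt_goldenRatio
  have h2 := phsq
  unfold B at hB
  rw [Fin.sum_univ_three] at hB
  by_contra hc
  push Not at hc
  have h3 : (ph * y.1) ^ 2 ≤ (y.2 0) ^ 2 := by
    have : 0 < ph * y.1 := by positivity
    nlinarith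
  have h4 : (ph * y.1) ^ 2 = ph * y.1 * y.1 + y.1 * y.1 := by
    have : (ph * y.1) ^ 2 = ph ^ 2 * (y.1 * y.1) := by ring
    rw [this, h2]; ring
  nlinarith [mul_pos h0 h0, mul_self_nonneg (y.2 1), mul_self_nonneg (y.2 2)]

theorem coord_sl {y : M} {a₀ b₀ : ℤ} {a b : Fin 3 → ℤ} (h : Coord y a₀ b₀ a b) :
    Coord (sl y) (b₀ - a 0) (a₀ + b₀ - b 0) ![b₀ - b 0, a 1, a 2]
      ![a₀ + b₀ - a 0 - b 0, b 1, b 2] := by
  obtain ⟨h0, h1⟩ := h
  obtain ⟨k0, k1, k2, k3⟩ := sl_apply y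
  refine ⟨?_, ?_⟩
  · rw [k0, h0, h1 0]; push_cast; linear_combination (b₀ : ℝ) * phsq
  · intro i
    fin_cases i
    · show (sl y).2 0 = ((b₀ - b 0 : ℤ) : ℝ) + ((a₀ + b₀ - a 0 - b 0 : ℤ) : ℝ) * ph
      rw [k1, h0, h1 0]; push_cast; linear_combination ((b₀ : ℝ) - b 0) * phsq
    · show (sl y).2 1 = (a 1 : ℝ) + (b 1 : ℝ) * ph
      rw [k2, h1 1]
    · show (sl y).2 2 = (a 2 : ℝ) + (b 2 : ℝ) * ph
      rw [k3, h1 2]

theorem cform_sl (a₀ b₀ : ℤ) (a b : Fin 3 → ℤ) :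
    cform (b₀ - a 0) (a₀ + b₀ - b 0) ![b₀ - b 0, a 1, a 2] ![a₀ + b₀ - a 0 - b 0, b 1, b 2] =
      cform a₀ b₀ a b := by
  unfold cform
  rw [Fin.sum_univ_three, Fin.sum_univ_three]
  simp only [Matrix.cons_val_zero, Matrix.cons_val_one, Matrix.cons_val_two, Matrix.head_cons,
    Matrix.tail_cons, Matrix.cons_val]
  push_cast
  -- t = a₀ + b₀ ps, x = a 0 + b 0 ps; t' = ps t - x, x' = ps t - ps x
  have e1 : ((b₀ : ℝ) - a 0 + (a₀ + b₀ - b 0) * ps) = ps * (a₀ + b₀ * ps) - (a 0 + b 0 * ps) := by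
    linear_combination (-(b₀ : ℝ)) * pssq
  have e2 : ((b₀ : ℝ) - b 0 + (a₀ + b₀ - a 0 - b 0) * ps) =
      ps * (a₀ + b₀ * ps) - ps * (a 0 + b 0 * ps) := by
    linear_combination (-(b₀ : ℝ) + b 0) * pssq
  rw [e1, e2]
  set t : ℝ := a₀ + b₀ * ps
  set x : ℝ := a 0 + b 0 * ps
  linear_combination (-ps * t * t + x * x) * pssq

theorem pre_sl {γ : M ≃ₗ[ℝ] M} (h : ∀ y, γ y = sl y) : Pre γ := by
  refine ⟨?_, ?_, ?_, ?_⟩
  · intro y z; rw [h, h]; exact form_sl y z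
  · intro y hy; rw [h]; exact fut_sl y hy
  · rintro y ⟨a₀, b₀, a, b, hc, hf⟩
    rw [h]
    exact ⟨_, _, _, _, coord_sl hc, by rw [cform_sl]; exact hf⟩
  · rintro y ⟨a₀, b₀, a, b, hc, hf, hE, hO, hab⟩
    rw [h]
    refine ⟨_, _, _, _, coord_sl hc, by rw [cform_sl]; exact hf, ?_, ?_, ?_⟩
    · exact hO.sub_odd (hab 0).1
    · exact (hE.add_odd hO).sub_even (hab 0).2
    · intro i
      fin_cases i
      · refine ⟨hO.sub_even (hab 0).2, ?_⟩
        exact (((hE.add_odd hO).sub_odd (hab 0).1).sub (hab 0).2)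
      · exact hab 1
      · exact hab 2

theorem main : S_GS := by
  let γ : M ≃ₗ[ℝ] M := LinearEquiv.ofInvolutive sl sl_inv
  have h : ∀ y, γ y = sl y := fun _ => rfl
  have h' : ∀ y, γ.symm y = sl y := fun _ => rfl
  refine ⟨γ, ⟨pre_sl h, pre_sl h'⟩, ?_⟩
  intro y
  rw [h]
  exact sl_apply y

end Pool.Agent.Q293.RT.JGS
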