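import Pool.Agent.Q293.RT.Stm

namespace Pool.Agent.Q293.RT.JISO
open Pool.Agent.Q293.RT
open Set

theorem aff_iso (h : E ≃ᵢ E) (P : Set E) : Aff h P :=
  ⟨(h.toRealAffineIsometryEquiv : E ≃ᵃⁱ[ℝ] E).toAffineEquiv.toAffineMap, fun x _ => by
    simp⟩

theorem main : S_ISO_job := by
  intro aut T h hT
  obtain ⟨H, hH⟩ := aut T h.toEquiv (fun P hP => ⟨(hT P).1 hP, by
      rw [hT]
      have : (h '' (h.toEquiv.symm '' P)) = P := by
        rw [← Set.image_comp]
        have : (h ∘ h.toEquiv.symm) = id := by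
          funext x; exact h.toEquiv.apply_symm_apply x
        rw [this, Set.image_id]
      rw [this]; exact hP⟩)
    (fun P _ => ⟨aff_iso h P, aff_iso h.symm P⟩)
  exact ⟨H, hH⟩

end Pool.Agent.Q293.RT.JISO
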