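import Pool.Agent.Q293.RT.Stm

namespace Pool.Agent.Q293.RT.JLFC
open Pool.Agent.Q293.RT
open Set

theorem VV_inv {γ : M ≃ₗ[ℝ] M} (h : IsSym γ) : ∀ u, u ∈ VV ↔ γ u ∈ VV := by
  intro u
  constructor
  · rintro ⟨δ, hδ, rfl⟩
    exact ⟨δ.trans γ, hδ.trans h, rfl⟩
  · rintro ⟨δ, hδ, h2⟩
    refine ⟨δ.trans γ.symm, hδ.trans h.symm, ?_⟩
    show γ.symm (δ vs) = u
    rw [h2, γ.symm_apply_apply]

theorem main : S_LFC_job := by
  intro gdv hmax act afl ply cti chu tlg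
  have hpos : ∀ u ∈ VV, 0 < u.1 := fun u hu => (gdv.2.1 u hu).1
  refine tlg VV gdv ?_
  rintro u ⟨γ, hγ, rfl⟩
  have hvs : vs ∈ VV := ⟨LinearEquiv.refl ℝ M, IsSym.refl, rfl⟩
  obtain ⟨g, h1, h2, -⟩ := act VV hpos (hmax VV gdv) γ hγ.1.form (VV_inv hγ)
  obtain ⟨A, hA⟩ := afl γ vs
  have haff : Aff g (tile VV vs) := ⟨A, fun x hx => by rw [h2 vs hvs x hx, hA]⟩
  have := ply g (tile VV vs) haff
  rw [h1 vs hvs] at this
  have hc : tile VV vs = cube := cti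
  rw [hc] at this
  exact ⟨this.1 chu.1, this.2 chu.2⟩

end Pool.Agent.Q293.RT.JLFC
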