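import Pool.Agent.Q293.RT.Stm

namespace Pool.Agent.Q293.RT.JLOC
open Pool.Agent.Q293.RT
open Set Topology

theorem cont_ell (u : M) : Continuous (ell u) := by
  unfold ell
  fun_prop

theorem main : S_LOC_job := by
  intro bel abv D hD x r
  obtain ⟨hV, hF, hfin⟩ := hD
  have hp : (0:ℝ) < ph := Real.goldenRatio_pos
  have hK : IsCompact (Metric.closedBall x r) := isCompact_closedBall x r
  refine hK.induction_on (p := fun K => {u | u ∈ D ∧ (tile D u ∩ K).Nonempty}.Finite) ?_ ?_ ?_ ?_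
  · convert Set.finite_empty (α := M) using 1
    ext u
    simp
  · intro s t hst ht
    refine ht.subset ?_
    rintro u ⟨hu, y, hy, hys⟩
    exact ⟨hu, y, hy, hst hys⟩
  · intro s t hs ht
    refine (hs.union ht).subset ?_
    rintro u ⟨hu, y, hy, hys⟩
    rcases hys with h | h
    · exact Or.inl ⟨hu, y, hy, h⟩
    · exact Or.inr ⟨hu, y, hy, h⟩
  · intro x₀ _
    obtain ⟨v₁, hv₁, h1⟩ := abv x₀
    set δ : ℝ := (ell v₁ x₀ - ‖x₀‖ / √ph) / 2 with hδ
    have hδ0 : 0 < δ := by rw [hδ]; linarith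
    have hcont : Continuous fun y : E => ell v₁ y - ‖y‖ / √ph :=
      (cont_ell v₁).sub (continuous_norm.div_const _)
    have hU : {y : E | δ < ell v₁ y - ‖y‖ / √ph} ∈ 𝓝 x₀ := by
      apply (isOpen_lt continuous_const hcont).mem_nhds
      show δ < _
      rw [hδ]; linarith
    refine ⟨_, mem_nhdsWithin_of_mem_nhds hU, (hfin (ph / δ)).subset ?_⟩
    rintro u ⟨hu, y, hy, hys⟩
    refine ⟨hu, ?_⟩
    have h2 := bel u (hF u hu) y
    have hu0 : 0 < u.1 := (hF u hu).1
    have h3 : ell v₁ y ≤ ell u y := hy v₁ (hV hv₁)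
    have h4 : δ < ell v₁ y - ‖y‖ / √ph := hys
    have h5 : δ ≤ ph / u.1 := by linarith
    rw [le_div_iff₀ hu0] at h5
    rw [le_div_iff₀ hδ0]
    linarith

end Pool.Agent.Q293.RT.JLOC
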