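import Pool.Agent.Q293.RT.Stm

namespace Pool.Agent.Q293.RT.JMAX
open Pool.Agent.Q293.RT
open Set

theorem main : S_MAX_job := by
  intro bel abv D hD x
  obtain ⟨hV, hF, hfin⟩ := hD
  have hp : (0:ℝ) < ph := Real.goldenRatio_pos
  obtain ⟨v₁, hv₁, h1⟩ := abv x
  set δ : ℝ := ell v₁ x - ‖x‖ / √ph with hδ
  have hδ0 : 0 < δ := by rw [hδ]; linarith
  have hbig : ∀ u ∈ D, ell v₁ x ≤ ell u x → u.1 ≤ ph / δ := by
    intro u hu h
    have h2 := bel u (hF u hu) x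
    have hu0 : 0 < u.1 := (hF u hu).1
    have h3 : δ ≤ ph / u.1 := by rw [hδ]; linarith
    rw [le_div_iff₀ hu0] at h3
    rw [le_div_iff₀ hδ0]
    linarith
  obtain ⟨u, hu, hmax⟩ := Set.exists_max_image {u | u ∈ D ∧ u.1 ≤ ph / δ} (fun u => ell u x)
    (hfin _) ⟨v₁, hV hv₁, hbig v₁ (hV hv₁) le_rfl⟩
  refine ⟨u, hu.1, fun u' hu' => ?_⟩
  by_cases h : ell v₁ x ≤ ell u' x
  · exact hmax u' ⟨hu', hbig u' hu' h⟩
  · push Not at h
    have := hmax v₁ ⟨hV hv₁, hbig v₁ (hV hv₁) le_rfl⟩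
    linarith

end Pool.Agent.Q293.RT.JMAX
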