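import Pool.Agent.Q293.RT.Bas

namespace Pool.Agent.Q293.RT.JMOV
open Pool.Agent.Q293.RT
open Set

theorem sign_mul_cast (a b : SignType) : ((a * b : SignType) : ℝ) = (a : ℝ) * (b : ℝ) := by
  cases a <;> cases b <;> simp <;> rfl

theorem sq_one {s : SignType} (h : s ≠ 0) : (s : ℝ) * (s : ℝ) = 1 := by
  cases s <;> simp_all

theorem abs_one {s : SignType} (h : s ≠ 0) : |(s : ℝ)| = 1 := by
  cases s <;> simp_all

theorem image_cface {g : E ≃ E} {σ : Equiv.Perm (Fin 3)} {e : Fin 3 → SignType}
    (he : ∀ i, e i ≠ 0) (hcube : g '' cube = cube)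
    (hg : ∀ x ∈ cube, ∀ i, g x i = (e i : ℝ) * x (σ i)) (s : Fin 3 → SignType) :
    g '' cface s = cface (fun i => e i * s (σ i)) := by
  apply Subset.antisymm
  · rintro _ ⟨x, hx, rfl⟩
    refine ⟨fun i => ?_, fun i hi => ?_⟩
    · rw [hg x hx.1, abs_mul, abs_one (he i), one_mul]; exact hx.1 _
    · have h1 : s (σ i) ≠ 0 := fun h => hi (by show e i * s (σ i) = 0; rw [h, mul_zero])
      rw [hg x hx.1, hx.2 _ h1]
      exact (sign_mul_cast _ _).symm
  · intro y hy
    have hyc : y ∈ g '' cube := by rw [hcube]; exact hy.1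
    obtain ⟨x, hx, rfl⟩ := hyc
    refine ⟨x, ⟨hx, fun i hi => ?_⟩, rfl⟩
    have h1 : e (σ.symm i) * s (σ (σ.symm i)) ≠ 0 := by
      rw [σ.apply_symm_apply]
      have h2 := he (σ.symm i)
      revert h2 hi
      generalize e (σ.symm i) = a
      generalize s i = b
      revert a b
      decide
    have h2 := hy.2 (σ.symm i) h1
    rw [hg x hx, sign_mul_cast, σ.apply_symm_apply] at h2
    have h3 : (e (σ.symm i) : ℝ) ≠ 0 := by
      intro h
      have := sq_one (he (σ.symm i))
      rw [h] at this
      simp at this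
    exact mul_left_cancel₀ h3 h2

theorem main : S_MOV_job := by
  intro lfc cti fit cuf cfl cmb gp aug Φ hC
  obtain ⟨C, hCΦ, hC⟩ := hC
  have hc0 : cface 0 = cube := cfl.2.2.1
  set cF := Bas.cF cti cuf with hcF
  have hcF1 : ∀ s, (cF s).1 = cface s := fun _ => rfl
  -- structure of the flag
  have hstr : ∀ F ∈ Φ, F.1 = ∅ ∨ F.1 = univ ∨ ∃ s, F = cF s := by
    intro F hF
    have key : F.1 ⊆ cube → F.1 = ∅ ∨ F.1 = univ ∨ ∃ s, F = cF s := by
      intro h
      rcases Bas.below_cube lfc cti fit cuf F h with h1 | ⟨s, h1⟩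
      · exact Or.inl h1
      · exact Or.inr (Or.inr ⟨s, Subtype.ext h1⟩)
    rcases Φ.le_or_le hF hCΦ with h | h
    · apply key
      rw [← hC]; exact h
    · have h1 : cube ⊆ F.1 := by rw [← hC]; exact h
      rcases (fit Tl lfc cube (Bas.cube_mem cti) F.1 F.2).2 h1 with h2 | h2
      · exact key h2.subset
      · exact Or.inr (Or.inl h2)
  obtain ⟨σ, e, he, hK⟩ := cmb {s | cF s ∈ Φ}
    (by
      intro s hs s' hs'
      rcases Φ.le_or_le hs hs' with h | h
      · left; exact (cfl.1 s s').1 h
      · right; exact (cfl.1 s' s).1 h)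
    (by
      intro s hs
      show cF s ∈ Φ
      rw [Flag.mem_iff_forall_le_or_ge]
      intro F hF
      rcases hstr F hF with h | h | ⟨s', rfl⟩
      · right
        show F.1 ⊆ _
        rw [h]; exact Set.empty_subset _
      · left
        show _ ⊆ F.1
        rw [h]; exact Set.subset_univ _
      · rcases hs s' hF with h | h
        · left; exact (cfl.1 s s').2 h
        · right; exact (cfl.1 s' s).2 h)
  obtain ⟨γ, hγ, hγ'⟩ := gp σ e he
  obtain ⟨G, g, hG, h1, h2⟩ := aug γ hγ
  have hγvs : γ vs = vs := by
    ext i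
    · rw [(hγ' vs).1]
    · rw [(hγ' vs).2 i]; simp [vs]
  have hcube : g '' cube = cube := by
    have := h1 vs Bas.vs_mem
    rw [hγvs] at this
    have hc : tile VV vs = cube := cti
    rwa [hc] at this
  have hg : ∀ x ∈ cube, ∀ i, g x i = (e i : ℝ) * x (σ i) := by
    intro x hx i
    have hc : tile VV vs = cube := cti
    rw [h2 vs Bas.vs_mem x (by rw [hc]; exact hx)]
    exact (hγ' _).2 i
  have himg := image_cface he hcube hg
  refine ⟨G, fun F => ⟨fun hF => ?_, fun hF => ?_⟩⟩
  · rcases hstr F hF with h | h | ⟨s, rfl⟩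
    · rw [hG, h, Set.image_empty]; left; rfl
    · rw [hG, h, Set.image_univ_of_surjective g.surjective]
      right; right; right; right; right; rfl
    · rw [hG, hcF1, himg]
      have := (hK s).1 hF
      simp only [Set.mem_insert_iff, Set.mem_singleton_iff] at this
      rcases this with h | h | h | h
      · rw [h]; right; left; rfl
      · rw [h]; right; right; left; rfl
      · rw [h]; right; right; right; left; rfl
      · rw [h]; right; right; right; right; left; rfl
  · have hface : ∀ t ∈ ({![1, 1, 1], ![1, 0, 1], ![0, 0, 1], ![0, 0, 0]} :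
        Set (Fin 3 → SignType)), (G F).1 = cface t → F ∈ Φ := by
      intro t ht h
      rw [hG] at h
      have hsub : F.1 ⊆ cube := by
        have : g '' F.1 ⊆ g '' cube := by
          rw [h, hcube]; exact fun x hx => hx.1
        exact (Set.image_subset_image_iff g.injective).1 this
      rcases Bas.below_cube lfc cti fit cuf F hsub with h3 | ⟨s, h3⟩
      · exfalso
        rw [h3, Set.image_empty] at h
        have := cfl.2.1 t
        rw [← h] at this
        exact Set.not_nonempty_empty this
      · rw [h3, himg] at h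
        have h4 := Bas.cface_inj cfl h
        have h5 : F = cF s := Subtype.ext h3
        rw [h5]
        apply (hK s).2
        rw [h4]; exact ht
    rcases hF with h | h | h | h | h | h
    · rw [hG, Set.image_eq_empty] at h
      rw [Flag.mem_iff_forall_le_or_ge]
      intro F' _
      left
      show F.1 ⊆ _
      rw [h]; exact Set.empty_subset _
    · exact hface _ (by simp) h
    · exact hface _ (by simp) h
    · exact hface _ (by simp) h
    · exact hface _ (by simp) h
    · have h' : g '' F.1 = univ := by rw [← hG]; exact h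
      have h3 : F.1 = univ := by
        apply Set.eq_univ_of_forall
        intro x
        have : g x ∈ g '' F.1 := by rw [h']; trivial
        obtain ⟨y, hy, hxy⟩ := this
        rwa [← g.injective hxy]
      rw [Flag.mem_iff_forall_le_or_ge]
      intro F' _
      right
      show _ ⊆ F.1
      rw [h3]; exact Set.subset_univ _

end Pool.Agent.Q293.RT.JMOV
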