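import Pool.Agent.Q293.RT.Ver

namespace Pool.Agent.Q293.RT.JNIS
open Pool.Agent.Q293.RT
open Set

theorem inner_dist (x y z : E) :
    inner ℝ (x - z) (y - z) = (dist x z ^ 2 + dist y z ^ 2 - dist x y ^ 2) / 2 := by
  have h := norm_sub_sq_real (x - z) (y - z)
  have e : (x - z) - (y - z) = x - y := by abel
  rw [e] at h
  rw [dist_eq_norm, dist_eq_norm, dist_eq_norm]
  linarith

theorem isom_inner (h : E ≃ᵢ E) (x y z : E) :
    inner ℝ (h x - h z) (h y - h z) = inner ℝ (x - z) (y - z) := by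
  rw [inner_dist, inner_dist, h.dist_eq, h.dist_eq, h.dist_eq]

theorem main : S_NIS_job := by
  intro lfc cti cuf cfl vtx pai trk sqr fve T' hT' hreg
  refine ⟨fun Θ => ?_⟩
  obtain ⟨θ, hθ⟩ := vtx T' hT' Θ
  obtain ⟨hne, hd, hin⟩ := sqr T' hT' hreg Θ θ hθ
  set cF := Bas.cF cti cuf with hcF
  have hP : (cF ![1, 1, 1]).1 = {P0} := Ver.cface_P cfl
  have hA : (cF ![1, -1, 1]).1 = {A0} := Ver.cface_A cfl
  have hB : (cF ![-1, 1, 1]).1 = {B0} := Ver.cface_B cfl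
  have inj : ∀ {F F' : FaceLat (d := 3) Tl} {x y : E}, F.1 = {x} → F'.1 = {y} → θ x = θ y →
      x = y := by
    intro F F' x y hx hy hxy
    have : F = F' := by
      apply Θ.injective
      apply Subtype.ext
      rw [hθ _ _ hx, hθ _ _ hy, hxy]
    rw [this, hy] at hx
    exact (Set.singleton_injective hx).symm
  have pair : ∀ x y : E, (x, y) ∈ ({(Q0, B0), (Q0, A0), (Q0, C3), (Q0, C4), (Q0, C5),
      (B0, A0), (A0, C3), (C3, C4), (C4, C5)} : Set (E × E)) →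
      ‖θ x - θ P0‖ = ‖θ A0 - θ P0‖ ∧ ‖θ y - θ P0‖ = ‖θ A0 - θ P0‖ ∧
      inner ℝ (θ x - θ P0) (θ y - θ P0) = 0 ∧
      (∃ F : FaceLat (d := 3) Tl, F.1 = {x}) ∧ (∃ F : FaceLat (d := 3) Tl, F.1 = {y}) := by
    intro x y hxy
    obtain ⟨G, hG⟩ := pai x y hxy
    obtain ⟨h, hh⟩ := trk T' hT' hreg Θ θ hθ G
    have gP : h (θ P0) = θ P0 := hh P0 (by simp) _ hP P0 ((hG _).1 hP)
    have gA : h (θ A0) = θ x := hh A0 (by simp) _ hA x ((hG _).2.1 hA)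
    have gB : h (θ B0) = θ y := hh B0 (by simp) _ hB y ((hG _).2.2 hB)
    refine ⟨?_, ?_, ?_, ⟨G (cF ![1, -1, 1]), (hG _).2.1 hA⟩, ⟨G (cF ![-1, 1, 1]), (hG _).2.2 hB⟩⟩
    · rw [← dist_eq_norm, ← dist_eq_norm]
      conv_lhs => rw [← gA, ← gP]
      rw [h.dist_eq]
    · rw [← dist_eq_norm, ← dist_eq_norm]
      conv_lhs => rw [← gB, ← gP]
      rw [h.dist_eq, dist_comm, ← hd, dist_comm]
    · have := isom_inner h (θ A0) (θ B0) (θ P0)
      rw [gA, gB, gP] at this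
      rw [this]; exact hin
  have p1 := pair Q0 B0 (by simp)
  have p2 := pair Q0 A0 (by simp)
  have p3 := pair Q0 C3 (by simp)
  have p4 := pair Q0 C4 (by simp)
  have p5 := pair Q0 C5 (by simp)
  have q1 := pair B0 A0 (by simp)
  have q2 := pair A0 C3 (by simp)
  have q3 := pair C3 C4 (by simp)
  have q4 := pair C4 C5 (by simp)
  have hr : 0 < ‖θ A0 - θ P0‖ := norm_pos_iff.2 (sub_ne_zero.2 hne.symm)
  have hu : θ Q0 - θ P0 ≠ 0 := by
    intro h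
    have := p1.1
    rw [h, norm_zero] at this
    exact hr.ne this
  have hph : (1:ℝ) < ph := Real.one_lt_goldenRatio
  have hph3 : (1:ℝ) < ph ^ 3 := one_lt_pow₀ hph (by norm_num)
  have distinct : ∀ {x y : E}, (∃ F : FaceLat (d := 3) Tl, F.1 = {x}) →
      (∃ F : FaceLat (d := 3) Tl, F.1 = {y}) → x ≠ y → θ x - θ P0 ≠ θ y - θ P0 := by
    rintro x y ⟨F, hF⟩ ⟨F', hF'⟩ hxy h
    exact hxy (inj hF hF' (sub_left_injective h))
  have n13 : B0 ≠ C3 := by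
    intro h
    have h0 : B0 0 = C3 0 := by rw [h]
    have e1 : B0 0 = -1 := rfl
    have e2 : C3 0 = ph ^ 3 := rfl
    rw [e1, e2] at h0
    linarith
  have n35 : C3 ≠ C5 := by
    intro h
    have h0 : C3 0 = C5 0 := by rw [h]
    have e1 : C5 0 = 1 := rfl
    have e2 : C3 0 = ph ^ 3 := rfl
    rw [e1, e2] at h0
    linarith
  have n15 : B0 ≠ C5 := by
    intro h
    have h0 : B0 0 = C5 0 := by rw [h]
    have e1 : B0 0 = -1 := rfl
    have e2 : C5 0 = 1 := rfl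
    rw [e1, e2] at h0
    linarith
  exact fve (θ Q0 - θ P0) (θ B0 - θ P0) (θ A0 - θ P0) (θ C3 - θ P0) (θ C4 - θ P0) (θ C5 - θ P0)
    _ hr hu p1.2.1 rfl p3.2.1 p4.2.1 p5.2.1 p1.2.2.1 p2.2.2.1 p3.2.2.1 p4.2.2.1 p5.2.2.1
    q1.2.2.1 q2.2.2.1 q3.2.2.1 q4.2.2.1 (distinct p1.2.2.2.2 p3.2.2.2.2 n13)
    (distinct p3.2.2.2.2 p5.2.2.2.2 n35) (distinct p1.2.2.2.2 p5.2.2.2.2 n15)

end Pool.Agent.Q293.RT.JNIS
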