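import Pool.Agent.Q293.RT.Ver

namespace Pool.Agent.Q293.RT.JPAI
open Pool.Agent.Q293.RT
open Set

theorem phsq : ph ^ 2 = ph + 1 := Real.goldenRatio_sq

theorem vec_ext {y z : M} (h : y.1 = z.1) (h0 : y.2 0 = z.2 0) (h1 : y.2 1 = z.2 1)
    (h2 : y.2 2 = z.2 2) : y = z := by
  ext i
  · exact h
  · fin_cases i
    · exact h0
    · exact h1
    · exact h2

/-- the state: `γ` fixes the lift of `p` and maps the lifts of `a`, `b` to `X`, `Y` -/
def St (X Y : M) : Prop := ∃ γ : M ≃ₗ[ℝ] M, IsSym γ ∧ γ (ph, P0) = (ph, P0) ∧ γ (ph, A0) = X ∧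
  γ (ph, B0) = Y

theorem St.app {X Y : M} (h : St X Y) {π : M ≃ₗ[ℝ] M} (hπ : IsSym π)
    (hp : π (ph, P0) = (ph, P0)) : St (π X) (π Y) := by
  obtain ⟨γ, hγ, h1, h2, h3⟩ := h
  refine ⟨γ.trans π, hγ.trans hπ, ?_, ?_, ?_⟩
  · show π (γ _) = _
    rw [h1, hp]
  · show π (γ _) = _
    rw [h2]
  · show π (γ _) = _
    rw [h3]

/-- the swap of two coordinates -/
theorem swap_exists (gp : S_GP) (i j : Fin 3) : ∃ γ : M ≃ₗ[ℝ] M, IsSym γ ∧ ∀ y : M,
    (γ y).1 = y.1 ∧ ∀ k, (γ y).2 k = y.2 (Equiv.swap i j k) := by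
  obtain ⟨γ, hγ, h⟩ := gp (Equiv.swap i j) (fun _ => 1) (fun _ => by decide)
  refine ⟨γ, hγ, fun y => ⟨(h y).1, fun k => ?_⟩⟩
  rw [(h y).2 k]
  simp

theorem main : S_PAI_job := by
  intro aug cti gs gp
  obtain ⟨c, hc, hc'⟩ := swap_exists gp 1 2
  obtain ⟨r, hr, hr'⟩ := swap_exists gp 0 1
  obtain ⟨s, hs, hs'⟩ := gs
  have sw120 : Equiv.swap (1 : Fin 3) 2 0 = 0 := by decide
  have sw121 : Equiv.swap (1 : Fin 3) 2 1 = 2 := by decide
  have sw122 : Equiv.swap (1 : Fin 3) 2 2 = 1 := by decide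
  have sw010 : Equiv.swap (0 : Fin 3) 1 0 = 1 := by decide
  have sw011 : Equiv.swap (0 : Fin 3) 1 1 = 0 := by decide
  have sw012 : Equiv.swap (0 : Fin 3) 1 2 = 2 := by decide
  have cP : c (ph, P0) = (ph, P0) := by
    refine vec_ext ?_ ?_ ?_ ?_
    · exact (hc' _).1
    · rw [(hc' _).2, sw120]
    · rw [(hc' _).2, sw121]; simp [P0]
    · rw [(hc' _).2, sw122]; simp [P0]
  have cA : c (ph, A0) = (ph, Q0) := by
    refine vec_ext ?_ ?_ ?_ ?_
    · exact (hc' _).1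
    · rw [(hc' _).2, sw120]; simp [A0, Q0]
    · rw [(hc' _).2, sw121]; simp [A0, Q0]
    · rw [(hc' _).2, sw122]; simp [A0, Q0]
  have cB : c (ph, B0) = (ph, B0) := by
    refine vec_ext ?_ ?_ ?_ ?_
    · exact (hc' _).1
    · rw [(hc' _).2, sw120]
    · rw [(hc' _).2, sw121]; simp [B0]
    · rw [(hc' _).2, sw122]; simp [B0]
  have rP : r (ph, P0) = (ph, P0) := by
    refine vec_ext ?_ ?_ ?_ ?_
    · exact (hr' _).1
    · rw [(hr' _).2, sw010]; simp [P0]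
    · rw [(hr' _).2, sw011]; simp [P0]
    · rw [(hr' _).2, sw012]
  have rA : r (ph, A0) = (ph, B0) := by
    refine vec_ext ?_ ?_ ?_ ?_
    · exact (hr' _).1
    · rw [(hr' _).2, sw010]; simp [A0, B0]
    · rw [(hr' _).2, sw011]; simp [A0, B0]
    · rw [(hr' _).2, sw012]; simp [A0, B0]
  have rB : r (ph, B0) = (ph, A0) := by
    refine vec_ext ?_ ?_ ?_ ?_
    · exact (hr' _).1
    · rw [(hr' _).2, sw010]; simp [A0, B0]
    · rw [(hr' _).2, sw011]; simp [A0, B0]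
    · rw [(hr' _).2, sw012]; simp [A0, B0]
  -- the rotation
  set π : M ≃ₗ[ℝ] M := r.trans s with hπ
  have hπs : IsSym π := hr.trans hs
  have π1 : ∀ y : M, (π y).1 = ph * y.1 - y.2 1 ∧ (π y).2 0 = ph * y.1 - ph * y.2 1 ∧
      (π y).2 1 = y.2 0 ∧ (π y).2 2 = y.2 2 := by
    intro y
    obtain ⟨k0, k1, k2, k3⟩ := hs' (r y)
    show (s (r y)).1 = _ ∧ (s (r y)).2 0 = _ ∧ (s (r y)).2 1 = _ ∧ (s (r y)).2 2 = _
    rw [k0, k1, k2, k3, (hr' y).1, (hr' y).2 0, (hr' y).2 1, (hr' y).2 2, sw010, sw011, sw012]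
    exact ⟨rfl, rfl, rfl, rfl⟩
  have ph3 : ph ^ 3 = 2 * ph + 1 := by linear_combination (ph + 1) * phsq
  have πP : π (ph, P0) = (ph, P0) := by
    obtain ⟨k0, k1, k2, k3⟩ := π1 (ph, P0)
    apply vec_ext
    · rw [k0]; simp only [P0, Matrix.cons_val_one, Matrix.cons_val_zero]
      linear_combination phsq
    · rw [k1]; simp only [P0, Matrix.cons_val_one, Matrix.cons_val_zero]
      linear_combination phsq
    · rw [k2]; simp [P0]
    · rw [k3]
  have πQ : π (ph, Q0) = (ph, Q0) := by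
    obtain ⟨k0, k1, k2, k3⟩ := π1 (ph, Q0)
    apply vec_ext
    · rw [k0]; simp only [Q0, Matrix.cons_val_one, Matrix.cons_val_zero]
      linear_combination phsq
    · rw [k1]; simp only [Q0, Matrix.cons_val_one, Matrix.cons_val_zero]
      linear_combination phsq
    · rw [k2]; simp [Q0]
    · rw [k3]
  have πB : π (ph, B0) = (ph, A0) := by
    obtain ⟨k0, k1, k2, k3⟩ := π1 (ph, B0)
    apply vec_ext
    · rw [k0]; simp only [B0, A0, Matrix.cons_val_one, Matrix.cons_val_zero]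
      linear_combination phsq
    · rw [k1]; simp only [B0, A0, Matrix.cons_val_one, Matrix.cons_val_zero]
      linear_combination phsq
    · rw [k2]; simp [B0, A0]
    · rw [k3]; simp [B0, A0]
  have πA : π (ph, A0) = (ph + 2, C3) := by
    obtain ⟨k0, k1, k2, k3⟩ := π1 (ph, A0)
    apply vec_ext
    · rw [k0]; simp only [A0, C3, Matrix.cons_val_one, Matrix.cons_val_zero]
      linear_combination phsq
    · rw [k1]; simp only [A0, C3, Matrix.cons_val_one, Matrix.cons_val_zero]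
      linear_combination phsq - ph3
    · rw [k2]; simp [A0, C3]
    · rw [k3]; simp [A0, C3]
  have π3 : π (ph + 2, C3) = (3 * ph, C4) := by
    obtain ⟨k0, k1, k2, k3⟩ := π1 (ph + 2, C3)
    apply vec_ext
    · rw [k0]; simp only [C3, C4, Matrix.cons_val_one, Matrix.cons_val_zero]
      linear_combination phsq
    · rw [k1]; simp only [C3, C4, Matrix.cons_val_one, Matrix.cons_val_zero]
      linear_combination phsq - ph3
    · rw [k2]; simp [C3, C4]
    · rw [k3]; simp [C3, C4]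
  have π4 : π (3 * ph, C4) = (ph + 2, C5) := by
    obtain ⟨k0, k1, k2, k3⟩ := π1 (3 * ph, C4)
    apply vec_ext
    · rw [k0]; simp only [C4, C5, Matrix.cons_val_one, Matrix.cons_val_zero]
      linear_combination 3 * phsq - ph3
    · rw [k1]; simp only [C4, C5, Matrix.cons_val_one, Matrix.cons_val_zero]
      linear_combination 3 * phsq - ph * ph3 - 2 * phsq
    · rw [k2]; simp [C4, C5]
    · rw [k3]; simp [C4, C5]
  have s1 : St (ph, Q0) (ph, B0) := ⟨c, hc, cP, cA, cB⟩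
  have s2 : St (ph, Q0) (ph, A0) := by
    have := s1.app hπs πP; rwa [πQ, πB] at this
  have s3 : St (ph, Q0) (ph + 2, C3) := by
    have := s2.app hπs πP; rwa [πQ, πA] at this
  have s4 : St (ph, Q0) (3 * ph, C4) := by
    have := s3.app hπs πP; rwa [πQ, π3] at this
  have s5 : St (ph, Q0) (ph + 2, C5) := by
    have := s4.app hπs πP; rwa [πQ, π4] at this
  have t1 : St (ph, B0) (ph, A0) := ⟨r, hr, rP, rA, rB⟩
  have t2 : St (ph, A0) (ph + 2, C3) := by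
    have := t1.app hπs πP; rwa [πB, πA] at this
  have t3 : St (ph + 2, C3) (3 * ph, C4) := by
    have := t2.app hπs πP; rwa [πA, π3] at this
  have t4 : St (3 * ph, C4) (ph + 2, C5) := by
    have := t3.app hπs πP; rwa [π3, π4] at this
  have fin : ∀ X Y : M, St X Y → ∃ G : FaceLat (d := 3) Tl ≃o FaceLat (d := 3) Tl,
      ∀ F : FaceLat (d := 3) Tl, (F.1 = {P0} → (G F).1 = {P0}) ∧
        (F.1 = {A0} → (G F).1 = {X.2}) ∧ (F.1 = {B0} → (G F).1 = {Y.2}) := by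
    rintro X Y ⟨γ, hγ, h1, h2, h3⟩
    obtain ⟨G, hG⟩ := Ver.autVertex aug cti hγ
    refine ⟨G, fun F => ⟨fun hF => ?_, fun hF => ?_, fun hF => ?_⟩⟩
    · rw [hG F P0 Ver.P0_mem hF, h1]
    · rw [hG F A0 Ver.A0_mem hF, h2]
    · rw [hG F B0 Ver.B0_mem hF, h3]
  intro x y hxy
  simp only [Set.mem_insert_iff, Set.mem_singleton_iff, Prod.mk.injEq] at hxy
  rcases hxy with ⟨rfl, rfl⟩ | ⟨rfl, rfl⟩ | ⟨rfl, rfl⟩ | ⟨rfl, rfl⟩ | ⟨rfl, rfl⟩ | ⟨rfl, rfl⟩ |
    ⟨rfl, rfl⟩ | ⟨rfl, rfl⟩ | ⟨rfl, rfl⟩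
  · exact fin _ _ s1
  · exact fin _ _ s2
  · exact fin _ _ s3
  · exact fin _ _ s4
  · exact fin _ _ s5
  · exact fin _ _ t1
  · exact fin _ _ t2
  · exact fin _ _ t3
  · exact fin _ _ t4

end Pool.Agent.Q293.RT.JPAI
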