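import Pool.Agent.Q293.RT.Stm

namespace Pool.Agent.Q293.RT.JPLY
open Pool.Agent.Q293.RT
open Set

theorem main : S_PLY := by
  intro g P hA
  obtain ⟨A, hA⟩ := hA
  have himg : g '' P = A '' P := by
    apply Set.image_congr hA
  refine ⟨?_, ?_⟩
  · rintro ⟨s, rfl⟩
    classical
    refine ⟨s.image A, ?_⟩
    rw [himg, Finset.coe_image, AffineMap.image_convexHull]
  · rintro ⟨x, hx⟩
    have hxP : x ∈ P := interior_subset hx
    -- the linear part is injective
    have hinj : Function.Injective A.linear := by
      rw [← LinearMap.ker_eq_bot, LinearMap.ker_eq_bot']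
      intro w hw
      -- x + t w ∈ P for small t
      have hcont : Continuous fun t : ℝ => x + t • w := by fun_prop
      have hnb : ∀ᶠ t : ℝ in nhds 0, x + t • w ∈ interior P := by
        apply hcont.continuousAt.eventually
        simp only [zero_smul, add_zero]
        exact isOpen_interior.mem_nhds hx
      have hnb2 : ∀ᶠ t : ℝ in nhdsWithin 0 (Set.Ioi 0), x + t • w ∈ interior P :=
        hnb.filter_mono nhdsWithin_le_nhds
      obtain ⟨t, ht, htpos⟩ := (hnb2.and self_mem_nhdsWithin).exists
      have h1 : g (x + t • w) = g x := by
        rw [hA _ (interior_subset ht), hA _ hxP]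
        have : x + t • w = (t • w) +ᵥ x := by rw [vadd_eq_add, add_comm]
        rw [this, AffineMap.map_vadd, map_smul, hw, smul_zero, zero_vadd]
      have h2 : x + t • w = x := g.injective h1
      have h3 : t • w = 0 := by simpa using h2
      rcases smul_eq_zero.1 h3 with h | h
      · exact absurd h (ne_of_gt htpos)
      · exact h
    have hAinj : Function.Injective A := (AffineMap.linear_injective_iff A).1 hinj
    have hsurj : Function.Surjective A := by
      rw [← AffineMap.linear_surjective_iff]
      exact LinearMap.injective_iff_surjective.1 hinj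
    have hopen : IsOpenMap A := A.isOpenMap (AffineMap.continuous_of_finiteDimensional A) hsurj
    rw [himg]
    refine ⟨A x, ?_⟩
    exact interior_maximal (Set.image_mono interior_subset) (hopen _ isOpen_interior)
      (Set.mem_image_of_mem A hx)

end Pool.Agent.Q293.RT.JPLY
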