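import Pool.Agent.Q293.RT.Stm

namespace Pool.Agent.Q293.RT.JPOL
open Pool.Agent.Q293.RT
open Set

theorem main : S_POL := by
  intro s F hF
  obtain ⟨hc, hsub, hext⟩ := hF
  apply Subset.antisymm
  · intro x hx
    have hxP : x ∈ convexHull ℝ (s : Set E) := hsub hx
    rw [Finset.mem_convexHull'] at hxP
    obtain ⟨w, hw0, hw1, hwx⟩ := hxP
    -- points with positive weight are in F
    have key : ∀ y ∈ s, 0 < w y → y ∈ F := by
      classical
      intro y hy hpos
      by_cases h1 : w y = 1
      · -- all others zero
        have hz : ∑ z ∈ s.erase y, w z = 0 := by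
          have := Finset.add_sum_erase s w hy
          rw [hw1, h1] at this
          linarith
        have hz' : ∀ z ∈ s.erase y, w z = 0 :=
          (Finset.sum_eq_zero_iff_of_nonneg fun z hz => hw0 z (Finset.mem_of_mem_erase hz)).1 hz
        have : ∑ z ∈ s, w z • z = y := by
          rw [← Finset.add_sum_erase s _ hy, h1, one_smul,
            Finset.sum_eq_zero fun z hz => by rw [hz' z hz, zero_smul], add_zero]
        rw [← hwx, this] at hx
        exact hx
      · have hle : w y ≤ 1 := by
          rw [← hw1]
          exact Finset.single_le_sum (fun z hz => hw0 z hz) hy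
        have hlt : w y < 1 := lt_of_le_of_ne hle h1
        set c : ℝ := 1 - w y with hcdef
        have hcpos : 0 < c := by rw [hcdef]; linarith
        have hsum : ∑ z ∈ s.erase y, w z = c := by
          have := Finset.add_sum_erase s w hy
          rw [hw1] at this
          rw [hcdef]; linarith
        set z₀ : E := ∑ z ∈ s.erase y, (w z / c) • z with hz₀
        have hz₀P : z₀ ∈ convexHull ℝ (s : Set E) := by
          have : z₀ ∈ convexHull ℝ ((s.erase y : Finset E) : Set E) := by
            rw [Finset.mem_convexHull']
            refine ⟨fun z => w z / c, fun z hz => div_nonneg (hw0 z (Finset.mem_of_mem_erase hz))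
              hcpos.le, ?_, rfl⟩
            rw [← Finset.sum_div, hsum, div_self hcpos.ne']
          exact convexHull_mono (by simp) this
        refine hext (subset_convexHull ℝ _ hy) hz₀P hx ⟨w y, c, hpos, hcpos, by rw [hcdef]; ring, ?_⟩
        rw [hz₀, Finset.smul_sum, ← hwx, ← Finset.add_sum_erase s _ hy]
        congr 1
        apply Finset.sum_congr rfl
        intro z _
        rw [smul_smul, mul_div_cancel₀ _ hcpos.ne']
    -- x is a combination of s ∩ F
    classical
    have hx2 : x ∈ convexHull ℝ ((s.filter fun y => 0 < w y : Finset E) : Set E) := by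
      rw [Finset.mem_convexHull']
      have hzero : ∀ y ∈ s, ¬ 0 < w y → w y = 0 := fun y hy h =>
        le_antisymm (not_lt.1 h) (hw0 y hy)
      refine ⟨w, fun y hy => hw0 y (Finset.mem_filter.1 hy).1, ?_, ?_⟩
      · rw [Finset.sum_filter, ← hw1]
        apply Finset.sum_congr rfl
        intro y hy
        by_cases h : 0 < w y
        · simp [h]
        · simp [h, hzero y hy h]
      · rw [Finset.sum_filter, ← hwx]
        apply Finset.sum_congr rfl
        intro y hy
        by_cases h : 0 < w y
        · simp [h]
        · simp [h, hzero y hy h]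
    refine convexHull_mono ?_ hx2
    intro y hy
    rw [Finset.coe_filter] at hy
    exact ⟨hy.1, key y hy.1 hy.2⟩
  · exact convexHull_min Set.inter_subset_right hc

end Pool.Agent.Q293.RT.JPOL
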