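import Pool.Agent.Q293.RT.Bas

namespace Pool.Agent.Q293.RT.JRIG
open Pool.Agent.Q293.RT
open Set

theorem fixed (lfc : S_LFC) (cti : S_CTI) (fit : S_FIT) (cuf : S_CUF) (cfl : S_CFL)
    (α : FaceLat (d := 3) Tl ≃o FaceLat (d := 3) Tl) (s u : Fin 3 → SignType)
    (hu : α (Bas.cF cti cuf u) = Bas.cF cti cuf u) (hsu : ∀ i, u i ≠ 0 → s i = u i)
    (h : ∀ t : Fin 3 → SignType, (∀ i, u i ≠ 0 → t i = u i) →
      Bas.cF cti cuf t = α (Bas.cF cti cuf s) → t = s ∨ α (Bas.cF cti cuf t) = Bas.cF cti cuf t) :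
    α (Bas.cF cti cuf s) = Bas.cF cti cuf s := by
  have hbT : (∅ : Set E) ∈ Faces (d := 3) Tl := Or.inl rfl
  have hle : Bas.cF cti cuf s ≤ Bas.cF cti cuf u := (cfl.1 s u).2 hsu
  have h1 : α (Bas.cF cti cuf s) ≤ Bas.cF cti cuf u := by
    rw [← hu]; exact α.monotone hle
  have h2 : (α (Bas.cF cti cuf s)).1 ⊆ cface u := h1
  rcases Bas.below_cube lfc cti fit cuf _ (h2.trans fun x hx => hx.1) with h3 | ⟨t, h3⟩
  · exfalso
    have h4 : α (Bas.cF cti cuf s) ≤ α ⟨∅, hbT⟩ := by
      show (α (Bas.cF cti cuf s)).1 ⊆ _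
      rw [h3]; exact Set.empty_subset _
    have h5 : Bas.cF cti cuf s ≤ ⟨∅, hbT⟩ := α.le_iff_le.1 h4
    obtain ⟨x, hx⟩ := cfl.2.1 s
    exact (show cface s ⊆ ∅ from h5) hx
  · have h4 : α (Bas.cF cti cuf s) = Bas.cF cti cuf t := Subtype.ext h3
    rw [h3] at h2
    rcases h t ((cfl.1 t u).1 h2) h4.symm with h5 | h5
    · rw [h4, h5]
    · have := α.injective (h4.trans h5.symm)
      rw [this]; rw [this] at h4; exact h4

theorem main : S_RIG_job := by
  intro lfc cti fit cuf cfl α hα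
  set cF := Bas.cF cti cuf with hcF
  have hp : α (cF ![1, 1, 1]) = cF ![1, 1, 1] := hα _ (Or.inl rfl)
  have he : α (cF ![1, 0, 1]) = cF ![1, 0, 1] := hα _ (Or.inr (Or.inl rfl))
  have hR : α (cF ![0, 0, 1]) = cF ![0, 0, 1] := hα _ (Or.inr (Or.inr rfl))
  have lower : ∀ l s t : Fin 3 → SignType, α (cF l) = cF l → (∀ i, s i ≠ 0 → l i = s i) →
      cF t = α (cF s) → ∀ i, t i ≠ 0 → l i = t i := by
    intro l s t hl hls ht
    have h1 : cF l ≤ cF s := (cfl.1 l s).2 hls
    have h2 : cF l ≤ cF t := by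
      rw [ht, ← hl]; exact α.monotone h1
    exact (cfl.1 l t).1 h2
  -- a
  have ha : α (cF ![1, -1, 1]) = cF ![1, -1, 1] := by
    apply fixed lfc cti fit cuf cfl α _ ![1, 0, 1] he (by decide)
    intro t ht ht2
    have : t = ![1, -1, 1] ∨ t = ![1, 1, 1] ∨ t = ![1, 0, 1] := by
      clear ht2
      revert t; decide
    rcases this with h | h | h
    · exact Or.inl h
    · right; rw [h]; exact hp
    · right; rw [h]; exact he
  -- edge p b
  have hpb : α (cF ![0, 1, 1]) = cF ![0, 1, 1] := by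
    apply fixed lfc cti fit cuf cfl α _ ![0, 0, 1] hR (by decide)
    intro t ht ht2
    have hl := lower ![1, 1, 1] ![0, 1, 1] t hp (by decide) ht2
    have : t = ![0, 1, 1] ∨ t = ![1, 1, 1] ∨ t = ![1, 0, 1] ∨ t = ![0, 0, 1] := by
      clear ht2
      revert t; decide
    rcases this with h | h | h | h
    · exact Or.inl h
    · right; rw [h]; exact hp
    · right; rw [h]; exact he
    · right; rw [h]; exact hR
  have hb : α (cF ![-1, 1, 1]) = cF ![-1, 1, 1] := by
    apply fixed lfc cti fit cuf cfl α _ ![0, 1, 1] hpb (by decide)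
    intro t ht ht2
    have : t = ![-1, 1, 1] ∨ t = ![1, 1, 1] ∨ t = ![0, 1, 1] := by
      clear ht2
      revert t; decide
    rcases this with h | h | h
    · exact Or.inl h
    · right; rw [h]; exact hp
    · right; rw [h]; exact hpb
  have had : α (cF ![0, -1, 1]) = cF ![0, -1, 1] := by
    apply fixed lfc cti fit cuf cfl α _ ![0, 0, 1] hR (by decide)
    intro t ht ht2
    have hl := lower ![1, -1, 1] ![0, -1, 1] t ha (by decide) ht2
    have : t = ![0, -1, 1] ∨ t = ![1, -1, 1] ∨ t = ![1, 0, 1] ∨ t = ![0, 0, 1] := by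
      clear ht2
      revert t; decide
    rcases this with h | h | h | h
    · exact Or.inl h
    · right; rw [h]; exact ha
    · right; rw [h]; exact he
    · right; rw [h]; exact hR
  have hd : α (cF ![-1, -1, 1]) = cF ![-1, -1, 1] := by
    apply fixed lfc cti fit cuf cfl α _ ![0, -1, 1] had (by decide)
    intro t ht ht2
    have : t = ![-1, -1, 1] ∨ t = ![1, -1, 1] ∨ t = ![0, -1, 1] := by
      clear ht2
      revert t; decide
    rcases this with h | h | h
    · exact Or.inl h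
    · right; rw [h]; exact ha
    · right; rw [h]; exact had
  intro F hF
  rcases hF with h | h | h
  · have : F = cF ![1, -1, 1] := Subtype.ext h
    rw [this]; exact ha
  · have : F = cF ![-1, 1, 1] := Subtype.ext h
    rw [this]; exact hb
  · have : F = cF ![-1, -1, 1] := Subtype.ext h
    rw [this]; exact hd

end Pool.Agent.Q293.RT.JRIG
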