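import Pool.Agent.Q293.RT.Stm

namespace Pool.Agent.Q293.RT.JSQE
open Pool.Agent.Q293.RT
open Set Module

/-- In a subspace of dimension at most two, two vectors orthogonal to a nonzero vector and of the
same length are equal or opposite. -/
theorem two_dim (W : Submodule ℝ E) (hW : finrank ℝ W ≤ 2) {u v w : E} (hu : u ∈ W) (hv : v ∈ W)
    (hw : w ∈ W) (hu0 : u ≠ 0) (huv : inner ℝ u v = 0) (huw : inner ℝ u w = 0)
    (hn : ‖v‖ = ‖w‖) : w = v ∨ w = -v := by
  by_cases hv0 : v = 0
  · left
    rw [hv0, norm_zero] at hn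
    rw [hv0]; exact norm_eq_zero.1 hn.symm
  -- u, v, w dependent
  have hdep : ¬ LinearIndependent ℝ ![(⟨u, hu⟩ : W), ⟨v, hv⟩, ⟨w, hw⟩] := by
    intro h
    have := h.fintype_card_le_finrank
    simp at this
    omega
  rw [Fintype.not_linearIndependent_iff] at hdep
  obtain ⟨g, hg, i, hi⟩ := hdep
  have hsum : g 0 • u + g 1 • v + g 2 • w = 0 := by
    have := congrArg Subtype.val hg
    simpa [Fin.sum_univ_three] using this
  have hu' : g 0 = 0 := by
    have h1 : inner ℝ u (g 0 • u + g 1 • v + g 2 • w) = 0 := by rw [hsum, inner_zero_right]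
    rw [inner_add_right, inner_add_right, inner_smul_right, inner_smul_right, inner_smul_right,
      huv, huw, mul_zero, mul_zero, add_zero, add_zero] at h1
    have h2 : inner ℝ u u ≠ (0:ℝ) := by rw [inner_self_ne_zero]; exact hu0
    rcases mul_eq_zero.1 h1 with h | h
    · exact h
    · exact absurd h h2
  rw [hu', zero_smul, zero_add] at hsum
  have h2 : g 2 ≠ 0 := by
    intro h2
    rw [h2, zero_smul, add_zero] at hsum
    have h1 : g 1 = 0 := (smul_eq_zero.1 hsum).resolve_right hv0
    fin_cases i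
    · exact hi hu'
    · exact hi h1
    · exact hi h2
  have hwv : w = (-(g 1) / g 2) • v := by
    have : g 2 • w = -(g 1 • v) := by
      rw [eq_neg_iff_add_eq_zero, add_comm]; exact hsum
    calc w = (g 2)⁻¹ • (g 2 • w) := by rw [smul_smul, inv_mul_cancel₀ h2, one_smul]
      _ = (g 2)⁻¹ • -(g 1 • v) := by rw [this]
      _ = _ := by rw [smul_neg, smul_smul, ← neg_smul]; congr 1; ring
  set c := -(g 1) / g 2 with hc
  have hcn : |c| = 1 := by
    rw [hwv, norm_smul, Real.norm_eq_abs] at hn
    have hvn : ‖v‖ ≠ 0 := norm_ne_zero_iff.2 hv0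
    have : |c| * ‖v‖ = 1 * ‖v‖ := by rw [one_mul]; exact hn.symm
    exact mul_right_cancel₀ hvn this
  rcases (abs_eq (by norm_num : (0:ℝ) ≤ 1)).1 hcn with h | h
  · left; rw [hwv, h, one_smul]
  · right; rw [hwv, h, neg_smul, one_smul]

theorem main : S_SQE := by
  intro p a b d hpd hab hpa hda hpb hin hdim
  set m : E := (1/2 : ℝ) • (a + b) with hm
  have ham : a - m = (1/2 : ℝ) • (a - b) := by rw [hm]; module
  -- orthogonality
  have orth : ∀ x : E, dist x a = dist x b → inner ℝ (b - a) (x - m) = 0 := by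
    intro x hx
    rw [dist_eq_norm, dist_eq_norm] at hx
    have h1 : ‖x - a‖ ^ 2 = ‖x - b‖ ^ 2 := by rw [hx]
    have h2 : x - a = (x - m) + (1/2 : ℝ) • (b - a) := by rw [hm]; module
    have h3 : x - b = (x - m) - (1/2 : ℝ) • (b - a) := by rw [hm]; module
    rw [h2, h3, norm_add_sq_real (x - m) ((1/2 : ℝ) • (b - a)),
      norm_sub_sq_real (x - m) ((1/2 : ℝ) • (b - a)), real_inner_smul_right] at h1
    rw [real_inner_comm]
    linarith
  have o1 := orth p hpa
  have o2 := orth d hda
  have hlen : ‖p - m‖ = ‖d - m‖ := by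
    have e : ∀ x : E, dist x a = dist x b → ‖x - m‖ ^ 2 = (dist x b) ^ 2 - (1/4) * ‖b - a‖ ^ 2 := by
      intro x hx
      have h3 : x - b = (x - m) - (1/2 : ℝ) • (b - a) := by rw [hm]; module
      have o := orth x hx
      rw [real_inner_comm] at o
      rw [dist_eq_norm, h3, norm_sub_sq_real (x - m) ((1/2 : ℝ) • (b - a)), real_inner_smul_right,
        o, norm_smul]
      norm_num
      ring
    have e1 := e p hpa
    have e2 := e d hda
    have : dist p b = dist d b := by rw [hpb, dist_comm a d, hda]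
    rw [this, ← e2] at e1
    exact (sq_eq_sq₀ (norm_nonneg _) (norm_nonneg _)).1 e1
  -- membership in the span
  set W := vectorSpan ℝ ({p, a, b, d} : Set E) with hW
  have hba : b - a ∈ W := vsub_mem_vectorSpan ℝ (by simp) (by simp)
  have hpaW : p - a ∈ W := vsub_mem_vectorSpan ℝ (by simp) (by simp)
  have hpbW : p - b ∈ W := vsub_mem_vectorSpan ℝ (by simp) (by simp)
  have hdaW : d - a ∈ W := vsub_mem_vectorSpan ℝ (by simp) (by simp)
  have hdbW : d - b ∈ W := vsub_mem_vectorSpan ℝ (by simp) (by simp)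
  have hpm : p - m ∈ W := by
    have : p - m = (1/2 : ℝ) • (p - a) + (1/2 : ℝ) • (p - b) := by rw [hm]; module
    rw [this]
    exact W.add_mem (W.smul_mem _ hpaW) (W.smul_mem _ hpbW)
  have hdm : d - m ∈ W := by
    have : d - m = (1/2 : ℝ) • (d - a) + (1/2 : ℝ) • (d - b) := by rw [hm]; module
    rw [this]
    exact W.add_mem (W.smul_mem _ hdaW) (W.smul_mem _ hdbW)
  have hba0 : b - a ≠ 0 := sub_ne_zero.2 hab.symm
  rcases two_dim W hdim hba hpm hdm hba0 o1 o2 hlen with h | h
  · exfalso
    apply hpd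
    have : d = p := by simpa using congrArg (· + m) h
    exact this.symm
  · have hd : d - a = b - p := by
      have : d = m - (p - m) := by
        have := congrArg (· + m) h
        simp only [sub_add_cancel] at this
        rw [this]; abel
      rw [this, hm]; module
    rw [hd] at hin
    have : inner ℝ (p - a) (b - p) = - inner ℝ (a - p) (b - p) := by
      rw [← inner_neg_left, neg_sub]
    rw [this] at hin
    linarith

end Pool.Agent.Q293.RT.JSQE
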