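import Pool.Agent.Q293.RT.Ver

namespace Pool.Agent.Q293.RT.JSQR
open Pool.Agent.Q293.RT
open Set

theorem inner_dist (x y z : E) :
    inner ℝ (x - z) (y - z) = (dist x z ^ 2 + dist y z ^ 2 - dist x y ^ 2) / 2 := by
  have h := norm_sub_sq_real (x - z) (y - z)
  have e : (x - z) - (y - z) = x - y := by abel
  rw [e] at h
  rw [dist_eq_norm, dist_eq_norm, dist_eq_norm]
  linarith

theorem isom_inner (h : E ≃ᵢ E) (x y z : E) :
    inner ℝ (h x - h z) (h y - h z) = inner ℝ (x - z) (y - z) := by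
  rw [inner_dist, inner_dist, h.dist_eq, h.dist_eq, h.dist_eq]

theorem cube_ne : cube ≠ univ := by
  intro h
  have : (!₂[2, 0, 0] : E) ∈ cube := by rw [h]; trivial
  have h2 := this 0
  norm_num at h2

theorem main : S_SQR_job := by
  intro lfc cti cuf cfl cop syq trk sqe T' hT' hreg Θ θ hθ
  set cF := Bas.cF cti cuf with hcF
  have hcF1 : ∀ s, (cF s).1 = cface s := fun _ => rfl
  have hP : (cF ![1, 1, 1]).1 = {P0} := Ver.cface_P cfl
  have hA : (cF ![1, -1, 1]).1 = {A0} := Ver.cface_A cfl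
  have hB : (cF ![-1, 1, 1]).1 = {B0} := Ver.cface_B cfl
  have hD : (cF ![-1, -1, 1]).1 = {D0} := Ver.cface_D cfl
  have tP := hθ _ _ hP
  have tA := hθ _ _ hA
  have tB := hθ _ _ hB
  have tD := hθ _ _ hD
  have inj : ∀ {F F' : FaceLat (d := 3) Tl} {x y : E}, F.1 = {x} → F'.1 = {y} → θ x = θ y →
      F = F' := by
    intro F F' x y hx hy hxy
    apply Θ.injective
    apply Subtype.ext
    rw [hθ _ _ hx, hθ _ _ hy, hxy]
  have nPA : θ P0 ≠ θ A0 := by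
    intro h
    have h1 : cface ![1, 1, 1] = cface ![1, -1, 1] := congrArg Subtype.val (inj hP hA h)
    exact absurd (Bas.cface_inj cfl h1) (by decide)
  have nPD : θ P0 ≠ θ D0 := by
    intro h
    have h1 : cface ![1, 1, 1] = cface ![-1, -1, 1] := congrArg Subtype.val (inj hP hD h)
    exact absurd (Bas.cface_inj cfl h1) (by decide)
  have nAB : θ A0 ≠ θ B0 := by
    intro h
    have h1 : cface ![1, -1, 1] = cface ![-1, 1, 1] := congrArg Subtype.val (inj hA hB h)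
    exact absurd (Bas.cface_inj cfl h1) (by decide)
  obtain ⟨⟨G₁, hG₁⟩, ⟨G₂, hG₂⟩⟩ := syq
  obtain ⟨h₁, hh₁⟩ := trk T' hT' hreg Θ θ hθ G₁
  obtain ⟨h₂, hh₂⟩ := trk T' hT' hreg Θ θ hθ G₂
  have a1 : h₁ (θ P0) = θ A0 := hh₁ P0 (by simp) _ hP A0 ((hG₁ _).1 hP)
  have a2 : h₁ (θ A0) = θ P0 := hh₁ A0 (by simp) _ hA P0 ((hG₁ _).2.1 hA)
  have a3 : h₁ (θ B0) = θ D0 := hh₁ B0 (by simp) _ hB D0 ((hG₁ _).2.2.1 hB)
  have b1 : h₂ (θ P0) = θ P0 := hh₂ P0 (by simp) _ hP P0 ((hG₂ _).1 hP)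
  have b2 : h₂ (θ A0) = θ B0 := hh₂ A0 (by simp) _ hA B0 ((hG₂ _).2.1 hA)
  have b4 : h₂ (θ D0) = θ D0 := hh₂ D0 (by simp) _ hD D0 ((hG₂ _).2.2.2 hD)
  have d1 : dist (θ P0) (θ A0) = dist (θ P0) (θ B0) := by
    rw [← h₂.dist_eq, b1, b2]
  have d2 : dist (θ D0) (θ A0) = dist (θ D0) (θ B0) := by
    rw [← h₂.dist_eq, b4, b2]
  have d3 : dist (θ P0) (θ B0) = dist (θ A0) (θ D0) := by
    rw [← h₁.dist_eq, a1, a3]
  have i1 : inner ℝ (θ A0 - θ P0) (θ B0 - θ P0) = inner ℝ (θ P0 - θ A0) (θ D0 - θ A0) := by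
    rw [← isom_inner h₁, a1, a2, a3]
  refine ⟨nPA, d1, ?_⟩
  -- planarity
  have hlt : cF ![0, 0, 1] < cF ![0, 0, 0] := by
    apply lt_of_le_of_ne
    · exact (cfl.1 _ _).2 (by decide)
    · intro h
      have h1 : cface ![0, 0, 1] = cface ![0, 0, 0] := congrArg Subtype.val h
      exact absurd (Bas.cface_inj cfl h1) (by decide)
  have hsub : ∀ s, (∀ i, (![0, 0, 1] : Fin 3 → SignType) i ≠ 0 → s i = ![0, 0, 1] i) →
      (Θ (cF s)).1 ⊆ (Θ (cF ![0, 0, 1])).1 := by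
    intro s hs
    have : cF s ≤ cF ![0, 0, 1] := (cfl.1 _ _).2 hs
    exact Θ.monotone this
  have mP : θ P0 ∈ (Θ (cF ![0, 0, 1])).1 := hsub ![1, 1, 1] (by decide) (by rw [tP]; rfl)
  have mA : θ A0 ∈ (Θ (cF ![0, 0, 1])).1 := hsub ![1, -1, 1] (by decide) (by rw [tA]; rfl)
  have mB : θ B0 ∈ (Θ (cF ![0, 0, 1])).1 := hsub ![-1, 1, 1] (by decide) (by rw [tB]; rfl)
  have mD : θ D0 ∈ (Θ (cF ![0, 0, 1])).1 := hsub ![-1, -1, 1] (by decide) (by rw [tD]; rfl)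
  have hPu : (Θ (cF ![0, 0, 0])).1 ≠ univ := by
    intro h
    have hu : (univ : Set E) ∈ Faces (d := 3) Tl := Or.inr (Or.inl rfl)
    have h1 : Θ ⟨univ, hu⟩ ≤ Θ (cF ![0, 0, 0]) := by
      show _ ⊆ (Θ (cF ![0, 0, 0])).1
      rw [h]; exact Set.subset_univ _
    have h2 : (⟨univ, hu⟩ : FaceLat (d := 3) Tl) ≤ cF ![0, 0, 0] := Θ.le_iff_le.1 h1
    have h3 : univ ⊆ cface ![0, 0, 0] := h2
    apply cube_ne
    apply Set.eq_univ_of_univ_subset
    exact h3.trans fun x hx => hx.1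
  have hdim := cop T' hT' (Θ (cF ![0, 0, 1])) (Θ (cF ![0, 0, 0])) (Θ.strictMono hlt) hPu
    ⟨_, mP⟩
  have hdim2 : Module.finrank ℝ (vectorSpan ℝ ({θ P0, θ A0, θ B0, θ D0} : Set E)) ≤ 2 := by
    refine le_trans (Submodule.finrank_mono (vectorSpan_mono ℝ ?_)) hdim
    intro x hx
    simp only [Set.mem_insert_iff, Set.mem_singleton_iff] at hx
    rcases hx with rfl | rfl | rfl | rfl
    · exact mP
    · exact mA
    · exact mB
    · exact mD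
  exact sqe (θ P0) (θ A0) (θ B0) (θ D0) nPD nAB d1 d2 d3 i1 hdim2

end Pool.Agent.Q293.RT.JSQR
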