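import Pool.Agent.Q293.RT.Ver

namespace Pool.Agent.Q293.RT.JSYQ
open Pool.Agent.Q293.RT
open Set

theorem vec_ext {y z : E} (h0 : y 0 = z 0) (h1 : y 1 = z 1) (h2 : y 2 = z 2) : y = z := by
  ext i
  fin_cases i
  · exact h0
  · exact h1
  · exact h2

theorem main : S_SYQ_job := by
  intro aug cti gp
  constructor
  · obtain ⟨γ, hγ, h⟩ := gp (Equiv.refl _) ![1, -1, 1] (by decide)
    obtain ⟨G, hG⟩ := Ver.autVertex aug cti hγ
    refine ⟨G, fun F => ⟨fun hF => ?_, fun hF => ?_, fun hF => ?_, fun hF => ?_⟩⟩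
    · rw [hG F _ Ver.P0_mem hF]
      congr 1
      apply vec_ext <;> rw [(h _).2] <;> simp [P0, A0]
    · rw [hG F _ Ver.A0_mem hF]
      congr 1
      apply vec_ext <;> rw [(h _).2] <;> simp [P0, A0]
    · rw [hG F _ Ver.B0_mem hF]
      congr 1
      apply vec_ext <;> rw [(h _).2] <;> simp [B0, D0]
    · rw [hG F _ Ver.D0_mem hF]
      congr 1
      apply vec_ext <;> rw [(h _).2] <;> simp [B0, D0]
  · obtain ⟨γ, hγ, h⟩ := gp (Equiv.swap 0 1) (fun _ => 1) (by decide)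
    have sw010 : Equiv.swap (0 : Fin 3) 1 0 = 1 := by decide
    have sw011 : Equiv.swap (0 : Fin 3) 1 1 = 0 := by decide
    have sw012 : Equiv.swap (0 : Fin 3) 1 2 = 2 := by decide
    obtain ⟨G, hG⟩ := Ver.autVertex aug cti hγ
    refine ⟨G, fun F => ⟨fun hF => ?_, fun hF => ?_, fun hF => ?_, fun hF => ?_⟩⟩
    · rw [hG F _ Ver.P0_mem hF]
      congr 1
      apply vec_ext <;> rw [(h _).2] <;> simp [P0, sw012]
    · rw [hG F _ Ver.A0_mem hF]
      congr 1
      apply vec_ext <;> rw [(h _).2] <;> simp [B0, A0, sw012]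
    · rw [hG F _ Ver.B0_mem hF]
      congr 1
      apply vec_ext <;> rw [(h _).2] <;> simp [B0, A0, sw012]
    · rw [hG F _ Ver.D0_mem hF]
      congr 1
      apply vec_ext <;> rw [(h _).2] <;> simp [D0, sw012]

end Pool.Agent.Q293.RT.JSYQ
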