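import Pool.Agent.Q293.RT.Stm

namespace Pool.Agent.Q293.RT.JTIL
open Pool.Agent.Q293.RT
open Set

theorem main : S_TIL_job := by
  intro fnb T hT Φ
  obtain ⟨-, hup, hne⟩ := fnb T hT
  -- a tile
  obtain ⟨P₀, hP₀, -⟩ : ∃ P ∈ T, (0 : E) ∈ P := by
    have : (0 : E) ∈ ⋃₀ T := by rw [hT.cover]; trivial
    exact this
  have hPne : ∀ P ∈ T, P ≠ ∅ := by
    intro P hP h
    obtain ⟨x, hx⟩ := hT.solid P hP
    rw [h] at hx
    simp at hx
  have hface : ∀ P ∈ T, P ∈ Faces (d := 3) T := by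
    intro P hP
    right; right
    refine ⟨P, hP, ?_, IsExtreme.refl _ _⟩
    obtain ⟨s, rfl⟩ := hT.polytope P hP
    exact convex_convexHull ℝ _
  -- a proper element
  obtain ⟨F₁, hF₁, hF₁e, hF₁u⟩ : ∃ F₁ ∈ Φ, F₁.1 ≠ ∅ ∧ F₁.1 ≠ univ := by
    by_contra hcon
    push Not at hcon
    have hmem : (⟨P₀, hface P₀ hP₀⟩ : FaceLat (d := 3) T) ∈ Φ := by
      rw [Flag.mem_iff_forall_le_or_ge]
      intro G hG
      by_cases h : G.1 = ∅
      · right
        show G.1 ⊆ P₀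
        rw [h]; exact Set.empty_subset _
      · left
        show P₀ ⊆ G.1
        rw [hcon G hG (Set.nonempty_iff_ne_empty.2 h)]; exact Set.subset_univ _
    exact hne P₀ hP₀ (hcon _ hmem (Set.nonempty_iff_ne_empty.2 (hPne P₀ hP₀)))
  have hfin := hup F₁ (Set.nonempty_iff_ne_empty.2 hF₁e)
  have hfin2 : {G : FaceLat (d := 3) T | G ∈ Φ ∧ F₁ ≤ G ∧ G.1 ≠ univ}.Finite :=
    hfin.subset fun G hG => hG.2
  obtain ⟨G₁, ⟨hG₁, hFG, hGu⟩, hmax⟩ := hfin2.exists_maximal ⟨F₁, hF₁, le_rfl, hF₁u⟩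
  rcases G₁.2 with h | h | ⟨P, hP, hGP⟩
  · exfalso
    have : F₁.1 ⊆ G₁.1 := hFG
    rw [h] at this
    exact hF₁e (Set.subset_empty_iff.1 this)
  · exact absurd h hGu
  · refine ⟨⟨P, hface P hP⟩, ?_, hP⟩
    rw [Flag.mem_iff_forall_le_or_ge]
    intro G hG
    by_cases h : G.1 = univ
    · left
      show P ⊆ G.1
      rw [h]; exact Set.subset_univ _
    · right
      have hGG : G ≤ G₁ := by
        rcases Φ.le_or_le hG hG₁ with h1 | h1
        · exact h1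
        · exact hmax ⟨hG, hFG.trans h1, h⟩ h1
      show G.1 ⊆ P
      exact (show G.1 ⊆ G₁.1 from hGG).trans hGP.2.1

end Pool.Agent.Q293.RT.JTIL
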