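import Pool.Agent.Q293.RT.Stm

namespace Pool.Agent.Q293.RT.JTLG
open Pool.Agent.Q293.RT
open Set Topology

theorem ell_comb (u : M) (x y : E) {a b : ℝ} (hab : a + b = 1) :
    ell u (a • x + b • y) = a * ell u x + b * ell u y := by
  unfold ell
  have : ph ^ 2 + ∑ i, (a • x + b • y) i * u.2 i =
      a * (ph ^ 2 + ∑ i, x i * u.2 i) + b * (ph ^ 2 + ∑ i, y i * u.2 i) := by
    simp only [PiLp.add_apply, PiLp.smul_apply, smul_eq_mul, Fin.sum_univ_three]
    linear_combination (- ph ^ 2) * hab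
  rw [this]
  ring

theorem ell_line (u : M) (x w : E) (t : ℝ) :
    ell u (x + t • w) = ell u x + t * ((∑ i, w i * u.2 i) / (ph * u.1)) := by
  unfold ell
  simp only [PiLp.add_apply, PiLp.smul_apply, smul_eq_mul, Fin.sum_univ_three]
  ring

theorem eq_of_interior {D : Set M} (hF : ∀ u ∈ D, 0 < u.1) {u u' : M} (hu : u ∈ D) (hu' : u' ∈ D)
    {x : E} (h1 : x ∈ interior (tile D u)) (h2 : x ∈ interior (tile D u')) : u = u' := by
  have hp : (0:ℝ) < ph := Real.goldenRatio_pos
  have heq : ∀ y ∈ tile D u, y ∈ tile D u' → ell u y = ell u' y := fun y hy hy' =>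
    le_antisymm (hy' u hu) (hy u' hu')
  have hu0 := hF u hu
  have hu0' := hF u' hu'
  have key : ∀ w : E, (∑ i, w i * u.2 i) / (ph * u.1) = (∑ i, w i * u'.2 i) / (ph * u'.1) := by
    intro w
    have hcont : Continuous fun t : ℝ => x + t • w := by fun_prop
    have hnb : ∀ᶠ t : ℝ in nhds 0, x + t • w ∈ interior (tile D u) ∩ interior (tile D u') := by
      apply hcont.continuousAt.eventually
      simp only [zero_smul, add_zero]
      exact (isOpen_interior.inter isOpen_interior).mem_nhds ⟨h1, h2⟩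
    have hnb2 : ∀ᶠ t : ℝ in nhdsWithin 0 (Set.Ioi 0),
        x + t • w ∈ interior (tile D u) ∩ interior (tile D u') :=
      hnb.filter_mono nhdsWithin_le_nhds
    obtain ⟨t, ht, htpos⟩ := (hnb2.and self_mem_nhdsWithin).exists
    have e1 := heq _ (interior_subset ht.1) (interior_subset ht.2)
    have e2 := heq _ (interior_subset h1) (interior_subset h2)
    rw [ell_line, ell_line, e2] at e1
    have htp : (0:ℝ) < t := htpos
    have := add_left_cancel e1
    exact mul_left_cancel₀ htp.ne' this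
  have hcoord : ∀ i, u.2 i / (ph * u.1) = u'.2 i / (ph * u'.1) := by
    intro i
    have := key (EuclideanSpace.single i 1)
    simpa [EuclideanSpace.single_apply, Finset.sum_ite_eq] using this
  have e2 := heq _ (interior_subset h1) (interior_subset h2)
  have hx : ∀ v : M, ell v x = ph ^ 2 / (ph * v.1) + ∑ i, x i * (v.2 i / (ph * v.1)) := by
    intro v
    unfold ell
    rw [Fin.sum_univ_three, Fin.sum_univ_three]
    ring
  rw [hx, hx] at e2
  have h3 : ∑ i, x i * (u.2 i / (ph * u.1)) = ∑ i, x i * (u'.2 i / (ph * u'.1)) := by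
    apply Finset.sum_congr rfl
    intro i _
    rw [hcoord i]
  rw [h3] at e2
  have h4 : ph ^ 2 / (ph * u.1) = ph ^ 2 / (ph * u'.1) := by linarith
  have h5 : u.1 = u'.1 := by
    rw [div_eq_div_iff (by positivity) (by positivity)] at h4
    have hpp : ph ^ 2 * ph ≠ 0 := by positivity
    apply mul_left_cancel₀ hpp
    linarith
  ext i
  · exact h5
  · have := hcoord i
    rw [h5] at this
    rw [div_left_inj' (by positivity)] at this
    exact this

theorem convex_tile (D : Set M) (u : M) : Convex ℝ (tile D u) := by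
  intro x hx y hy a b ha hb hab u' hu'
  rw [ell_comb u' x y hab, ell_comb u x y hab]
  have h1 := mul_le_mul_of_nonneg_left (hx u' hu') ha
  have h2 := mul_le_mul_of_nonneg_left (hy u' hu') hb
  linarith

theorem face_inter {D : Set M} {u u' : M} (hu : u ∈ D) (hu' : u' ∈ D) :
    IsFace (d := 3) (tile D u) (tile D u ∩ tile D u') := by
  refine ⟨(convex_tile D u).inter (convex_tile D u'), inter_subset_left, ?_⟩
  rintro x hx y hy z ⟨hz, hz'⟩ ⟨a, b, ha, hb, hab, rfl⟩
  have e : ell u (a • x + b • y) = ell u' (a • x + b • y) := le_antisymm (hz' u hu) (hz u' hu')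
  rw [ell_comb u x y hab, ell_comb u' x y hab] at e
  have h1 := hx u' hu'
  have h2 := hy u' hu'
  have h3 : ell u x = ell u' x := by
    apply le_antisymm _ h1
    by_contra hcon
    push Not at hcon
    nlinarith
  refine ⟨hx, fun u'' hu'' => ?_⟩
  rw [← h3]
  exact hx u'' hu''

theorem main : S_TLG_job := by
  intro hmax hloc D hD hpoly
  have hF : ∀ u ∈ D, 0 < u.1 := fun u hu => (hD.2.1 u hu).1
  refine ⟨?_, ?_, ?_, ?_, ?_, ?_⟩
  · rintro P ⟨u, hu, rfl⟩
    exact (hpoly u hu).1
  · rintro P ⟨u, hu, rfl⟩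
    exact (hpoly u hu).2
  · apply Set.eq_univ_of_forall
    intro x
    obtain ⟨u, hu, hx⟩ := hmax D hD x
    exact ⟨_, ⟨u, hu, rfl⟩, hx⟩
  · rintro P ⟨u, hu, rfl⟩ Q ⟨u', hu', rfl⟩ hne
    rw [Set.disjoint_left]
    intro x hx hx'
    exact hne (by rw [eq_of_interior hF hu hu' hx hx'])
  · rintro P ⟨u, hu, rfl⟩ Q ⟨u', hu', rfl⟩
    refine ⟨face_inter hu hu', ?_⟩
    rw [Set.inter_comm]
    exact face_inter hu' hu
  · intro x r
    refine ((hloc D hD x r).image (tile D)).subset ?_
    rintro P ⟨⟨u, hu, rfl⟩, hne⟩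
    exact ⟨u, ⟨hu, hne⟩, rfl⟩

end Pool.Agent.Q293.RT.JTLG
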