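import Pool.Agent.Q293.RT.Ver

namespace Pool.Agent.Q293.RT.JTRK
open Pool.Agent.Q293.RT
open Set

theorem main : S_TRK_job := by
  intro lfc cti cuf cfl iso fnb fix rig T' hT' hreg Θ θ hθ G
  set cF := Bas.cF cti cuf with hcF
  have hcF1 : ∀ s, (cF s).1 = cface s := fun _ => rfl
  -- the chain
  let c : Set (FaceLat (d := 3) Tl) := {cF ![1, 1, 1], cF ![1, 0, 1], cF ![0, 0, 1]}
  have l1 : cF ![1, 1, 1] ≤ cF ![1, 0, 1] := (cfl.1 _ _).2 (by decide)
  have l2 : cF ![1, 0, 1] ≤ cF ![0, 0, 1] := (cfl.1 _ _).2 (by decide)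
  have hc : IsChain (· ≤ ·) c := by
    intro x hx y hy _
    simp only [c, Set.mem_insert_iff, Set.mem_singleton_iff] at hx hy
    rcases hx with rfl | rfl | rfl <;> rcases hy with rfl | rfl | rfl
    · left; exact le_rfl
    · left; exact l1
    · left; exact l1.trans l2
    · right; exact l1
    · left; exact le_rfl
    · left; exact l2
    · right; exact l1.trans l2
    · right; exact l2
    · left; exact le_rfl
  obtain ⟨m, hm, hcm⟩ := hc.exists_maxChain
  let Φ : Flag (FaceLat (d := 3) Tl) := Flag.ofIsMaxChain m hm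
  have hcΦ : ∀ x ∈ c, x ∈ Φ := fun x hx => hcm hx
  obtain ⟨h, hh1, hh2⟩ := hreg (Flag.map Θ Φ) (Flag.map Θ (Flag.map G Φ))
  obtain ⟨H, hH⟩ := iso T' h hh1
  set α : FaceLat (d := 3) Tl ≃o FaceLat (d := 3) Tl :=
    ((Θ.trans H).trans Θ.symm).trans G.symm with hα
  have hα1 : ∀ F, α F = G.symm (Θ.symm (H (Θ F))) := fun _ => rfl
  have mem_map : ∀ {X Y : Type} [PartialOrder X] [PartialOrder Y] (e : X ≃o Y) (Ψ : Flag X) (x : X),
      x ∈ Ψ ↔ e x ∈ Flag.map e Ψ := by
    intro X Y _ _ e Ψ x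
    constructor
    · intro hx; exact ⟨x, hx, rfl⟩
    · rintro ⟨x', hx', h'⟩
      rwa [← e.injective h']
  have hαΦ : ∀ F, F ∈ (Φ : Set (FaceLat (d := 3) Tl)) ↔ α F ∈ (Φ : Set (FaceLat (d := 3) Tl)) := by
    intro F
    have e1 : F ∈ Φ ↔ Θ F ∈ Flag.map Θ Φ := mem_map Θ Φ F
    have e2 : Θ F ∈ Flag.map Θ Φ ↔ H (Θ F) ∈ Flag.map Θ (Flag.map G Φ) := by
      rw [hh2]
      constructor
      · rintro ⟨G', hG', h'⟩
        have : G' = H (Θ F) := Subtype.ext (h'.trans (hH _).symm)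
        rwa [← this]
      · intro h'
        exact ⟨_, h', hH _⟩
    have e3 : H (Θ F) ∈ Flag.map Θ (Flag.map G Φ) ↔ Θ.symm (H (Θ F)) ∈ Flag.map G Φ := by
      rw [mem_map Θ (Flag.map G Φ) (Θ.symm (H (Θ F))), Θ.apply_symm_apply]
    have e4 : Θ.symm (H (Θ F)) ∈ Flag.map G Φ ↔ α F ∈ Φ := by
      rw [mem_map G Φ (α F), hα1, G.apply_symm_apply]
    exact e1.trans (e2.trans (e3.trans e4))
  have hne : ∀ s, (cF s).1 ≠ univ := by
    intro s hs
    have h1 : cube = univ := by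
      apply Set.eq_univ_of_univ_subset
      rw [← hs]; exact fun x hx => hx.1
    exact (fnb Tl lfc).2.2 cube (Bas.cube_mem cti) h1
  have hfix : ∀ s, cF s ∈ Φ → α (cF s) = cF s := by
    intro s hs
    exact fix _ (Φ : Set (FaceLat (d := 3) Tl)) Φ.chain_le α hαΦ (cF s) hs
      ((fnb Tl lfc).1 (cF s) (hne s))
  have f1 := hfix _ (hcΦ (cF ![1, 1, 1]) (by simp [c]))
  have f2 := hfix _ (hcΦ (cF ![1, 0, 1]) (by simp [c]))
  have f3 := hfix _ (hcΦ (cF ![0, 0, 1]) (by simp [c]))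
  have hrig := rig α (by
    intro F hF
    rcases hF with h' | h' | h'
    · have : F = cF ![1, 1, 1] := Subtype.ext h'
      rw [this]; exact f1
    · have : F = cF ![1, 0, 1] := Subtype.ext h'
      rw [this]; exact f2
    · have : F = cF ![0, 0, 1] := Subtype.ext h'
      rw [this]; exact f3)
  refine ⟨h, ?_⟩
  intro x hx F hF y hy
  have hαF : α F = F := by
    simp only [Set.mem_insert_iff, Set.mem_singleton_iff] at hx
    rcases hx with rfl | rfl | rfl | rfl
    · have : F = cF ![1, 1, 1] := Subtype.ext (hF.trans (Ver.cface_P cfl).symm)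
      rw [this]; exact f1
    · exact hrig F (Or.inl (hF.trans (Ver.cface_A cfl).symm))
    · exact hrig F (Or.inr (Or.inl (hF.trans (Ver.cface_B cfl).symm)))
    · exact hrig F (Or.inr (Or.inr (hF.trans (Ver.cface_D cfl).symm)))
  have h1 : H (Θ F) = Θ (G F) := by
    have : Θ.symm (H (Θ F)) = G F := by
      rw [← hαF, hα1] 
      rw [G.apply_symm_apply]
      rw [← hα1, hαF]
    rw [← this, Θ.apply_symm_apply]
  have h2 : (H (Θ F)).1 = {h (θ x)} := by
    rw [hH, hθ F x hF, Set.image_singleton]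
  have h3 : (Θ (G F)).1 = {θ y} := hθ (G F) y hy
  rw [h1, h3] at h2
  exact (Set.singleton_injective h2).symm

end Pool.Agent.Q293.RT.JTRK
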