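import Pool.Agent.Q293.RT.Bas

namespace Pool.Agent.Q293.RT.JVTX
open Pool.Agent.Q293.RT
open Set

theorem main : S_VTX_job := by
  intro atm T' hT' Θ
  have hbT : (∅ : Set E) ∈ Faces (d := 3) Tl := Or.inl rfl
  have hbT' : (∅ : Set E) ∈ Faces (d := 3) T' := Or.inl rfl
  have hbot : Θ ⟨∅, hbT⟩ = ⟨∅, hbT'⟩ := by
    apply le_antisymm
    · have h1 : (⟨∅, hbT⟩ : FaceLat (d := 3) Tl) ≤ Θ.symm ⟨∅, hbT'⟩ :=
        show (∅ : Set E) ⊆ _ from Set.empty_subset _
      have := Θ.monotone h1
      rwa [Θ.apply_symm_apply] at this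
    · show (∅ : Set E) ⊆ _
      exact Set.empty_subset _
  have key : ∀ w : E, ∃ x : E, ∀ F : FaceLat (d := 3) Tl, F.1 = {w} → (Θ F).1 = {x} := by
    intro w
    by_cases hex : ∃ F : FaceLat (d := 3) Tl, F.1 = {w}
    · obtain ⟨F, hF⟩ := hex
      have hne : (Θ F).1.Nonempty := by
        rw [Set.nonempty_iff_ne_empty]
        intro h
        have h1 : Θ F = Θ ⟨∅, hbT⟩ := by
          rw [hbot]; exact Subtype.ext h
        have h2 : F = ⟨∅, hbT⟩ := Θ.injective h1
        have h3 : ({w} : Set E) = ∅ := by rw [← hF, h2]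
        exact Set.singleton_ne_empty w h3
      obtain ⟨x, hx⟩ := atm T' hT' (Θ F) hne (by
        intro G hG hle
        have h1 : Θ.symm G ≤ F := by
          have := Θ.symm.monotone hle
          rwa [Θ.symm_apply_apply] at this
        have h2 : (Θ.symm G).1 ⊆ {w} := by rw [← hF]; exact h1
        rcases Set.subset_singleton_iff_eq.1 h2 with h3 | h3
        · exfalso
          have h4 : Θ.symm G = ⟨∅, hbT⟩ := Subtype.ext h3
          have h5 : G = Θ ⟨∅, hbT⟩ := by rw [← h4, Θ.apply_symm_apply]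
          rw [hbot] at h5
          rw [h5] at hG
          exact Set.not_nonempty_empty hG
        · have h4 : Θ.symm G = F := Subtype.ext (h3.trans hF.symm)
          rw [← h4, Θ.apply_symm_apply])
      refine ⟨x, fun F' hF' => ?_⟩
      have : F' = F := Subtype.ext (hF'.trans hF.symm)
      rw [this]; exact hx
    · exact ⟨0, fun F hF => absurd ⟨F, hF⟩ hex⟩
  choose θ hθ using key
  exact ⟨θ, fun F w h => hθ w F h⟩

end Pool.Agent.Q293.RT.JVTX
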