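import Pool.Agent.Q293.RT.Defs

/-!
# PROJECT RT (MP_389659_co): statements of the jobs

We build an LFC tiling of Euclidean 3-space whose face lattice is that of the hyperbolic
honeycomb `{4,3,5}`; it is combinatorially regular and not isomorphic to a regular tiling.

`ph` is the golden ratio, `ps` its conjugate.  `M = ℝ × E` carries the Lorentz form
`B y z = -ph y₀ z₀ + Σ y_i z_i`.  The group `{γ | IsSym γ}` contains the signed permutations of the
space coordinates and the reflection `s : (t; x₀, x₁, x₂) ↦ (ph t - x₀; ph t - ph x₀, x₁, x₂)`.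
`VV` is the orbit of `vs = (1; 0,0,0)`.  A tile is
`tile D u = {x | ∀ u' ∈ D, ell u' x ≤ ell u x}` where `t = ell u x` is the solution of
`B (t, x) u = - ph ^ 2`.
-/

namespace Pool.Agent.Q293.RT

open Set

/-- Euclidean space. -/
abbrev E : Type := EuclideanSpace ℝ (Fin 3)

/-- Space-time. -/
abbrev M : Type := ℝ × E

/-- golden ratio -/
noncomputable abbrev ph : ℝ := Real.goldenRatio
/-- conjugate of the golden ratio -/
noncomputable abbrev ps : ℝ := Real.goldenConj

/-- The Lorentz form. -/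
noncomputable def B (y z : M) : ℝ := -(ph * y.1 * z.1) + ∑ i, y.2 i * z.2 i

/-- Future causal vectors. -/
def Fut (y : M) : Prop := 0 < y.1 ∧ B y y ≤ 0

/-- Coordinates in `ℤ[ph]`. -/
def Coord (y : M) (a₀ b₀ : ℤ) (a b : Fin 3 → ℤ) : Prop :=
  y.1 = a₀ + b₀ * ph ∧ ∀ i, y.2 i = a i + b i * ph

/-- The conjugate form. -/
noncomputable def cform (a₀ b₀ : ℤ) (a b : Fin 3 → ℤ) : ℝ :=
  -(ps * ((a₀ : ℝ) + b₀ * ps) ^ 2) + ∑ i, ((a i : ℝ) + b i * ps) ^ 2

/-- Arithmetic type of the centres. -/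
def PV (y : M) : Prop := ∃ (a₀ b₀ : ℤ) (a b : Fin 3 → ℤ), Coord y a₀ b₀ a b ∧
  cform a₀ b₀ a b = -ps

/-- Arithmetic type of the vertices. -/
def PW (y : M) : Prop := ∃ (a₀ b₀ : ℤ) (a b : Fin 3 → ℤ), Coord y a₀ b₀ a b ∧
  cform a₀ b₀ a b = 2 - 2 * ps ∧ Even a₀ ∧ Odd b₀ ∧ ∀ i, Odd (a i) ∧ Even (b i)

/-- Invariance properties. -/
structure Pre (γ : M ≃ₗ[ℝ] M) : Prop where
  form : ∀ y z, B (γ y) (γ z) = B y z
  fut : ∀ y, Fut y → Fut (γ y)
  pv : ∀ y, PV y → PV (γ y)
  pw : ∀ y, PW y → PW (γ y)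

/-- The symmetries. -/
def IsSym (γ : M ≃ₗ[ℝ] M) : Prop := Pre γ ∧ Pre γ.symm

theorem IsSym.refl : IsSym (LinearEquiv.refl ℝ M) :=
  ⟨⟨fun _ _ => rfl, fun _ h => h, fun _ h => h, fun _ h => h⟩,
    ⟨fun _ _ => rfl, fun _ h => h, fun _ h => h, fun _ h => h⟩⟩

theorem IsSym.symm {γ : M ≃ₗ[ℝ] M} (h : IsSym γ) : IsSym γ.symm := ⟨h.2, h.1⟩

theorem Pre.trans {γ δ : M ≃ₗ[ℝ] M} (h : Pre γ) (k : Pre δ) : Pre (γ.trans δ) :=
  ⟨fun y z => (k.form _ _).trans (h.form _ _), fun _ hy => k.fut _ (h.fut _ hy),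
    fun _ hy => k.pv _ (h.pv _ hy), fun _ hy => k.pw _ (h.pw _ hy)⟩

theorem IsSym.trans {γ δ : M ≃ₗ[ℝ] M} (h : IsSym γ) (k : IsSym δ) : IsSym (γ.trans δ) :=
  ⟨h.1.trans k.1, k.2.trans h.2⟩

/-- The base centre. -/
def vs : M := (1, 0)

/-- The orbit of the base centre. -/
def VV : Set M := {v | ∃ γ : M ≃ₗ[ℝ] M, IsSym γ ∧ γ vs = v}

/-- `t = ell u x` solves `B (t, x) u = - ph ^ 2`. -/
noncomputable def ell (u : M) (x : E) : ℝ := (ph ^ 2 + ∑ i, x i * u.2 i) / (ph * u.1)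

/-- The tile of `u` in the family `D`. -/
def tile (D : Set M) (u : M) : Set E := {x | ∀ u' ∈ D, ell u' x ≤ ell u x}

/-- Admissible families. -/
def Good (D : Set M) : Prop :=
  VV ⊆ D ∧ (∀ u ∈ D, Fut u) ∧ ∀ R : ℝ, {u | u ∈ D ∧ u.1 ≤ R}.Finite

/-- `g` agrees with an affine map on `P`. -/
def Aff (g : E → E) (P : Set E) : Prop := ∃ A : E →ᵃ[ℝ] E, ∀ x ∈ P, g x = A x

/-- The cube. -/
def cube : Set E := {x | ∀ i, |x i| ≤ 1}

/-- The nonempty faces of the cube. -/
def cface (s : Fin 3 → SignType) : Set E := {x | (∀ i, |x i| ≤ 1) ∧ ∀ i, s i ≠ 0 → x i = (s i : ℝ)}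

/-- The tiling. -/
def Tl : Set (Set E) := {P | ∃ v ∈ VV, P = tile VV v}

/-! ### Jobs on the group and the arithmetic -/

/-- JOB GS.  The reflection `s`.  Define the linear map by the formula, it is an involution
(`ph ^ 2 = ph + 1`), build the LinearEquiv with `LinearEquiv.ofInvolutive`.
`form`: `-ph (ph t - x₀)(ph t' - x₀') + (ph t - ph x₀)(ph t' - ph x₀') = -ph t t' + x₀ x₀'` by
`ph^2 = ph+1` (ring_nf / linear_combination).  `fut`: if `t > 0`, `Σ x_i² ≤ ph t²` then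
`x₀² ≤ ph t² < ph² t²` so `ph t - x₀ > 0`.  `pv`: from `(a₀,b₀,a,b)` the new coordinates are
`t' = (b₀ - a 0) + (a₀ + b₀ - b 0) ph`, `x₀' = (b₀ - b 0) + (a₀ + b₀ - a 0 - b 0) ph`, and the
conjugate form is preserved because `ps ^ 2 = ps + 1`.  `pw`: same with parities.  The inverse is
the same map. -/
def S_GS : Prop := ∃ γ : M ≃ₗ[ℝ] M, IsSym γ ∧ ∀ y : M, (γ y).1 = ph * y.1 - y.2 0 ∧
  (γ y).2 0 = ph * y.1 - ph * y.2 0 ∧ (γ y).2 1 = y.2 1 ∧ (γ y).2 2 = y.2 2

/-- JOB GP.  The signed permutations: `(γ y).1 = y.1`, `(γ y).2 i = e i * y.2 (σ i)`. -/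
def S_GP : Prop := ∀ (σ : Equiv.Perm (Fin 3)) (e : Fin 3 → SignType), (∀ i, e i ≠ 0) →
  ∃ γ : M ≃ₗ[ℝ] M, IsSym γ ∧ ∀ y : M, (γ y).1 = y.1 ∧ ∀ i, (γ y).2 i = (e i : ℝ) * y.2 (σ i)

/-- JOB F1.  A future vector `w` of vertex type has `w₀ ≥ ph`.  `w₀ = a₀ + b₀ ph > 0` with `a₀`
even, `b₀` odd; the conjugate `c = a₀ + b₀ ps` satisfies `-ps c² ≤ 2 - 2 ps`, i.e.
`c² ≤ 2 ph²` (`-ps = 1/ph`), so `|c| < 2.3`.  If `w₀ < ph`, then `b₀ √5 = w₀ - c` gives
`-1.03 < b₀ < 1.76`, so `b₀ = -1` or `1`.  If `b₀ = -1` then `a₀ > ph`, so `a₀ ≥ 2` and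
`c = a₀ - ps > 2.6`: contradiction.  If `b₀ = 1` then `a₀ > -ph > -2` so `a₀ ≥ 0` and `w₀ ≥ ph`. -/
def S_F1 : Prop := ∀ w : M, Fut w → PW w → ph ≤ w.1

/-- JOB F3.  There are finitely many future vectors of centre type with bounded time coordinate:
conjugates are bounded by 1 (`cform = -ps` and `0 < -ps < 1`), the coordinates are bounded
(`Σ x_i² ≤ ph t²`), so all the integers are bounded (`b √5 = (a + b ph) - (a + b ps)`). -/
def S_F3 : Prop := ∀ R : ℝ, {v : M | PV v ∧ Fut v ∧ v.1 ≤ R}.Finite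

/-- JOB F2 (use S_GS and S_GP as hypotheses).  A null future vector `y` can be moved to a vector
with arbitrarily small time coordinate.  `ph y₀² = Σ y_i²`; take `i` with the largest `|y_i|`, so
`y_i² ≥ ph y₀²/3 ≥ 0.5333 y₀²` (`ph ≥ 1.6`), so `|y_i| ≥ 0.72 y₀`.  By a signed permutation move it
to coordinate 0 with positive sign (time unchanged), then apply `s`: new time
`ph y₀ - |y_i| ≤ (1.62 - 0.72) y₀ = 0.9 y₀`.  The result is again null and future.  Iterate:
by induction on `n` there is `γ` with `(γ y).1 ≤ 0.9 ^ n * y.1`. -/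
def S_F2 : Prop := ∀ y : M, 0 < y.1 → B y y = 0 → ∀ ε : ℝ, 0 < ε →
  ∃ γ : M ≃ₗ[ℝ] M, IsSym γ ∧ (γ y).1 < ε

def S_F2_job : Prop := S_GS → S_GP → S_F2

/-! ### Jobs: the envelope -/

/-- JOB BEL.  Cauchy-Schwarz: `Σ x_i u_i ≤ ‖x‖ ‖u.2‖` and `‖u.2‖² = Σ u_i² ≤ ph u₀²`. -/
def S_BEL : Prop := ∀ u : M, Fut u → ∀ x : E, ell u x ≤ ph / u.1 + ‖x‖ / √ph

/-- JOB ABV (use S_F2).  For `x = 0` take `v = vs`: `ell vs 0 = ph > 0`.  For `x ≠ 0` put
`y = (‖x‖/√ph, x)`, a null vector with `y₀ > 0`; take `γ` with `(γ y)₀ < ph`, `v = γ⁻¹ vs ∈ VV`.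
`B y v = B (γ y) vs = -ph (γ y)₀ > - ph ^ 2`, i.e. `ell v x > y₀` (`v₀ > 0` since `v` is future:
`Fut vs` holds and `γ⁻¹` preserves `Fut`). -/
def S_ABV : Prop := ∀ x : E, ∃ v ∈ VV, ‖x‖ / √ph < ell v x

def S_ABV_job : Prop := S_F2 → S_ABV

/-- JOB GDV (use S_F3).  `VV` is admissible: `vs` is future and of centre type, both are
preserved. -/
def S_GDV : Prop := Good VV

def S_GDV_job : Prop := S_F3 → S_GDV

/-- JOB MAX (use S_BEL, S_ABV).  The maximum is attained: choose `v₁ ∈ VV ⊆ D` with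
`ell v₁ x > ‖x‖/√ph`, `δ` = difference.  Any `u ∈ D` with `ell u x ≥ ell v₁ x` has `u₀ ≤ ph/δ`:
finitely many, and the maximum over this finite nonempty set is the maximum over `D`. -/
def S_MAX : Prop := ∀ D : Set M, Good D → ∀ x : E, ∃ u ∈ D, x ∈ tile D u

def S_MAX_job : Prop := S_BEL → S_ABV → S_MAX

/-- JOB LOC (use S_BEL, S_ABV).  Local finiteness.  For every point `x₀` there are `v₁ ∈ VV` and
`δ > 0` and a neighbourhood `U` of `x₀` on which `ell v₁ y - ‖y‖/√ph ≥ δ` (continuity); any `u ∈ D`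
whose tile meets `U` has `u₀ ≤ ph/δ`, so finitely many.  The closed ball is compact. -/
def S_LOC : Prop := ∀ D : Set M, Good D → ∀ (x : E) (r : ℝ),
  {u | u ∈ D ∧ (tile D u ∩ Metric.closedBall x r).Nonempty}.Finite

def S_LOC_job : Prop := S_BEL → S_ABV → S_LOC

/-- JOB ACT.  The action on the envelope.  `D` a family with `u₀ > 0` for `u ∈ D` and attained
maximum; `γ` preserves `B` and `D`.  For `x ∈ tile D u` put `h x = ell u x` (the maximum, it does
not depend on `u`), `Λ x = (h x, x)`.  For `x : E`, `t : ℝ`: `t = h x` iff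
(`∀ u ∈ D, B (t,x) u ≤ -ph²` and `∃ u ∈ D, B (t,x) u = -ph²`), and `x ∈ tile D u` iff
`B (Λ x) u = -ph²`.  These conditions are invariant under `γ` and `D`, so
`γ (Λ x) = Λ ((γ (Λ x)).2)`; `g x = (γ (Λ x)).2` is a bijection with inverse
`x ↦ (γ⁻¹ (Λ x)).2`. -/
def S_ACT : Prop := ∀ D : Set M, (∀ u ∈ D, 0 < u.1) → (∀ x : E, ∃ u ∈ D, x ∈ tile D u) →
  ∀ γ : M ≃ₗ[ℝ] M, (∀ y z, B (γ y) (γ z) = B y z) → (∀ u, u ∈ D ↔ γ u ∈ D) →
  ∃ g : E ≃ E, (∀ u ∈ D, g '' tile D u = tile D (γ u)) ∧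
    (∀ u ∈ D, ∀ x ∈ tile D u, g x = (γ (ell u x, x)).2) ∧
    (∀ u ∈ D, ∀ x ∈ tile D u, g.symm x = (γ.symm (ell u x, x)).2)

/-- JOB AFL.  The local formula is affine. -/
def S_AFL : Prop := ∀ (γ : M ≃ₗ[ℝ] M) (u : M), ∃ A : E →ᵃ[ℝ] E, ∀ x : E, (γ (ell u x, x)).2 = A x

/-- JOB PLY.  Affine bijections on a polytope: images of polytopes are polytopes and images of sets
with interior points have interior points (`A` is injective on an open set, so its linear part is
injective, so `A` is an open map).  Convexity of `P` is not needed. -/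
def S_PLY : Prop := ∀ (g : E ≃ E) (P : Set E), Aff g P →
  ((∃ s : Finset E, P = convexHull ℝ (s : Set E)) →
    ∃ s : Finset E, g '' P = convexHull ℝ (s : Set E)) ∧
  ((interior P).Nonempty → (interior (g '' P)).Nonempty)

/-- JOB TLG (use S_MAX, S_LOC).  The tiles of an admissible family form an LFC tiling as soon as
every tile is a polytope with interior points.  Face-to-face: on `tile D u` the affine function
`ell u - ell u'` is nonnegative and `tile D u ∩ tile D u'` is its zero set; `tile D u'` is convex.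
Different tiles: `u ≠ u'`, then `ell u ≠ ell u'` as functions (`ell u 0` determines `u₀`), the zero
set of `ell u - ell u'` has empty interior, hence disjoint interiors (the interior of `tile D u ∩
tile D u'` is empty). -/
def S_TLG : Prop := ∀ D : Set M, Good D →
  (∀ u ∈ D, (∃ s : Finset E, tile D u = convexHull ℝ (s : Set E)) ∧
    (interior (tile D u)).Nonempty) →
  IsLFCTiling (d := 3) {P | ∃ u ∈ D, P = tile D u}

def S_TLG_job : Prop := S_MAX → S_LOC → S_TLG

/-- JOB CTI (use S_F1, S_GS, S_GP).  The base tile is the cube.  `ell vs x = ph`.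
(⊆) `(ph; ± ph e_i) ∈ VV` (image of `vs` under `s` and a signed permutation), `ell` of it at `x` is
`1 ± x_i/ph ≤ ph` gives `± x_i ≤ ph (ph - 1) = 1`.
(⊇) for `v = γ vs ∈ VV`, `x` in the cube: `Σ x_i v_i ≤ Σ |v_i| = Σ w_i v_i` for a vertex
`w = (ph; ±1,±1,±1)`; `w` is future and of type `PW` (`a₀ = 0, b₀ = 1, a_i = ±1, b_i = 0`), so is
`γ⁻¹ w`, hence `(γ⁻¹ w)₀ ≥ ph`, `B w v = B (γ⁻¹ w) vs = - ph (γ⁻¹ w)₀ ≤ -ph²`, and so
`ph² + Σ |v_i| ≤ ph² v₀`, i.e. `ell v x ≤ ph`. -/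
def S_CTI : Prop := tile VV vs = cube

def S_CTI_job : Prop := S_F1 → S_GS → S_GP → S_CTI

/-- JOB CHU.  The cube is the convex hull of finitely many points and has interior points. -/
def S_CHU : Prop := (∃ s : Finset E, cube = convexHull ℝ (s : Set E)) ∧ (interior cube).Nonempty

/-! ### Jobs: automorphisms -/

/-- JOB AUT.  A bijection which maps tiles to tiles and is affine on the tiles (in both directions)
induces an automorphism of the face lattice.  If `F` is a face of `P ∈ T` then `g '' F` is a face of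
`g '' P ∈ T`: convex as an affine image; extreme: pull back an open segment of `g '' P` by `g⁻¹`,
which is affine on `g '' P`. -/
def S_AUT : Prop := ∀ (T : Set (Set E)) (g : E ≃ E),
  (∀ P ∈ T, g '' P ∈ T ∧ g.symm '' P ∈ T) → (∀ P ∈ T, Aff g P ∧ Aff g.symm P) →
  ∃ G : FaceLat (d := 3) T ≃o FaceLat (d := 3) T, ∀ F, (G F : Set E) = g '' (F : Set E)

/-- JOB ISO (use S_AUT).  Isometries mapping the tiling onto itself induce automorphisms
(Mazur-Ulam: `IsometryEquiv.toRealAffineIsometryEquiv`). -/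
def S_ISO : Prop := ∀ (T : Set (Set E)) (h : E ≃ᵢ E), (∀ P : Set E, P ∈ T ↔ h '' P ∈ T) →
  ∃ H : FaceLat (d := 3) T ≃o FaceLat (d := 3) T, ∀ F, (H F : Set E) = h '' (F : Set E)

def S_ISO_job : Prop := S_AUT → S_ISO

/-! ### Jobs: general facts about LFC tilings -/

/-- JOB POL.  A face of a polytope is the hull of the vertices it contains: if
`x = Σ w_y y ∈ F`, `w_y > 0`, then `y ∈ F` (`w_y = 1` or `x ∈ openSegment y z` with `z` the
normalised sum of the others). -/
def S_POL : Prop := ∀ (s : Finset E) (F : Set E), IsFace (d := 3) (convexHull ℝ (s : Set E)) F →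
  F = convexHull ℝ ((s : Set E) ∩ F)

/-- JOB FIT.  Faces contained in a tile are faces of it; a face containing a tile is the tile or
the whole space.  First: `F` face of `Q`, `F ⊆ P`: `F` is extreme in `Q`, hence in `Q ∩ P`
(`IsExtreme.mono`), which is extreme in `P`; transitivity.  `F = univ ⊆ P`: `F = P`.
Second: `P ⊆ F`, `F` a face of `Q`: then `P ⊆ Q`, if `P ≠ Q` the interiors are disjoint, but
`interior P ⊆ interior Q` is nonempty; so `P = Q` and `F ⊆ Q = P`. -/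
def S_FIT : Prop := ∀ T : Set (Set E), IsLFCTiling (d := 3) T → ∀ P ∈ T, ∀ F ∈ Faces (d := 3) T,
  (F ⊆ P → IsFace (d := 3) P F) ∧ (P ⊆ F → F = P ∨ F = univ)

/-- JOB FNB (use S_POL, S_FIT).  A face different from the whole space has finitely many faces
below it; a nonempty face has finitely many faces, other than the whole space, above it (finitely
many tiles contain a given point, and each tile has finitely many faces).  No tile is the whole
space (a polytope is compact). -/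
def S_FNB : Prop := ∀ T : Set (Set E), IsLFCTiling (d := 3) T →
  (∀ F : FaceLat (d := 3) T, F.1 ≠ univ → {G : FaceLat (d := 3) T | G ≤ F}.Finite) ∧
  (∀ F : FaceLat (d := 3) T, F.1.Nonempty →
    {G : FaceLat (d := 3) T | F ≤ G ∧ G.1 ≠ univ}.Finite) ∧
  ∀ P ∈ T, P ≠ univ

def S_FNB_job : Prop := S_POL → S_FIT → S_FNB

/-- JOB TIL (use S_FNB).  Every flag contains a tile: a flag contains `∅` and `univ`; it contains
a further element `F` (otherwise add a tile), which is nonempty and not `univ`; the elements `G ≠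
univ` of the flag above `F` are finitely many, let `F₁` be the largest one; `F₁` is a face of a
tile `P`, and `P` is comparable with all elements of the flag, so `P` is in the flag. -/
def S_TIL : Prop := ∀ T : Set (Set E), IsLFCTiling (d := 3) T →
  ∀ Φ : Flag (FaceLat (d := 3) T), ∃ F ∈ Φ, (F : Set E) ∈ T

def S_TIL_job : Prop := S_FNB → S_TIL

/-- JOB FIX.  An order automorphism preserving a chain (as a set) fixes every element of the chain
which has finitely many elements below it.  (If `α x < x` then the iterates of `α` at `x` are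
strictly decreasing in the finite set `Iic x`; if `x < α x` use the inverse.) -/
def S_FIX : Prop := ∀ (X : Type) [PartialOrder X] (C : Set X), IsChain (· ≤ ·) C →
  ∀ α : X ≃o X, (∀ x, x ∈ C ↔ α x ∈ C) → ∀ x ∈ C, (Set.Iic x).Finite → α x = x

/-- JOB ATM (use S_POL).  Minimal nonempty faces are points.  `F` is not `univ` (there is a tile
and tiles are compact, so a tile is a smaller nonempty face).  So `F` is a face of a tile `P`, by
S_POL the hull of a finite nonempty set, it is compact, take an extreme point `x` of `F`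
(`IsCompact.extremePoints_nonempty`); `{x}` is a face of `P`. -/
def S_ATM : Prop := ∀ T : Set (Set E), IsLFCTiling (d := 3) T → ∀ F : FaceLat (d := 3) T,
  F.1.Nonempty → (∀ G : FaceLat (d := 3) T, G.1.Nonempty → G ≤ F → G = F) → ∃ x : E, F.1 = {x}

def S_ATM_job : Prop := S_POL → S_ATM

/-- JOB DIM.  A proper nonempty face has smaller dimension: otherwise the affine spans agree; take
`x` in the relative interior of `F` (`Set.Nonempty.intrinsicInterior`), `y ∈ P`; then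
`z = x + ε (x - y) ∈ F` for small `ε > 0` and `x ∈ openSegment y z`, so `y ∈ F`; hence `F = P`. -/
def S_DIM : Prop := ∀ P F : Set E, Convex ℝ P → IsFace (d := 3) P F → F ≠ P → F.Nonempty →
  Module.finrank ℝ (vectorSpan ℝ F) < Module.finrank ℝ (vectorSpan ℝ P)

/-- JOB COP (use S_DIM).  Faces strictly below a face which is not the whole space have dimension
at most 2: `P` is a face of a tile `Q` (so convex), `F ⊆ P` is a face of some tile, contained in
`Q`, so (S_FIT) a face of `Q` and of `P`. -/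
def S_COP : Prop := ∀ T : Set (Set E), IsLFCTiling (d := 3) T → ∀ F P : FaceLat (d := 3) T,
  F < P → P.1 ≠ univ → F.1.Nonempty → Module.finrank ℝ (vectorSpan ℝ F.1) ≤ 2

def S_COP_job : Prop := S_DIM → S_FIT → S_COP

/-! ### Jobs: the cube and the standard flag -/

/-- JOB CUF.  The faces of the cube.  A nonempty face `F`: `s i = 1` if `x i = 1` for all `x ∈ F`,
`s i = -1` if `x i = -1` for all `x ∈ F`, else `0`.  `F ⊆ cface s`.  By averaging there is `x ∈ F`
with `|x i| < 1` for all `i` with `s i = 0`.  Given `q ∈ cface s` the point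
`q' = x + ε (x - q)` is in the cube for small `ε > 0`, and `x ∈ openSegment q q'`, so `q ∈ F`.
Conversely `cface s` is convex and extreme. -/
def S_CUF : Prop := ∀ F : Set E, IsFace (d := 3) cube F ↔ F = ∅ ∨ ∃ s, F = cface s

/-- JOB CFL.  Inclusions between the faces of the cube (in particular `cface` is injective), and
the vertices. -/
def S_CFL : Prop := (∀ s s' : Fin 3 → SignType, cface s ⊆ cface s' ↔ ∀ i, s' i ≠ 0 → s i = s' i) ∧
  (∀ s, (cface s).Nonempty) ∧ cface 0 = cube ∧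
  ∀ s : Fin 3 → SignType, (∀ i, s i ≠ 0) → cface s = {!₂[(s 0 : ℝ), (s 1 : ℝ), (s 2 : ℝ)]}

/-- JOB CMB.  Pure combinatorics of sign vectors, `s ≼ s'` meaning `∀ i, s' i ≠ 0 → s i = s' i`.
A maximal chain can be brought to the standard one by a signed permutation.  (A minimal element
`m` of the chain has no zero entry, otherwise replace a zero by `1`; flip signs so that `m = 1`; all
the other elements then have entries in `{0, 1}`, the zero sets form a maximal chain of subsets of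
`Fin 3`; permute.) -/
def S_CMB : Prop := ∀ K : Set (Fin 3 → SignType),
  (∀ s ∈ K, ∀ s' ∈ K, (∀ i, s' i ≠ 0 → s i = s' i) ∨ (∀ i, s i ≠ 0 → s' i = s i)) →
  (∀ s, (∀ s' ∈ K, (∀ i, s' i ≠ 0 → s i = s' i) ∨ (∀ i, s i ≠ 0 → s' i = s i)) → s ∈ K) →
  ∃ (σ : Equiv.Perm (Fin 3)) (e : Fin 3 → SignType), (∀ i, e i ≠ 0) ∧
    ∀ s, s ∈ K ↔ (fun i => e i * s (σ i)) ∈
      ({![1, 1, 1], ![1, 0, 1], ![0, 0, 1], ![0, 0, 0]} : Set (Fin 3 → SignType))

/-- The standard flag, as a family of sets. -/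
def C0 : Set (Set E) :=
  {∅, cface ![1, 1, 1], cface ![1, 0, 1], cface ![0, 0, 1], cface ![0, 0, 0], univ}

/-- Automorphisms of the tiling coming from the group. -/
def S_AUG : Prop := ∀ γ : M ≃ₗ[ℝ] M, IsSym γ →
  ∃ (G : FaceLat (d := 3) Tl ≃o FaceLat (d := 3) Tl) (g : E ≃ E),
    (∀ F, (G F : Set E) = g '' (F : Set E)) ∧
    (∀ v ∈ VV, g '' tile VV v = tile VV (γ v)) ∧
    ∀ v ∈ VV, ∀ x ∈ tile VV v, g x = (γ (ell v x, x)).2

/-- JOB AUG: assembly of S_AUG. -/
def S_AUG_job : Prop := S_GDV → S_MAX → S_ACT → S_AFL → S_AUT → S_AUG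

/-- The tiling is LFC. -/
def S_LFC : Prop := IsLFCTiling (d := 3) Tl

/-- JOB LFC: assembly of S_LFC (`tile VV (γ vs) = g '' cube`). -/
def S_LFC_job : Prop := S_GDV → S_MAX → S_ACT → S_AFL → S_PLY → S_CTI → S_CHU → S_TLG → S_LFC

/-- JOB MOV.  A flag containing the cube can be moved to the standard flag: the other elements
`≠ univ` of the flag are faces of the cube (S_FIT: comparable with the cube); let
`K = {s | cface s ∈ Φ}`; it is a maximal chain of sign vectors; take `σ, e` from S_CMB, `γ` from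
S_GP, `G` from S_AUG; `g x = (i ↦ e i * x (σ i))` on the cube and maps `cface s` to
`cface (fun i => e i * s (σ i))`.  `∅, univ ∈ Φ` since they are comparable with everything. -/
def S_MOV : Prop := ∀ Φ : Flag (FaceLat (d := 3) Tl), (∃ F ∈ Φ, F.1 = cube) →
  ∃ G : FaceLat (d := 3) Tl ≃o FaceLat (d := 3) Tl, ∀ F, F ∈ Φ ↔ (G F).1 ∈ C0

def S_MOV_job : Prop := S_LFC → S_CTI → S_FIT → S_CUF → S_CFL → S_CMB → S_GP → S_AUG → S_MOV

/-- JOB CRE.  The tiling is combinatorially regular: a flag contains a tile `tile VV (γ vs)`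
(S_TIL), move it to the cube with the automorphism of `γ⁻¹` (S_AUG), then S_MOV. -/
def S_CRE : Prop := CombRegular (d := 3) Tl

def S_CRE_job : Prop := S_LFC → S_TIL → S_CTI → S_AUG → S_MOV → S_CRE

/-! ### Jobs: non-isomorphism -/

/-- the vertex `p` -/
noncomputable def P0 : E := !₂[1, 1, 1]
/-- the vertex `a` -/
noncomputable def A0 : E := !₂[1, -1, 1]
/-- the vertex `b` -/
noncomputable def B0 : E := !₂[-1, 1, 1]
/-- the vertex `d` opposite to `p` in the square `p a d b` -/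
noncomputable def D0 : E := !₂[-1, -1, 1]
/-- the vertex `q` -/
noncomputable def Q0 : E := !₂[1, 1, -1]
/-- third neighbour -/
noncomputable def C3 : E := !₂[ph ^ 3, 1, 1]
/-- fourth neighbour -/
noncomputable def C4 : E := !₂[ph ^ 3, ph ^ 3, 1]
/-- fifth neighbour -/
noncomputable def C5 : E := !₂[1, ph ^ 3, 1]

/-- JOB VTX (use S_ATM).  An isomorphism maps vertices to vertices.  `Θ` maps the empty face to
the empty face (least elements), hence nonempty faces to nonempty faces; `{w}` is minimal among the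
nonempty faces, so is its image, a point by S_ATM. -/
def S_VTX : Prop := ∀ T' : Set (Set E), IsLFCTiling (d := 3) T' →
  ∀ Θ : FaceLat (d := 3) Tl ≃o FaceLat (d := 3) T', ∃ θ : E → E,
    ∀ (F : FaceLat (d := 3) Tl) (w : E), F.1 = {w} → (Θ F).1 = {θ w}

def S_VTX_job : Prop := S_ATM → S_VTX

/-- JOB RIG.  An automorphism fixing `{p} < [p,a] < R` fixes `{a}, {b}, {d}`.  Faces below `R` are
`∅` or `cface s` with `s 2 = 1` (S_FIT, S_CUF, S_CFL).  `α {a}` is a minimal nonempty face below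
`[p,a]`, different from `{p}`; so it is `{a}`.  The edge `[p,b] = cface ![0,1,1]`: its image is a
face strictly between `{p}` and `R`, different from `[p,a]`, hence `[p,b]`; so `{b}` is fixed; `{d}`
is the remaining vertex. -/
def S_RIG : Prop := ∀ α : FaceLat (d := 3) Tl ≃o FaceLat (d := 3) Tl,
  (∀ F : FaceLat (d := 3) Tl, F.1 = cface ![1, 1, 1] ∨ F.1 = cface ![1, 0, 1] ∨
    F.1 = cface ![0, 0, 1] → α F = F) →
  ∀ F : FaceLat (d := 3) Tl, F.1 = cface ![1, -1, 1] ∨ F.1 = cface ![-1, 1, 1] ∨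
    F.1 = cface ![-1, -1, 1] → α F = F

def S_RIG_job : Prop := S_LFC → S_CTI → S_FIT → S_CUF → S_CFL → S_RIG

/-- JOB TRK.  Let `T'` be regular and isomorphic to `Tl`, `G` an automorphism of `Tl`.  There is an
isometry `h` (of `T'`) which agrees with `G` on the four vertices of `R`.  Take a flag `Φ` containing
the faces `cface ![1,1,1] < cface ![1,0,1] < cface ![0,0,1] < cube` (extend the chain to a maximal
chain, `IsChain.exists_maxChain` or similar), map it to `T'` by `Θ` and by `Θ ∘ G` (`Flag.map`), take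
`h` from MetricRegular, `H` from S_ISO; `α = G⁻¹ Θ⁻¹ H Θ` preserves `Φ`, by S_FNB and S_FIX it fixes
the three faces, by S_RIG it fixes all four vertices of `R`. -/
def S_TRK : Prop := ∀ T' : Set (Set E), IsLFCTiling (d := 3) T' → MetricRegular (d := 3) T' →
  ∀ Θ : FaceLat (d := 3) Tl ≃o FaceLat (d := 3) T', ∀ θ : E → E,
    (∀ (F : FaceLat (d := 3) Tl) (w : E), F.1 = {w} → (Θ F).1 = {θ w}) →
  ∀ G : FaceLat (d := 3) Tl ≃o FaceLat (d := 3) Tl, ∃ h : E ≃ᵢ E,
    ∀ x ∈ ({P0, A0, B0, D0} : Set E), ∀ F : FaceLat (d := 3) Tl, F.1 = {x} →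
      ∀ y : E, (G F).1 = {y} → h (θ x) = θ y

def S_TRK_job : Prop :=
  S_LFC → S_CTI → S_CUF → S_CFL → S_ISO → S_FNB → S_FIX → S_RIG → S_TRK

/-- JOB SQE.  A planar quadrilateral with equal sides and two equal angles at `p` and `a` is a
square.  With `m = (a+b)/2`, `p - m` and `d - m` are orthogonal to `b - a`, in the same plane and of
the same length, so `d - m = ± (p - m)`; `d ≠ p` gives `d = a + b - p`, so
`⟪p - a, d - a⟫ = ⟪p - a, b - p⟫ = - ⟪a - p, b - p⟫`. -/
def S_SQE : Prop := ∀ p a b d : E, p ≠ d → a ≠ b → dist p a = dist p b → dist d a = dist d b →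
  dist p b = dist a d → inner ℝ (a - p) (b - p) = inner ℝ (p - a) (d - a) →
  Module.finrank ℝ (vectorSpan ℝ ({p, a, b, d} : Set E)) ≤ 2 → inner ℝ (a - p) (b - p) = 0

/-- JOB FVE.  Five vectors of the same length orthogonal to `u ≠ 0`, consecutive ones orthogonal:
`n3 = ± n1`, `n5 = ± n3`. -/
def S_FVE : Prop := ∀ (u n1 n2 n3 n4 n5 : E) (r : ℝ), 0 < r → u ≠ 0 →
  ‖n1‖ = r → ‖n2‖ = r → ‖n3‖ = r → ‖n4‖ = r → ‖n5‖ = r →
  inner ℝ u n1 = 0 → inner ℝ u n2 = 0 → inner ℝ u n3 = 0 → inner ℝ u n4 = 0 →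
  inner ℝ u n5 = 0 → inner ℝ n1 n2 = 0 → inner ℝ n2 n3 = 0 → inner ℝ n3 n4 = 0 →
  inner ℝ n4 n5 = 0 → n1 ≠ n3 → n3 ≠ n5 → n1 ≠ n5 → False

/-- JOB PAI.  Group elements: for each pair `(x, y)` in the list there is an automorphism of the
tiling with `p ↦ p`, `a ↦ x`, `b ↦ y`.  Vertices of the cube lift to `(ph, x)` (`ell vs x = ph`).
With `c` = swap of coordinates 1 and 2 (`a ↦ q`, `b ↦ b`), `r` = swap of 0 and 1 (`a ↦ b`, `b ↦ a`),
`π = s ∘ r`: `π` fixes `(ph,p)` and `(ph,q)` and maps `(ph,b) ↦ (ph,a) ↦ (ph+2, C3) ↦ (3ph, C4) ↦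
(ph+2, C5) ↦ (ph,b)`.  The pairs `(q, e_i)` come from `π^(i-1) ∘ c` and `(e_i, e_{i+1})` from
`π^(i-1) ∘ r`, where `e_1, ..., e_5 = b, a, C3, C4, C5`. -/
def S_PAI : Prop := ∀ x y : E, (x, y) ∈ ({(Q0, B0), (Q0, A0), (Q0, C3), (Q0, C4), (Q0, C5),
    (B0, A0), (A0, C3), (C3, C4), (C4, C5)} : Set (E × E)) →
  ∃ G : FaceLat (d := 3) Tl ≃o FaceLat (d := 3) Tl, ∀ F : FaceLat (d := 3) Tl,
    (F.1 = {P0} → (G F).1 = {P0}) ∧ (F.1 = {A0} → (G F).1 = {x}) ∧
    (F.1 = {B0} → (G F).1 = {y})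

def S_PAI_job : Prop := S_AUG → S_CTI → S_GS → S_GP → S_PAI

/-- JOB SYQ.  Symmetries of the square `p a d b`: one automorphism exchanges `p` and `a`, `b` and
`d` (sign of coordinate 1), the other one fixes `p` and `d` and exchanges `a` and `b` (swap of
coordinates 0 and 1). -/
def S_SYQ : Prop := (∃ G : FaceLat (d := 3) Tl ≃o FaceLat (d := 3) Tl,
    ∀ F : FaceLat (d := 3) Tl, (F.1 = {P0} → (G F).1 = {A0}) ∧ (F.1 = {A0} → (G F).1 = {P0}) ∧
      (F.1 = {B0} → (G F).1 = {D0}) ∧ (F.1 = {D0} → (G F).1 = {B0})) ∧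
  (∃ G : FaceLat (d := 3) Tl ≃o FaceLat (d := 3) Tl,
    ∀ F : FaceLat (d := 3) Tl, (F.1 = {P0} → (G F).1 = {P0}) ∧ (F.1 = {A0} → (G F).1 = {B0}) ∧
      (F.1 = {B0} → (G F).1 = {A0}) ∧ (F.1 = {D0} → (G F).1 = {D0}))

def S_SYQ_job : Prop := S_AUG → S_CTI → S_GP → S_SYQ

/-- JOB SQR.  In a regular tiling isomorphic to `Tl` the square face at `p` is a metric square:
S_SYQ and S_TRK give the equalities of distances and of inner products, S_COP (with
`F = Θ (cface ![0,0,1]) < P = Θ cube`, not `univ`) the planarity, S_SQE the conclusion. -/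
def S_SQR : Prop := ∀ T' : Set (Set E), IsLFCTiling (d := 3) T' → MetricRegular (d := 3) T' →
  ∀ Θ : FaceLat (d := 3) Tl ≃o FaceLat (d := 3) T', ∀ θ : E → E,
    (∀ (F : FaceLat (d := 3) Tl) (w : E), F.1 = {w} → (Θ F).1 = {θ w}) →
  θ P0 ≠ θ A0 ∧ dist (θ P0) (θ A0) = dist (θ P0) (θ B0) ∧
    inner ℝ (θ A0 - θ P0) (θ B0 - θ P0) = 0

def S_SQR_job : Prop :=
  S_LFC → S_CTI → S_CUF → S_CFL → S_COP → S_SYQ → S_TRK → S_SQE → S_SQR

/-- JOB NIS.  No regular tiling is isomorphic to `Tl`.  `n_i = θ e_i - θ p`, `u = θ q - θ p`; for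
each pair `(x,y)` of S_PAI, S_TRK gives an isometry mapping `θ p, θ a, θ b` to `θ p, θ x, θ y`, so by
S_SQR `⟪θ x - θ p, θ y - θ p⟫ = 0` and the lengths are all equal to `r = dist (θ p) (θ a) > 0`.
`θ` is injective on vertices (`Θ` is injective) and `b, C3, C5` are distinct.  S_FVE with
`n_1, ..., n_5` = `b, a, C3, C4, C5`. -/
def S_NIS : Prop := ∀ T' : Set (Set E), IsLFCTiling (d := 3) T' → MetricRegular (d := 3) T' →
  IsEmpty (FaceLat (d := 3) Tl ≃o FaceLat (d := 3) T')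

def S_NIS_job : Prop :=
  S_LFC → S_CTI → S_CUF → S_CFL → S_VTX → S_PAI → S_TRK → S_SQR → S_FVE → S_NIS

/-- Main statement. -/
def S_MAIN : Prop := ∃ T : Set (Set (Eu 3)), IsLFCTiling T ∧ CombRegular T ∧
  ∀ T' : Set (Set (Eu 3)), IsLFCTiling T' → MetricRegular T' →
    IsEmpty (FaceLat T ≃o FaceLat T')

/-- Assembly from all the jobs. -/
theorem assembly (gs : S_GS) (gp : S_GP) (f1 : S_F1) (f3 : S_F3) (f2 : S_F2_job)
    (bel : S_BEL) (abv : S_ABV_job) (gdv : S_GDV_job) (max : S_MAX_job) (loc : S_LOC_job)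
    (act : S_ACT) (afl : S_AFL) (ply : S_PLY) (tlg : S_TLG_job) (cti : S_CTI_job) (chu : S_CHU)
    (aut : S_AUT) (iso : S_ISO_job) (pol : S_POL) (fit : S_FIT) (fnb : S_FNB_job)
    (til : S_TIL_job) (fix : S_FIX) (atm : S_ATM_job) (dim : S_DIM) (cop : S_COP_job)
    (cuf : S_CUF) (cfl : S_CFL) (cmb : S_CMB) (aug : S_AUG_job) (lfc : S_LFC_job)
    (mov : S_MOV_job) (cre : S_CRE_job) (vtx : S_VTX_job) (rig : S_RIG_job) (trk : S_TRK_job)
    (sqe : S_SQE) (fve : S_FVE) (pai : S_PAI_job) (syq : S_SYQ_job) (sqr : S_SQR_job)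
    (nis : S_NIS_job) : S_MAIN := by
  have F2 : S_F2 := f2 gs gp
  have ABV : S_ABV := abv F2
  have GDV : S_GDV := gdv f3
  have MAX : S_MAX := max bel ABV
  have LOC : S_LOC := loc bel ABV
  have TLG : S_TLG := tlg MAX LOC
  have CTI : S_CTI := cti f1 gs gp
  have LFC : S_LFC := lfc GDV MAX act afl ply CTI chu TLG
  have AUG : S_AUG := aug GDV MAX act afl aut
  have FNB : S_FNB := fnb pol fit
  have TIL : S_TIL := til FNB
  have MOV : S_MOV := mov LFC CTI fit cuf cfl cmb gp AUG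
  have CRE : S_CRE := cre LFC TIL CTI AUG MOV
  have ATM : S_ATM := atm pol
  have VTX : S_VTX := vtx ATM
  have RIG : S_RIG := rig LFC CTI fit cuf cfl
  have ISO : S_ISO := iso aut
  have COP : S_COP := cop dim fit
  have TRK : S_TRK := trk LFC CTI cuf cfl ISO FNB fix RIG
  have PAI : S_PAI := pai AUG CTI gs gp
  have SYQ : S_SYQ := syq AUG CTI gp
  have SQR : S_SQR := sqr LFC CTI cuf cfl COP SYQ TRK sqe
  have NIS : S_NIS := nis LFC CTI cuf cfl VTX PAI TRK SQR fve
  exact ⟨Tl, LFC, CRE, NIS⟩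

end Pool.Agent.Q293.RT
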