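import Pool.Agent.Q293.RT.Bas

/-! Vertices of the cube under the automorphisms of the group. -/

namespace Pool.Agent.Q293.RT.Ver
open Pool.Agent.Q293.RT
open Set

theorem autVertex (aug : S_AUG) (cti : S_CTI) {γ : M ≃ₗ[ℝ] M} (hγ : IsSym γ) :
    ∃ G : FaceLat (d := 3) Tl ≃o FaceLat (d := 3) Tl, ∀ (F : FaceLat (d := 3) Tl) (x : E),
      x ∈ cube → F.1 = {x} → (G F).1 = {(γ (ph, x)).2} := by
  obtain ⟨G, g, hG, -, h2⟩ := aug γ hγ
  refine ⟨G, fun F x hx hF => ?_⟩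
  have hc : tile VV vs = cube := cti
  rw [hG, hF, Set.image_singleton, h2 vs Bas.vs_mem x (by rw [hc]; exact hx), Bas.ell_vs]

theorem P0_mem : P0 ∈ cube := by
  intro i; fin_cases i <;> simp [P0]
theorem A0_mem : A0 ∈ cube := by
  intro i; fin_cases i <;> simp [A0]
theorem B0_mem : B0 ∈ cube := by
  intro i; fin_cases i <;> simp [B0]
theorem D0_mem : D0 ∈ cube := by
  intro i; fin_cases i <;> simp [D0]

theorem cface_P (cfl : S_CFL) : cface ![1, 1, 1] = {P0} := by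
  rw [cfl.2.2.2 ![1, 1, 1] (by decide)]
  congr 1
theorem cface_A (cfl : S_CFL) : cface ![1, -1, 1] = {A0} := by
  rw [cfl.2.2.2 ![1, -1, 1] (by decide)]
  congr 1
theorem cface_B (cfl : S_CFL) : cface ![-1, 1, 1] = {B0} := by
  rw [cfl.2.2.2 ![-1, 1, 1] (by decide)]
  congr 1
theorem cface_D (cfl : S_CFL) : cface ![-1, -1, 1] = {D0} := by
  rw [cfl.2.2.2 ![-1, -1, 1] (by decide)]
  congr 1

end Pool.Agent.Q293.RT.Ver
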